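import Mathlib

/-!
# Thin sets of primes which repair the translation property

`step`: for every `n` there is `t`, divisible by `(Y!)^(n+1)`, such that the primes above `Y`
which divide one of the numbers `a + t`, `1 ≤ a ≤ n`, form a very thin set.
`exists_thin`: one thin set `D` of primes which contains all these primes, for every `n`.
-/

set_option autoImplicit false

namespace Pool.Agent.helper59.TPP

open Finset

/-- the primes above `Y` which divide one of the numbers `a + t`, `1 ≤ a ≤ n` -/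
def W (Y n t : ℕ) : Finset ℕ :=
  (Ioc Y (t + n)).filter (fun p => p.Prime ∧ ∃ a ∈ Icc 1 n, p ∣ a + t)

theorem mem_W {Y n t p : ℕ} :
    p ∈ W Y n t ↔ (Y < p ∧ p ≤ t + n) ∧ p.Prime ∧ ∃ a ∈ Icc 1 n, p ∣ a + t := by
  simp [W, Finset.mem_filter, Finset.mem_Ioc]

/-- few `s ≤ S` with `p ∣ a + M s` -/
theorem count_le (M p a S : ℕ) (hp : p.Prime) (hM : ¬ p ∣ M) :
    ((Icc 1 S).filter (fun s => p ∣ a + M * s)).card ≤ S / p + 1 := by
  have h1 : ((Icc 1 S).filter (fun s => p ∣ a + M * s)).card ≤ (range (S / p + 1)).card := by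
    refine Finset.card_le_card_of_injOn (fun s => s / p) ?_ ?_
    · intro s hs
      have hs' := Finset.mem_filter.1 (Finset.mem_coe.1 hs)
      have hs2 := (Finset.mem_Icc.1 hs'.1).2
      exact Finset.mem_coe.2 (Finset.mem_range.2 (Nat.lt_succ_of_le (Nat.div_le_div_right hs2)))
    · intro s hs r hr hsr
      have hs' := (Finset.mem_filter.1 (Finset.mem_coe.1 hs)).2
      have hr' := (Finset.mem_filter.1 (Finset.mem_coe.1 hr)).2
      have key : ∀ u v : ℕ, p ∣ a + M * u → p ∣ a + M * v → u ≤ v → u / p = v / p → u = v := by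
        intro u v hu hv huv hd
        have h2 : p ∣ M * (v - u) := by
          have h3 : M * (v - u) = (a + M * v) - (a + M * u) := by
            rw [Nat.mul_sub]; omega
          rw [h3]
          exact Nat.dvd_sub hv hu
        have h4 : p ∣ v - u := by
          rcases (Nat.Prime.dvd_mul hp).1 h2 with h | h
          · exact absurd h hM
          · exact h
        have h5 : v - u < p := by
          have e1 := Nat.div_add_mod u p
          have e2 := Nat.div_add_mod v p
          have e3 := Nat.mod_lt v hp.pos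
          rw [hd] at e1
          omega
        have h6 := Nat.eq_zero_of_dvd_of_lt h4 h5
        omega
      rcases le_total s r with h | h
      · exact key s r hs' hr' h hsr
      · exact (key r s hr' hs' h hsr.symm).symm
  rwa [Finset.card_range] at h1

theorem count_le_real (M p a S : ℕ) (hp : p.Prime) (hM : ¬ p ∣ M) (hpS : p ≤ S) :
    (((Icc 1 S).filter (fun s => p ∣ a + M * s)).card : ℝ) ≤ 2 * S / p := by
  have h1 : (((Icc 1 S).filter (fun s => p ∣ a + M * s)).card : ℝ) ≤ ((S / p + 1 : ℕ) : ℝ) := by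
    exact_mod_cast count_le M p a S hp hM
  have hp0 : (0 : ℝ) < p := by exact_mod_cast hp.pos
  have h2 : ((S / p : ℕ) : ℝ) ≤ (S : ℝ) / p := Nat.cast_div_le
  have h3 : (1 : ℝ) ≤ (S : ℝ) / p := by
    rw [le_div_iff₀ hp0, one_mul]; exact_mod_cast hpS
  push_cast at h1
  calc _ ≤ ((S / p : ℕ) : ℝ) + 1 := h1
    _ ≤ (S : ℝ) / p + (S : ℝ) / p := add_le_add h2 h3
    _ = 2 * S / p := by ring

/-- a monotone positive `g` with convergent `∑ 1 / (m g m)` is unbounded -/
theorem exists_large (g : ℕ → ℝ) (hg : ∀ x, 0 < g x) (hmono : Monotone g)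
    (hsum : Summable (Set.indicator {p : ℕ | p.Prime} (fun m : ℕ => 1 / ((m : ℝ) * g m)))) (K : ℝ) : ∃ X, ∀ x, X ≤ x → K ≤ g x := by
  by_contra hcon
  push Not at hcon
  have h1 : ∀ x, g x < K := by
    intro x
    obtain ⟨y, hy, hy2⟩ := hcon x
    exact (hmono hy).trans_lt hy2
  have hK : 0 < K := (hg 0).trans (h1 0)
  have h2 : Summable (Set.indicator {p : ℕ | p.Prime} (fun m : ℕ => (1 : ℝ) / m)) := by
    refine Summable.of_nonneg_of_le (fun m => Set.indicator_nonneg (fun m _ => by positivity) m)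
      (fun m => ?_) (hsum.mul_left K)
    by_cases hm : m ∈ {p : ℕ | p.Prime}
    · rw [Set.indicator_of_mem hm, Set.indicator_of_mem hm]
      have hm0 : 0 < m := Nat.Prime.pos hm
      have hm' : (0 : ℝ) < m := by exact_mod_cast hm0
      have e : K * (1 / ((m : ℝ) * g m)) = (K / g m) * (1 / m) := by
        field_simp
      rw [e]
      have h3 : 1 ≤ K / g m := by
        rw [le_div_iff₀ (hg m), one_mul]; exact (h1 m).le
      calc 1 / (m : ℝ) = 1 * (1 / m) := (one_mul _).symm
        _ ≤ K / g m * (1 / m) := mul_le_mul_of_nonneg_right h3 (by positivity)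
    · rw [Set.indicator_of_notMem hm, Set.indicator_of_notMem hm, mul_zero]
  exact not_summable_one_div_on_primes h2

theorem step (g : ℕ → ℝ) (hg : ∀ x, 0 < g x) (hmono : Monotone g)
    (hsum : Summable (Set.indicator {p : ℕ | p.Prime} (fun m : ℕ => 1 / ((m : ℝ) * g m)))) (n Y0 : ℕ) (δ : ℝ) (hδ : 0 < δ) :
    ∃ Y t : ℕ, Y0 ≤ Y ∧ n ≤ Y ∧ 1 ≤ t ∧ (Nat.factorial Y) ^ (n + 1) ∣ t ∧
      ∀ x : ℕ, (((W Y n t).filter (fun p => p ≤ x)).card : ℝ) ≤ δ * g x := by
  set η : ℝ := δ / (4 * (n + 1)) with hη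
  have hηpos : 0 < η := by positivity
  obtain ⟨s0, hs0⟩ := summable_iff_vanishing_norm.mp hsum η hηpos
  obtain ⟨X1, hX1⟩ := exists_large g hg hmono hsum (2 * n / δ)
  set Y : ℕ := max (max Y0 n) (max X1 (s0.sup id)) with hY
  have hYY0 : Y0 ≤ Y := (le_max_left _ _).trans (le_max_left _ _)
  have hYn : n ≤ Y := (le_max_right _ _).trans (le_max_left _ _)
  have hYX : X1 ≤ Y := (le_max_left _ _).trans (le_max_right _ _)
  have hYs : ∀ m ∈ s0, m ≤ Y := by
    intro m hm
    have h1 : m ≤ s0.sup id := Finset.le_sup (f := id) hm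
    exact h1.trans ((le_max_right _ _).trans (le_max_right _ _))
  set M : ℕ := (Nat.factorial Y) ^ (n + 1) with hM
  have hMpos : 0 < M := pow_pos (Nat.factorial_pos Y) _
  set S : ℕ := M + Y + n with hS
  have hSpos : 0 < S := by omega
  -- the weights
  set Φ : ℕ → ℝ := fun s => ∑ p ∈ (Ioc Y S).filter Nat.Prime, ∑ a ∈ Icc 1 n,
    (if p ∣ a + M * s then 1 / g p else 0) with hΦ
  have hpM : ∀ p, p.Prime → Y < p → ¬ p ∣ M := by
    intro p hp hYp hd
    have h1 := hp.dvd_of_dvd_pow hd
    rw [hp.dvd_factorial] at h1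
    omega
  have hsumΦ : ∑ s ∈ Icc 1 S, Φ s ≤ ∑ _s ∈ Icc 1 S, 2 * n * η := by
    rw [hΦ]
    simp only
    rw [Finset.sum_comm]
    have h1 : ∀ p ∈ (Ioc Y S).filter Nat.Prime,
        ∑ s ∈ Icc 1 S, ∑ a ∈ Icc 1 n, (if p ∣ a + M * s then 1 / g p else 0) ≤
          2 * n * S * (1 / ((p : ℝ) * g p)) := by
      intro p hp
      obtain ⟨hp1, hp2⟩ := Finset.mem_filter.1 hp
      obtain ⟨hp3, hp4⟩ := Finset.mem_Ioc.1 hp1
      have hp0 : (0 : ℝ) < p := by exact_mod_cast hp2.pos
      rw [Finset.sum_comm]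
      have h2 : ∀ a ∈ Icc 1 n, ∑ s ∈ Icc 1 S, (if p ∣ a + M * s then 1 / g p else 0) ≤
          2 * S / p * (1 / g p) := by
        intro a _
        rw [← Finset.sum_filter, Finset.sum_const, nsmul_eq_mul]
        exact mul_le_mul_of_nonneg_right (count_le_real M p a S hp2 (hpM p hp2 hp3) hp4)
          (by have := hg p; positivity)
      calc ∑ a ∈ Icc 1 n, ∑ s ∈ Icc 1 S, (if p ∣ a + M * s then 1 / g p else 0)
          ≤ ∑ _a ∈ Icc 1 n, 2 * S / p * (1 / g p) := Finset.sum_le_sum h2
        _ = n * (2 * S / p * (1 / g p)) := by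
            rw [Finset.sum_const, nsmul_eq_mul, Nat.card_Icc]; simp
        _ = 2 * n * S * (1 / ((p : ℝ) * g p)) := by
            have := hg p
            field_simp
    calc ∑ p ∈ (Ioc Y S).filter Nat.Prime,
        ∑ s ∈ Icc 1 S, ∑ a ∈ Icc 1 n, (if p ∣ a + M * s then 1 / g p else 0)
        ≤ ∑ p ∈ (Ioc Y S).filter Nat.Prime, 2 * n * S * (1 / ((p : ℝ) * g p)) :=
          Finset.sum_le_sum h1
      _ = 2 * n * S * ∑ p ∈ (Ioc Y S).filter Nat.Prime, 1 / ((p : ℝ) * g p) := by
          rw [Finset.mul_sum]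
      _ ≤ 2 * n * S * η := by
          have hdisj : Disjoint ((Ioc Y S).filter Nat.Prime) s0 := by
            rw [Finset.disjoint_left]
            intro p hp hps
            have h3 := (Finset.mem_Ioc.1 (Finset.mem_filter.1 hp).1).1
            have h4 := hYs p hps
            omega
          have h5 := hs0 _ hdisj
          have h6 : ∑ i ∈ (Ioc Y S).filter Nat.Prime,
              Set.indicator {p : ℕ | p.Prime} (fun m : ℕ => 1 / ((m : ℝ) * g m)) i =
              ∑ p ∈ (Ioc Y S).filter Nat.Prime, 1 / ((p : ℝ) * g p) := by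
            refine Finset.sum_congr rfl (fun p hp => ?_)
            have hp' : p ∈ {p : ℕ | p.Prime} := (Finset.mem_filter.1 hp).2
            exact Set.indicator_of_mem hp' _
          rw [h6, Real.norm_eq_abs] at h5
          exact mul_le_mul_of_nonneg_left (abs_lt.1 h5).2.le (by positivity)
      _ = ∑ _s ∈ Icc 1 S, 2 * n * η := by
          rw [Finset.sum_const, nsmul_eq_mul, Nat.card_Icc]
          simp
          ring
  obtain ⟨s, hs, hΦs⟩ := Finset.exists_le_of_sum_le (by
    rw [Finset.nonempty_Icc]; omega) hsumΦ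
  obtain ⟨hs1, hs2⟩ := Finset.mem_Icc.1 hs
  refine ⟨Y, M * s, hYY0, hYn, Nat.mul_pos hMpos hs1, Dvd.intro s rfl, fun x => ?_⟩
  set V := (W Y n (M * s)).filter (fun p => p ≤ x) with hV
  have hsplit : V = V.filter (fun p => p ≤ S) ∪ V.filter (fun p => ¬ p ≤ S) :=
    (Finset.filter_union_filter_not_eq _ _).symm
  have hc : (V.card : ℝ) ≤ (V.filter (fun p => p ≤ S)).card + (V.filter (fun p => ¬ p ≤ S)).card := by
    have h1 : V.card ≤ (V.filter (fun p => p ≤ S)).card + (V.filter (fun p => ¬ p ≤ S)).card := by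
      conv_lhs => rw [hsplit]
      exact Finset.card_union_le _ _
    exact_mod_cast h1
  -- the primes up to S
  have hA1 : ((V.filter (fun p => p ≤ S)).card : ℝ) ≤ δ / 2 * g x := by
    have h1 : ((V.filter (fun p => p ≤ S)).card : ℝ) * (1 / g x) ≤ Φ s := by
      calc ((V.filter (fun p => p ≤ S)).card : ℝ) * (1 / g x)
          = ∑ _p ∈ V.filter (fun p => p ≤ S), 1 / g x := by
            rw [Finset.sum_const, nsmul_eq_mul]
        _ ≤ ∑ p ∈ V.filter (fun p => p ≤ S), ∑ a ∈ Icc 1 n,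
              (if p ∣ a + M * s then 1 / g p else 0) := by
            refine Finset.sum_le_sum (fun p hp => ?_)
            obtain ⟨hp1, hp2⟩ := Finset.mem_filter.1 hp
            obtain ⟨hp3, hp4⟩ := Finset.mem_filter.1 hp1
            obtain ⟨hp5, hp6, a, ha, hpa⟩ := mem_W.1 hp3
            calc 1 / g x ≤ 1 / g p := one_div_le_one_div_of_le (hg p) (hmono hp4)
              _ = (if p ∣ a + M * s then 1 / g p else 0) := by rw [if_pos hpa]
              _ ≤ ∑ a ∈ Icc 1 n, (if p ∣ a + M * s then 1 / g p else 0) :=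
                Finset.single_le_sum (f := fun a => if p ∣ a + M * s then 1 / g p else 0)
                  (fun b _ => by
                    have := hg p
                    positivity) ha
        _ ≤ Φ s := by
            rw [hΦ]
            refine Finset.sum_le_sum_of_subset_of_nonneg (fun p hp => ?_) (fun p _ _ => ?_)
            · obtain ⟨hp1, hp2⟩ := Finset.mem_filter.1 hp
              obtain ⟨hp3, hp4⟩ := Finset.mem_filter.1 hp1
              obtain ⟨hp5, hp6, a, ha, hpa⟩ := mem_W.1 hp3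
              exact Finset.mem_filter.2 ⟨Finset.mem_Ioc.2 ⟨hp5.1, hp2⟩, hp6⟩
            · refine Finset.sum_nonneg (fun a _ => ?_)
              have := hg p
              positivity
    have h2 : 2 * (n : ℝ) * η ≤ δ / 2 := by
      rw [hη]
      have hn : (0 : ℝ) ≤ n := Nat.cast_nonneg n
      rw [← mul_div_assoc, div_le_div_iff₀ (by positivity) (by norm_num)]
      nlinarith
    have h3 := h1.trans (hΦs.trans h2)
    rw [mul_one_div, div_le_iff₀ (hg x)] at h3
    exact h3
  -- the primes above S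
  have hA2 : ((V.filter (fun p => ¬ p ≤ S)).card : ℝ) ≤ δ / 2 * g x := by
    rcases (V.filter (fun p => ¬ p ≤ S)).eq_empty_or_nonempty with h0 | ⟨q, hq⟩
    · rw [h0]
      have := hg x
      simp
      positivity
    · have hSx : S < x := by
        obtain ⟨hq1, hq2⟩ := Finset.mem_filter.1 hq
        have hq3 := (Finset.mem_filter.1 hq1).2
        omega
      have h1 : (V.filter (fun p => ¬ p ≤ S)).card ≤ (Icc 1 n).card := by
        have hchoice : ∀ p ∈ V.filter (fun p => ¬ p ≤ S), ∃ a, a ∈ Icc 1 n ∧ p ∣ a + M * s := by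
          intro p hp
          obtain ⟨hp1, hp2⟩ := Finset.mem_filter.1 hp
          obtain ⟨hp3, hp4⟩ := Finset.mem_filter.1 hp1
          obtain ⟨hp5, hp6, a, ha, hpa⟩ := mem_W.1 hp3
          exact ⟨a, ha, hpa⟩
        choose! f hf using hchoice
        refine Finset.card_le_card_of_injOn f (fun p hp => Finset.mem_coe.2 (hf p hp).1) ?_
        intro p hp r hr hpr
        have hp' := Finset.mem_coe.1 hp
        have hr' := Finset.mem_coe.1 hr
        have hp1 := (hf p hp').2
        have hr1 := (hf r hr').2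
        rw [← hpr] at hr1
        have hfa := Finset.mem_Icc.1 (hf p hp').1
        obtain ⟨hp2, hp3⟩ := Finset.mem_filter.1 hp'
        obtain ⟨hr2, hr3⟩ := Finset.mem_filter.1 hr'
        have hpP := (mem_W.1 (Finset.mem_filter.1 hp2).1).2.1
        have hrP := (mem_W.1 (Finset.mem_filter.1 hr2).1).2.1
        by_contra hne
        have hcop : Nat.Coprime p r := (Nat.coprime_primes hpP hrP).2 hne
        have h2 := Nat.Coprime.mul_dvd_of_dvd_of_dvd hcop hp1 hr1
        have h3 := Nat.le_of_dvd (by omega) h2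
        have h4 : (S + 1) * (S + 1) ≤ p * r := Nat.mul_le_mul (by omega) (by omega)
        have h5 : M * s ≤ M * S := Nat.mul_le_mul_left _ hs2
        have h6 : M * S ≤ S * S := Nat.mul_le_mul_right _ (by omega)
        nlinarith
      rw [Nat.card_Icc] at h1
      have h2 : ((V.filter (fun p => ¬ p ≤ S)).card : ℝ) ≤ n := by
        have h3 : (V.filter (fun p => ¬ p ≤ S)).card ≤ n := by omega
        exact_mod_cast h3
      have h4 := hX1 x (by omega)
      rw [div_le_iff₀ hδ] at h4
      linarith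
  calc (V.card : ℝ) ≤ _ := hc
    _ ≤ δ / 2 * g x + δ / 2 * g x := add_le_add hA1 hA2
    _ = δ * g x := by ring

/-- one thin set of primes which contains all primes above `Y n` dividing some `a + t n` -/
theorem exists_thin (g : ℕ → ℝ) (hg : ∀ x, 0 < g x) (hmono : Monotone g)
    (hsum : Summable (Set.indicator {p : ℕ | p.Prime} (fun m : ℕ => 1 / ((m : ℝ) * g m)))) (Y0 : ℕ) :
    ∃ D : Set ℕ, (∀ p ∈ D, p.Prime ∧ Y0 < p) ∧ (∀ x : ℕ, ((D ∩ Set.Iic x).ncard : ℝ) ≤ g x) ∧
      ∀ n : ℕ, ∃ Y t : ℕ, n ≤ Y ∧ 1 ≤ t ∧ (Nat.factorial Y) ^ (n + 1) ∣ t ∧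
        ∀ p : ℕ, p.Prime → Y < p → (∃ a, 1 ≤ a ∧ a ≤ n ∧ p ∣ a + t) → p ∈ D := by
  have h := fun n : ℕ => step g hg hmono hsum n (max Y0 n) ((1 / 2) ^ (n + 1)) (by positivity)
  choose Y t hY hYn ht hdvd hthin using h
  refine ⟨{p | ∃ n, p ∈ W (Y n) n (t n)}, ?_, ?_, ?_⟩
  · rintro p ⟨n, hp⟩
    obtain ⟨h1, h2, -⟩ := mem_W.1 hp
    have h3 := (le_max_left Y0 n).trans (hY n)
    exact ⟨h2, by omega⟩
  · intro x
    have hsub : ({p | ∃ n, p ∈ W (Y n) n (t n)} ∩ Set.Iic x : Set ℕ) ⊆
        ((range (x + 1)).biUnion (fun n => (W (Y n) n (t n)).filter (fun p => p ≤ x)) :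
          Finset ℕ) := by
      rintro p ⟨⟨n, hp⟩, hpx⟩
      rw [Finset.mem_coe, Finset.mem_biUnion]
      have h1 := (mem_W.1 hp).1.1
      have h2 := hYn n
      have h3 : p ≤ x := hpx
      exact ⟨n, Finset.mem_range.2 (by omega), Finset.mem_filter.2 ⟨hp, h3⟩⟩
    have h1 := Set.ncard_le_ncard hsub (Finset.finite_toSet _)
    rw [Set.ncard_coe_finset] at h1
    have h2 := h1.trans Finset.card_biUnion_le
    calc (({p | ∃ n, p ∈ W (Y n) n (t n)} ∩ Set.Iic x : Set ℕ).ncard : ℝ)
        ≤ ((∑ n ∈ range (x + 1), ((W (Y n) n (t n)).filter (fun p => p ≤ x)).card : ℕ) : ℝ) := by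
          exact_mod_cast h2
      _ = ∑ n ∈ range (x + 1), (((W (Y n) n (t n)).filter (fun p => p ≤ x)).card : ℝ) := by
          push_cast; rfl
      _ ≤ ∑ n ∈ range (x + 1), (1 / 2 : ℝ) ^ (n + 1) * g x :=
          Finset.sum_le_sum (fun n _ => hthin n x)
      _ = (∑ n ∈ range (x + 1), (1 / 2 : ℝ) ^ (n + 1)) * g x := by rw [Finset.sum_mul]
      _ ≤ 1 * g x := by
          refine mul_le_mul_of_nonneg_right ?_ (hg x).le
          have e : ∑ n ∈ range (x + 1), (1 / 2 : ℝ) ^ (n + 1) = 1 - (1 / 2) ^ (x + 1) := by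
            induction x + 1 with
            | zero => simp
            | succ k ih =>
              rw [Finset.sum_range_succ, ih]
              ring
          rw [e]
          have : (0 : ℝ) < (1 / 2) ^ (x + 1) := by positivity
          linarith
      _ = g x := one_mul _
  · intro n
    refine ⟨Y n, t n, hYn n, ht n, hdvd n, ?_⟩
    rintro p hp hYp ⟨a, ha1, ha2, hpa⟩
    refine ⟨n, mem_W.2 ⟨⟨hYp, ?_⟩, hp, a, Finset.mem_Icc.2 ⟨ha1, ha2⟩, hpa⟩⟩
    have h1 := Nat.le_of_dvd (by omega) hpa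
    omega

end Pool.Agent.helper59.TPP
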