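import Mathlib

/-!
# The algebra of Selberg's weights on a down-closed family of finite sets
-/

set_option autoImplicit false
set_option linter.unusedSectionVars false

namespace Pool.Agent.helper59.Sel

open Finset

variable {α : Type*} [DecidableEq α]

/-- the product of the densities -/
noncomputable def F (f : α → ℝ) (A : Finset α) : ℝ := ∏ p ∈ A, f p

/-- the product of `1 / f - 1` -/
noncomputable def H (f : α → ℝ) (A : Finset α) : ℝ := ∏ p ∈ A, (1 / f p - 1)

/-- the inverse of `H` -/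
noncomputable def K (f : α → ℝ) (A : Finset α) : ℝ := ∏ p ∈ A, (1 / f p - 1)⁻¹

theorem F_pos {f : α → ℝ} (hf : ∀ p, 0 < f p) (A : Finset α) : 0 < F f A :=
  Finset.prod_pos (fun p _ => hf p)

theorem h_pos {f : α → ℝ} (hf : ∀ p, 0 < f p) (hf1 : ∀ p, f p < 1) (p : α) :
    0 < 1 / f p - 1 := by
  have h1 := one_lt_one_div (hf p) (hf1 p)
  linarith

theorem K_pos {f : α → ℝ} (hf : ∀ p, 0 < f p) (hf1 : ∀ p, f p < 1) (A : Finset α) :
    0 < K f A :=
  Finset.prod_pos (fun p _ => inv_pos.2 (h_pos hf hf1 p))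

theorem H_pos {f : α → ℝ} (hf : ∀ p, 0 < f p) (hf1 : ∀ p, f p < 1) (A : Finset α) :
    0 < H f A :=
  Finset.prod_pos (fun p _ => h_pos hf hf1 p)

theorem H_mul_K {f : α → ℝ} (hf : ∀ p, 0 < f p) (hf1 : ∀ p, f p < 1) (A : Finset α) :
    H f A * K f A = 1 := by
  unfold H K
  rw [← Finset.prod_mul_distrib]
  exact Finset.prod_eq_one (fun p _ => mul_inv_cancel₀ (h_pos hf hf1 p).ne')

theorem F_union {f : α → ℝ} (hf : ∀ p, 0 < f p) (A B : Finset α) :
    F f (A ∪ B) = F f A * F f B * ∑ C ∈ (A ∩ B).powerset, H f C := by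
  have h1 : ∑ C ∈ (A ∩ B).powerset, H f C = (F f (A ∩ B))⁻¹ := by
    unfold H F
    rw [← Finset.prod_one_add, ← Finset.prod_inv_distrib]
    exact Finset.prod_congr rfl (fun p _ => by rw [one_div]; ring)
  have h2 : F f (A ∪ B) * F f (A ∩ B) = F f A * F f B := Finset.prod_union_inter
  have h3 : F f (A ∩ B) ≠ 0 := (F_pos hf _).ne'
  rw [h1, ← h2, mul_assoc, mul_inv_cancel₀ h3, mul_one]

theorem diag {f : α → ℝ} (hf : ∀ p, 0 < f p) (D : Finset (Finset α))
    (hD : ∀ A ∈ D, ∀ C, C ⊆ A → C ∈ D) (l : Finset α → ℝ) :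
    ∑ A ∈ D, ∑ B ∈ D, l A * l B * F f (A ∪ B) =
      ∑ C ∈ D, H f C * (∑ A ∈ D with C ⊆ A, F f A * l A) ^ 2 := by
  have h1 : ∀ C ∈ D, H f C * (∑ A ∈ D with C ⊆ A, F f A * l A) ^ 2 =
      ∑ A ∈ D, ∑ B ∈ D, (if C ⊆ A ∩ B then H f C else 0) * (F f A * l A * (F f B * l B)) := by
    intro C _
    rw [sq, Finset.sum_filter, Finset.sum_mul_sum, Finset.mul_sum]
    refine Finset.sum_congr rfl (fun A _ => ?_)
    rw [Finset.mul_sum]
    refine Finset.sum_congr rfl (fun B _ => ?_)
    by_cases hA : C ⊆ A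
    · by_cases hB : C ⊆ B
      · rw [if_pos hA, if_pos hB, if_pos (Finset.subset_inter hA hB)]
      · have hAB : ¬ C ⊆ A ∩ B := fun h => hB (h.trans Finset.inter_subset_right)
        rw [if_pos hA, if_neg hB, if_neg hAB]
        ring
    · have hAB : ¬ C ⊆ A ∩ B := fun h => hA (h.trans Finset.inter_subset_left)
      rw [if_neg hA, if_neg hAB]
      ring
  rw [Finset.sum_congr rfl h1]
  symm
  rw [Finset.sum_comm]
  refine Finset.sum_congr rfl (fun A hA => ?_)
  rw [Finset.sum_comm]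
  refine Finset.sum_congr rfl (fun B hB => ?_)
  rw [← Finset.sum_mul, ← Finset.sum_filter]
  have h2 : D.filter (fun C => C ⊆ A ∩ B) = (A ∩ B).powerset := by
    ext C
    rw [Finset.mem_filter, Finset.mem_powerset]
    exact ⟨fun h => h.2, fun h => ⟨hD A hA C (h.trans Finset.inter_subset_left), h⟩⟩
  rw [h2, F_union hf]
  ring

theorem alt (C E : Finset α) :
    ∑ A ∈ Icc C E, (-1 : ℝ) ^ A.card = if C = E then (-1 : ℝ) ^ C.card else 0 := by
  by_cases h : C ⊆ E
  · rw [Finset.Icc_eq_image_powerset h, Finset.sum_image]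
    · have h1 : ∀ A ∈ (E \ C).powerset, (-1 : ℝ) ^ (C ∪ A).card =
          (-1 : ℝ) ^ C.card * (-1 : ℝ) ^ A.card := by
        intro A hA
        rw [Finset.card_union_of_disjoint, pow_add]
        rw [Finset.disjoint_left]
        intro x hx hxA
        exact (Finset.mem_sdiff.1 (Finset.mem_powerset.1 hA hxA)).2 hx
      rw [Finset.sum_congr rfl h1, ← Finset.mul_sum]
      have h2 : ∑ A ∈ (E \ C).powerset, (-1 : ℝ) ^ A.card =
          if E \ C = ∅ then 1 else 0 := by
        have h3 := Finset.sum_powerset_neg_one_pow_card (x := E \ C)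
        have h4 : (((∑ A ∈ (E \ C).powerset, (-1 : ℤ) ^ A.card) : ℤ) : ℝ) =
            ((if E \ C = ∅ then 1 else 0 : ℤ) : ℝ) := by rw [h3]
        push_cast at h4
        exact h4
      rw [h2]
      by_cases hCE : C = E
      · rw [if_pos hCE, if_pos (by rw [hCE, Finset.sdiff_self]), mul_one]
      · rw [if_neg hCE, if_neg, mul_zero]
        intro h5
        rw [Finset.sdiff_eq_empty_iff_subset] at h5
        exact hCE (Finset.Subset.antisymm h h5)
    · intro A hA B hB hAB
      have hA' := Finset.mem_powerset.1 (Finset.mem_coe.1 hA)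
      have hB' := Finset.mem_powerset.1 (Finset.mem_coe.1 hB)
      have key : ∀ A B : Finset α, A ⊆ E \ C → C ∪ A = C ∪ B → A ⊆ B := by
        intro A B hA hAB x hx
        have h1 : x ∈ C ∪ B := hAB ▸ Finset.mem_union_right C hx
        rcases Finset.mem_union.1 h1 with h2 | h2
        · exact absurd h2 (Finset.mem_sdiff.1 (hA hx)).2
        · exact h2
      exact Finset.Subset.antisymm (key A B hA' hAB) (key B A hB' hAB.symm)
  · have hne : C ≠ E := by
      rintro rfl
      exact h (Finset.Subset.refl _)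
    rw [if_neg hne]
    apply Finset.sum_eq_zero
    intro A hA
    exact absurd ((Finset.mem_Icc.1 hA).1.trans (Finset.mem_Icc.1 hA).2) h

theorem inner (f : α → ℝ) (D D0 : Finset (Finset α))
    (hD0 : ∀ A ∈ D0, ∀ C, C ⊆ A → C ∈ D0) (π : Finset α → Finset α)
    (hπ : ∀ E ∈ D, π E ∈ D0) (v l : Finset α → ℝ)
    (hl : ∀ A ∈ D0, F f A * l A = (-1 : ℝ) ^ A.card * ∑ E ∈ D with A ⊆ π E, v E)
    (C : Finset α) :
    ∑ A ∈ D0 with C ⊆ A, F f A * l A = (-1 : ℝ) ^ C.card * ∑ E ∈ D with π E = C, v E := by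
  have h1 : ∑ A ∈ D0 with C ⊆ A, F f A * l A =
      ∑ A ∈ D0 with C ⊆ A, ∑ E ∈ D, (if A ⊆ π E then (-1 : ℝ) ^ A.card else 0) * v E := by
    refine Finset.sum_congr rfl (fun A hA => ?_)
    rw [hl A (Finset.mem_filter.1 hA).1, Finset.sum_filter, Finset.mul_sum]
    refine Finset.sum_congr rfl (fun E _ => ?_)
    by_cases h : A ⊆ π E
    · rw [if_pos h, if_pos h]
    · rw [if_neg h, if_neg h]
      ring
  rw [h1, Finset.sum_comm]
  have h2 : ∀ E ∈ D, ∑ A ∈ D0 with C ⊆ A, (if A ⊆ π E then (-1 : ℝ) ^ A.card else 0) * v E =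
      (-1 : ℝ) ^ C.card * (if π E = C then v E else 0) := by
    intro E hE
    rw [← Finset.sum_mul, ← Finset.sum_filter, Finset.filter_filter]
    have h3 : D0.filter (fun A => C ⊆ A ∧ A ⊆ π E) = Icc C (π E) := by
      ext A
      rw [Finset.mem_filter, Finset.mem_Icc]
      exact ⟨fun h => h.2, fun h => ⟨hD0 _ (hπ E hE) A h.2, h⟩⟩
    rw [h3, alt]
    by_cases h : C = π E
    · rw [if_pos h, if_pos h.symm]
    · rw [if_neg h, if_neg (fun h' => h h'.symm)]
      ring
  rw [Finset.sum_congr rfl h2, ← Finset.mul_sum, ← Finset.sum_filter]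

theorem quad {f : α → ℝ} (hf : ∀ p, 0 < f p) (D D0 : Finset (Finset α))
    (hD0 : ∀ A ∈ D0, ∀ C, C ⊆ A → C ∈ D0) (π : Finset α → Finset α)
    (hπ : ∀ E ∈ D, π E ∈ D0) (v l : Finset α → ℝ)
    (hl : ∀ A ∈ D0, F f A * l A = (-1 : ℝ) ^ A.card * ∑ E ∈ D with A ⊆ π E, v E) :
    ∑ A ∈ D0, ∑ B ∈ D0, l A * l B * F f (A ∪ B) =
      ∑ C ∈ D0, H f C * (∑ E ∈ D with π E = C, v E) ^ 2 := by
  rw [diag hf D0 hD0 l]
  refine Finset.sum_congr rfl (fun C _ => ?_)
  rw [inner f D D0 hD0 π hπ v l hl C, mul_pow, ← pow_mul, mul_comm C.card 2, pow_mul]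
  norm_num

/-- the sum `G` -/
noncomputable def G (f : α → ℝ) (D : Finset (Finset α)) : ℝ := ∑ E ∈ D, K f E

/-- Selberg's weights -/
noncomputable def lam (f : α → ℝ) (D : Finset (Finset α)) (A : Finset α) : ℝ :=
  (-1 : ℝ) ^ A.card / F f A * ∑ E ∈ D with A ⊆ E, K f E / G f D

theorem G_pos {f : α → ℝ} (hf : ∀ p, 0 < f p) (hf1 : ∀ p, f p < 1) (D : Finset (Finset α))
    (hne : D.Nonempty) : 0 < G f D :=
  Finset.sum_pos (fun E _ => K_pos hf hf1 E) hne

theorem lam_eq {f : α → ℝ} (hf : ∀ p, 0 < f p) (D : Finset (Finset α)) (A : Finset α) :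
    F f A * lam f D A = (-1 : ℝ) ^ A.card * ∑ E ∈ D with A ⊆ E, K f E / G f D := by
  unfold lam
  rw [← mul_assoc, mul_div_cancel₀ _ (F_pos hf A).ne']

theorem lam_abs {f : α → ℝ} (hf : ∀ p, 0 < f p) (hf1 : ∀ p, f p < 1) (D : Finset (Finset α))
    (hne : D.Nonempty) (A : Finset α) : |lam f D A| ≤ 1 / F f A := by
  have hG := G_pos hf hf1 D hne
  have h1 : 0 ≤ ∑ E ∈ D with A ⊆ E, K f E / G f D :=
    Finset.sum_nonneg (fun E _ => div_nonneg (K_pos hf hf1 E).le hG.le)
  have h2 : ∑ E ∈ D with A ⊆ E, K f E / G f D ≤ 1 := by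
    calc ∑ E ∈ D with A ⊆ E, K f E / G f D ≤ ∑ E ∈ D, K f E / G f D :=
          Finset.sum_le_sum_of_subset_of_nonneg (Finset.filter_subset _ _)
            (fun E _ _ => div_nonneg (K_pos hf hf1 E).le hG.le)
      _ = 1 := by
          rw [← Finset.sum_div]
          exact div_self hG.ne'
  unfold lam
  rw [abs_mul, abs_div, abs_pow, abs_neg, abs_one, one_pow, abs_of_pos (F_pos hf A),
    abs_of_nonneg h1]
  have h3 : 0 < 1 / F f A := one_div_pos.2 (F_pos hf A)
  nlinarith

theorem lam_zero (f : α → ℝ) (D : Finset (Finset α))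
    (hD : ∀ A ∈ D, ∀ C, C ⊆ A → C ∈ D) (A : Finset α) (hA : A ∉ D) : lam f D A = 0 := by
  unfold lam
  rw [Finset.filter_false_of_mem (fun E hE hAE => hA (hD E hE A hAE))]
  simp

/-- the main term -/
theorem main1 {f : α → ℝ} (hf : ∀ p, 0 < f p) (hf1 : ∀ p, f p < 1) (D : Finset (Finset α))
    (hD : ∀ A ∈ D, ∀ C, C ⊆ A → C ∈ D) (hne : D.Nonempty) :
    ∑ A ∈ D, ∑ B ∈ D, lam f D A * lam f D B * F f (A ∪ B) = 1 / G f D := by
  have hG := G_pos hf hf1 D hne
  rw [quad hf D D hD id (fun E hE => hE) (fun E => K f E / G f D) (lam f D)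
    (fun A _ => lam_eq hf D A)]
  have h1 : ∀ C ∈ D, H f C * (∑ E ∈ D with id E = C, K f E / G f D) ^ 2 =
      K f C / G f D ^ 2 := by
    intro C hC
    have h2 : D.filter (fun E => id E = C) = {C} := by
      ext E
      rw [Finset.mem_filter, Finset.mem_singleton]
      exact ⟨fun h => h.2, fun h => ⟨h ▸ hC, h⟩⟩
    rw [h2, Finset.sum_singleton, div_pow, ← mul_div_assoc, sq, ← mul_assoc,
      H_mul_K hf hf1, one_mul]
  rw [Finset.sum_congr rfl h1, ← Finset.sum_div]
  change G f D / G f D ^ 2 = _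
  rw [sq]
  field_simp

/-- the weights after fixing a prime `p` -/
noncomputable def lamp (f : α → ℝ) (D : Finset (Finset α)) (p : α) (A : Finset α) : ℝ :=
  lam f D A + lam f D (insert p A)

theorem lamp_eq {f : α → ℝ} (hf : ∀ p, 0 < f p) (D : Finset (Finset α)) (p : α)
    (A : Finset α) (hpA : p ∉ A) :
    F f A * lamp f D p A = (-1 : ℝ) ^ A.card * ∑ E ∈ D with A ⊆ E.erase p,
      K f E / G f D * (if p ∈ E then 1 - 1 / f p else 1) := by
  have h1 : F f A * lam f D (insert p A) = - ((-1 : ℝ) ^ A.card *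
      ∑ E ∈ D with insert p A ⊆ E, K f E / G f D * (1 / f p)) := by
    have h2 := lam_eq hf D (insert p A)
    have h3 : F f (insert p A) = f p * F f A := Finset.prod_insert hpA
    rw [h3, Finset.card_insert_of_notMem hpA, pow_succ] at h2
    have hfp := (hf p).ne'
    rw [← Finset.sum_mul]
    field_simp
    linear_combination h2
  unfold lamp
  rw [mul_add, lam_eq hf, h1, ← sub_eq_add_neg, ← mul_sub]
  congr 1
  have h4 : D.filter (fun E => A ⊆ E.erase p) = D.filter (fun E => A ⊆ E) := by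
    refine Finset.filter_congr (fun E _ => ?_)
    exact ⟨fun h => h.trans (Finset.erase_subset p E),
      fun h x hx => Finset.mem_erase.2 ⟨fun hxp => hpA (hxp ▸ hx), h hx⟩⟩
  have h5 : D.filter (fun E => insert p A ⊆ E) =
      (D.filter (fun E => A ⊆ E)).filter (fun E => p ∈ E) := by
    rw [Finset.filter_filter]
    refine Finset.filter_congr (fun E _ => ?_)
    rw [Finset.insert_subset_iff]
    exact and_comm
  rw [h4, h5, Finset.sum_filter (s := D.filter (fun E => A ⊆ E)), ← Finset.sum_sub_distrib]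
  refine Finset.sum_congr rfl (fun E _ => ?_)
  by_cases hp : p ∈ E
  · rw [if_pos hp, if_pos hp]
    ring
  · rw [if_neg hp, if_neg hp]
    ring

/-- the main term for the numbers divisible by `p` -/
theorem main2 {f : α → ℝ} (hf : ∀ p, 0 < f p) (hf1 : ∀ p, f p < 1) (D : Finset (Finset α))
    (hD : ∀ A ∈ D, ∀ C, C ⊆ A → C ∈ D) (p : α) :
    ∑ A ∈ D with p ∉ A, ∑ B ∈ D with p ∉ B, lamp f D p A * lamp f D p B * F f (A ∪ B) =
      (∑ C ∈ D with p ∉ C ∧ insert p C ∉ D, K f C) / G f D ^ 2 := by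
  have hD0 : ∀ A ∈ D.filter (fun A => p ∉ A), ∀ C, C ⊆ A → C ∈ D.filter (fun A => p ∉ A) := by
    intro A hA C hC
    obtain ⟨h1, h2⟩ := Finset.mem_filter.1 hA
    exact Finset.mem_filter.2 ⟨hD A h1 C hC, fun h => h2 (hC h)⟩
  rw [quad hf D (D.filter (fun A => p ∉ A)) hD0 (fun E => E.erase p)
    (fun E hE => Finset.mem_filter.2 ⟨hD E hE _ (Finset.erase_subset p E),
      Finset.notMem_erase p E⟩)
    (fun E => K f E / G f D * (if p ∈ E then 1 - 1 / f p else 1)) (lamp f D p)
    (fun A hA => lamp_eq hf D p A (Finset.mem_filter.1 hA).2)]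
  have h1 : ∀ C ∈ D.filter (fun A => p ∉ A), H f C * (∑ E ∈ D with E.erase p = C,
      K f E / G f D * (if p ∈ E then 1 - 1 / f p else 1)) ^ 2 =
      if insert p C ∉ D then K f C / G f D ^ 2 else 0 := by
    intro C hC
    obtain ⟨hC1, hC2⟩ := Finset.mem_filter.1 hC
    by_cases hpC : insert p C ∈ D
    · rw [if_neg (not_not.2 hpC)]
      have h2 : D.filter (fun E => E.erase p = C) = {C, insert p C} := by
        ext E
        rw [Finset.mem_filter, Finset.mem_insert, Finset.mem_singleton]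
        constructor
        · rintro ⟨-, h⟩
          by_cases hpE : p ∈ E
          · right
            rw [← h, Finset.insert_erase hpE]
          · left
            rw [← h, Finset.erase_eq_of_notMem hpE]
        · rintro (h | h)
          · rw [h]
            exact ⟨hC1, Finset.erase_eq_of_notMem hC2⟩
          · rw [h]
            exact ⟨hpC, Finset.erase_insert hC2⟩
      have hne : C ≠ insert p C := fun h => hC2 (h ▸ Finset.mem_insert_self p C)
      rw [h2, Finset.sum_pair hne, if_neg hC2, if_pos (Finset.mem_insert_self p C)]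
      have h3 : K f (insert p C) = (1 / f p - 1)⁻¹ * K f C := Finset.prod_insert hC2
      have h4 := (h_pos hf hf1 p).ne'
      have h5 : K f C / G f D * 1 + K f (insert p C) / G f D * (1 - 1 / f p) = 0 := by
        rw [h3]
        have h6 : (1 - 1 / f p) = -(1 / f p - 1) := by ring
        rw [h6]
        have h7 : (1 / f p - 1)⁻¹ * (1 / f p - 1) = 1 := inv_mul_cancel₀ h4
        linear_combination (-(K f C / G f D)) * h7
      rw [h5]
      ring
    · rw [if_pos hpC]
      have h2 : D.filter (fun E => E.erase p = C) = {C} := by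
        ext E
        rw [Finset.mem_filter, Finset.mem_singleton]
        constructor
        · rintro ⟨hE, h⟩
          by_cases hpE : p ∈ E
          · exfalso
            apply hpC
            rw [← h, Finset.insert_erase hpE]
            exact hE
          · rw [← h, Finset.erase_eq_of_notMem hpE]
        · intro h
          rw [h]
          exact ⟨hC1, Finset.erase_eq_of_notMem hC2⟩
      rw [h2, Finset.sum_singleton, if_neg hC2, mul_one, div_pow, ← mul_div_assoc, sq,
        ← mul_assoc, H_mul_K hf hf1, one_mul]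
  rw [Finset.sum_congr rfl h1, ← Finset.sum_filter, Finset.filter_filter, Finset.sum_div]

end Pool.Agent.helper59.Sel
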