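import Pool.Agent.helper59.TP.SelAlg

/-!
# Counting the `s ≤ S` for which given primes divide the product of the `a + M s`
-/

set_option autoImplicit false

namespace Pool.Agent.helper59.Sel

open Finset

theorem count_base (m c S : ℕ) (hm : 0 < m) :
    |(((Icc 1 S).filter (fun s => s ≡ c [MOD m])).card : ℝ) - (S : ℝ) / m| ≤ 1 := by
  have h0 : Icc 1 S = Ioc 0 S := by
    ext x
    rw [Finset.mem_Icc, Finset.mem_Ioc]
    omega
  have h1 := Nat.Ioc_filter_modEq_card 0 S hm c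
  rw [← h0] at h1
  set N := ((Icc 1 S).filter (fun s => s ≡ c [MOD m])).card with hN
  have hm' : (0 : ℝ) < m := by exact_mod_cast hm
  have hmq : (0 : ℚ) < m := by exact_mod_cast hm
  set u : ℚ := ((S : ℚ) - c) / m with hu
  set v : ℚ := (((0 : ℕ) : ℚ) - c) / m with hv
  have huv : v ≤ u := by
    rw [hu, hv]
    apply div_le_div_of_nonneg_right _ hmq.le
    have : (0 : ℚ) ≤ S := Nat.cast_nonneg S
    push_cast
    linarith
  have h2 : ⌊v⌋ ≤ ⌊u⌋ := Int.floor_le_floor huv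
  rw [max_eq_left (by omega)] at h1
  have h3 := Int.floor_le u
  have h4 := Int.lt_floor_add_one u
  have h5 := Int.floor_le v
  have h6 := Int.lt_floor_add_one v
  have h7 : u - v = (S : ℚ) / m := by
    rw [hu, hv]
    push_cast
    ring
  have h8 : (N : ℚ) = (⌊u⌋ : ℚ) - ⌊v⌋ := by
    have : ((N : ℤ) : ℚ) = ((⌊u⌋ - ⌊v⌋ : ℤ) : ℚ) := by rw [h1]
    push_cast at this
    exact this
  have h9 : |(N : ℚ) - (S : ℚ) / m| ≤ 1 := by
    rw [abs_le]
    constructor <;> linarith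
  have h10 : ((|(N : ℚ) - (S : ℚ) / m| : ℚ) : ℝ) ≤ ((1 : ℚ) : ℝ) := by exact_mod_cast h9
  push_cast at h10
  exact h10

theorem exists_root (p M a : ℕ) (hp : p.Prime) (hM : ¬ p ∣ M) :
    ∃ r : ℕ, ∀ s : ℕ, p ∣ a + M * s ↔ s ≡ r [MOD p] := by
  have : Fact p.Prime := ⟨hp⟩
  have hM0 : (M : ZMod p) ≠ 0 := by
    intro h
    exact hM ((ZMod.natCast_eq_zero_iff M p).1 h)
  refine ⟨(-(a : ZMod p) / M).val, fun s => ?_⟩
  rw [← ZMod.natCast_eq_zero_iff, ← ZMod.natCast_eq_natCast_iff]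
  push_cast
  rw [ZMod.natCast_val, ZMod.cast_id', id]
  constructor
  · intro h
    rw [eq_div_iff hM0]
    linear_combination h
  · intro h
    rw [h, mul_div_cancel₀ _ hM0]
    ring

theorem count_gen (n M S : ℕ) (A : Finset ℕ) :
    (∀ p ∈ A, p.Prime ∧ n < p ∧ ¬ p ∣ M) → ∀ m c : ℕ, 0 < m → (∀ p ∈ A, Nat.Coprime m p) →
    |(((Icc 1 S).filter (fun s => s ≡ c [MOD m] ∧ ∀ p ∈ A, ∃ a ∈ Icc 1 n, p ∣ a + M * s)).card : ℝ)
      - (S : ℝ) / m * ∏ p ∈ A, ((n : ℝ) / p)| ≤ (n : ℝ) ^ A.card := by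
  induction A using Finset.induction_on with
  | empty =>
    intro _ m c hm _
    have h := count_base m c S hm
    simpa using h
  | insert p A hpA ih =>
    intro hA m c hm hco
    obtain ⟨hp, hnp, hpM⟩ := hA p (Finset.mem_insert_self p A)
    have hA' : ∀ q ∈ A, q.Prime ∧ n < q ∧ ¬ q ∣ M :=
      fun q hq => hA q (Finset.mem_insert_of_mem hq)
    have hmp : Nat.Coprime m p := hco p (Finset.mem_insert_self p A)
    have hroot := fun a : ℕ => exists_root p M a hp hpM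
    choose r hr using hroot
    set c' : ℕ → ℕ := fun a => (Nat.chineseRemainder hmp c (r a) : ℕ) with hc'
    have hc'1 : ∀ a, c' a ≡ c [MOD m] := fun a => (Nat.chineseRemainder hmp c (r a)).2.1
    have hc'2 : ∀ a, c' a ≡ r a [MOD p] := fun a => (Nat.chineseRemainder hmp c (r a)).2.2
    have hset : (Icc 1 S).filter (fun s => s ≡ c [MOD m] ∧
        ∀ q ∈ insert p A, ∃ a ∈ Icc 1 n, q ∣ a + M * s) =
        (Icc 1 n).biUnion (fun a => (Icc 1 S).filter (fun s => s ≡ c' a [MOD (m * p)] ∧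
          ∀ q ∈ A, ∃ a ∈ Icc 1 n, q ∣ a + M * s)) := by
      ext s
      simp only [Finset.mem_filter, Finset.mem_biUnion, Finset.mem_insert, forall_eq_or_imp]
      constructor
      · rintro ⟨hs, hsc, ⟨a, ha, hpa⟩, hall⟩
        refine ⟨a, ha, hs, ?_, hall⟩
        rw [← Nat.modEq_and_modEq_iff_modEq_mul hmp]
        exact ⟨hsc.trans (hc'1 a).symm, ((hr a s).1 hpa).trans (hc'2 a).symm⟩
      · rintro ⟨a, ha, hs, hsc, hall⟩
        rw [← Nat.modEq_and_modEq_iff_modEq_mul hmp] at hsc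
        exact ⟨hs, hsc.1.trans (hc'1 a), ⟨a, ha, (hr a s).2 (hsc.2.trans (hc'2 a))⟩, hall⟩
    have hdisj : ∀ a ∈ Icc 1 n, ∀ b ∈ Icc 1 n, a ≠ b →
        Disjoint ((Icc 1 S).filter (fun s => s ≡ c' a [MOD (m * p)] ∧
          ∀ q ∈ A, ∃ a ∈ Icc 1 n, q ∣ a + M * s))
        ((Icc 1 S).filter (fun s => s ≡ c' b [MOD (m * p)] ∧
          ∀ q ∈ A, ∃ a ∈ Icc 1 n, q ∣ a + M * s)) := by
      intro a ha b hb hab
      rw [Finset.disjoint_left]
      intro s hs1 hs2
      have e1 := (Finset.mem_filter.1 hs1).2.1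
      have e2 := (Finset.mem_filter.1 hs2).2.1
      rw [← Nat.modEq_and_modEq_iff_modEq_mul hmp] at e1 e2
      have d1 := (hr a s).2 (e1.2.trans (hc'2 a))
      have d2 := (hr b s).2 (e2.2.trans (hc'2 b))
      obtain ⟨ha1, ha2⟩ := Finset.mem_Icc.1 ha
      obtain ⟨hb1, hb2⟩ := Finset.mem_Icc.1 hb
      rcases Nat.lt_or_gt_of_ne hab with h | h
      · have d3 := Nat.dvd_sub d2 d1
        have d4 : b + M * s - (a + M * s) = b - a := by omega
        rw [d4] at d3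
        have := Nat.le_of_dvd (by omega) d3
        omega
      · have d3 := Nat.dvd_sub d1 d2
        have d4 : a + M * s - (b + M * s) = a - b := by omega
        rw [d4] at d3
        have := Nat.le_of_dvd (by omega) d3
        omega
    rw [hset, Finset.card_biUnion hdisj]
    have hco' : ∀ q ∈ A, Nat.Coprime (m * p) q := by
      intro q hq
      refine Nat.Coprime.mul_left (hco q (Finset.mem_insert_of_mem hq)) ?_
      rw [Nat.coprime_primes hp (hA' q hq).1]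
      rintro rfl
      exact hpA hq
    have hmain := fun a : ℕ => ih hA' (m * p) (c' a) (Nat.mul_pos hm hp.pos) hco'
    have hp0 : (p : ℝ) ≠ 0 := by
      have := hp.pos
      positivity
    have hm0 : (m : ℝ) ≠ 0 := by positivity
    rw [Finset.prod_insert hpA, Finset.card_insert_of_notMem hpA]
    have e : (S : ℝ) / m * ((n : ℝ) / p * ∏ q ∈ A, ((n : ℝ) / q)) =
        ∑ _a ∈ Icc 1 n, (S : ℝ) / ((m * p : ℕ) : ℝ) * ∏ q ∈ A, ((n : ℝ) / q) := by
      rw [Finset.sum_const, Nat.card_Icc, Nat.add_sub_cancel, nsmul_eq_mul]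
      push_cast
      field_simp
    rw [e, Nat.cast_sum, ← Finset.sum_sub_distrib]
    refine (Finset.abs_sum_le_sum_abs _ _).trans ?_
    refine (Finset.sum_le_sum (fun a _ => hmain a)).trans ?_
    rw [Finset.sum_const, Nat.card_Icc, nsmul_eq_mul, Nat.add_sub_cancel, pow_succ, mul_comm]

/-- the counting lemma -/
theorem count_prod (n M S : ℕ) (A : Finset ℕ) (hA : ∀ p ∈ A, p.Prime ∧ n < p ∧ ¬ p ∣ M) :
    |(((Icc 1 S).filter (fun s => ∀ p ∈ A, ∃ a ∈ Icc 1 n, p ∣ a + M * s)).card : ℝ)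
      - (S : ℝ) * ∏ p ∈ A, ((n : ℝ) / p)| ≤ (n : ℝ) ^ A.card := by
  have h := count_gen n M S A hA 1 0 one_pos (fun p _ => Nat.coprime_one_left p)
  have e : (Icc 1 S).filter (fun s => s ≡ 0 [MOD 1] ∧ ∀ p ∈ A, ∃ a ∈ Icc 1 n, p ∣ a + M * s) =
      (Icc 1 S).filter (fun s => ∀ p ∈ A, ∃ a ∈ Icc 1 n, p ∣ a + M * s) := by
    refine Finset.filter_congr (fun s _ => ?_)
    exact ⟨fun h => h.2, fun h => ⟨Nat.modEq_one, h⟩⟩
  rw [e] at h
  simpa using h

end Pool.Agent.helper59.Sel
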