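import Pool.Agent.helper59.TP.SelSum

/-!
# The choice of the level
-/

set_option autoImplicit false

namespace Pool.Agent.helper59.Sel

open Finset

/-- few primes between `2 ^ k` and `2 ^ (k + 1)` -/
theorem card_block (k : ℕ) (A : Finset ℕ) (hA : ∀ p ∈ A, p.Prime ∧ Nat.log 2 p = k) :
    k * A.card ≤ 4 * 2 ^ k := by
  have h1 : (2 ^ k) ^ A.card ≤ ∏ p ∈ A, p := by
    refine Finset.pow_card_le_prod A (fun p => p) (2 ^ k) (fun p hp => ?_)
    obtain ⟨hpp, hpk⟩ := hA p hp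
    rw [← hpk]
    exact Nat.pow_log_le_self 2 hpp.ne_zero
  have h2 : ∏ p ∈ A, p ≤ primorial (2 ^ (k + 1)) := by
    unfold primorial
    refine Finset.prod_le_prod_of_subset_of_one_le' (fun p hp => ?_) (fun p hp _ => ?_)
    · obtain ⟨hpp, hpk⟩ := hA p hp
      have h3 : p < 2 ^ (k + 1) := by
        rw [← hpk]
        exact Nat.lt_pow_succ_log_self (by norm_num) p
      exact Finset.mem_filter.2 ⟨Finset.mem_range.2 (by omega), hpp⟩
    · exact (Finset.mem_filter.1 hp).2.one_lt.le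
  have h3 : (2 : ℕ) ^ (k * A.card) ≤ 2 ^ (4 * 2 ^ k) := by
    calc (2 : ℕ) ^ (k * A.card) = (2 ^ k) ^ A.card := by rw [pow_mul]
      _ ≤ 4 ^ (2 ^ (k + 1)) := h1.trans (h2.trans (primorial_le_four_pow _))
      _ = 2 ^ (4 * 2 ^ k) := by
        rw [show (4 : ℕ) = 2 ^ 2 by norm_num, ← pow_mul]
        congr 1
        ring
  exact (Nat.pow_le_pow_iff_right (by norm_num)).1 h3

theorem sum_block (k : ℕ) (hk : 1 ≤ k) (A : Finset ℕ)
    (hA : ∀ p ∈ A, p.Prime ∧ Nat.log 2 p = k) : ∑ p ∈ A, (1 / (p : ℝ)) ≤ 4 / k := by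
  have hk0 : (0 : ℝ) < k := by exact_mod_cast hk
  have h1 : ∀ p ∈ A, (1 / (p : ℝ)) ≤ 1 / 2 ^ k := by
    intro p hp
    obtain ⟨hpp, hpk⟩ := hA p hp
    apply one_div_le_one_div_of_le (by positivity)
    have := Nat.pow_log_le_self 2 hpp.ne_zero
    rw [hpk] at this
    exact_mod_cast this
  have h2 := Finset.sum_le_card_nsmul A _ _ h1
  refine h2.trans ?_
  rw [nsmul_eq_mul, mul_one_div, div_le_div_iff₀ (by positivity) hk0]
  have h3 : ((k * A.card : ℕ) : ℝ) ≤ ((4 * 2 ^ k : ℕ) : ℝ) := by exact_mod_cast card_block k A hA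
  push_cast at h3
  linarith

theorem sum_block2 (j : ℕ) (A : Finset ℕ)
    (hA : ∀ p ∈ A, p.Prime ∧ Nat.log 2 (Nat.log 2 p) = j) : ∑ p ∈ A, (1 / (p : ℝ)) ≤ 4 := by
  have hmaps : ∀ p ∈ A, Nat.log 2 p ∈ Ico (2 ^ j) (2 ^ (j + 1)) := by
    intro p hp
    obtain ⟨hpp, hpj⟩ := hA p hp
    have h1 : Nat.log 2 p ≠ 0 := by
      have := Nat.log_pos (b := 2) (by norm_num) hpp.two_le
      omega
    rw [Finset.mem_Ico, ← hpj]
    exact ⟨Nat.pow_log_le_self 2 h1, Nat.lt_pow_succ_log_self (by norm_num) _⟩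
  rw [← Finset.sum_fiberwise_of_maps_to hmaps]
  have h1 : ∀ k ∈ Ico (2 ^ j) (2 ^ (j + 1)),
      ∑ p ∈ A with Nat.log 2 p = k, (1 / (p : ℝ)) ≤ 4 / 2 ^ j := by
    intro k hk
    obtain ⟨hk1, hk2⟩ := Finset.mem_Ico.1 hk
    have hk0 : 1 ≤ k := le_trans Nat.one_le_two_pow hk1
    refine (sum_block k hk0 _ (fun p hp => ?_)).trans ?_
    · obtain ⟨h1, h2⟩ := Finset.mem_filter.1 hp
      exact ⟨(hA p h1).1, h2⟩
    · apply div_le_div_of_nonneg_left (by norm_num) (by positivity)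
      exact_mod_cast hk1
  refine (Finset.sum_le_card_nsmul _ _ _ h1).trans ?_
  rw [Nat.card_Ico, nsmul_eq_mul]
  have h2 : 2 ^ (j + 1) - 2 ^ j = 2 ^ j := by rw [pow_succ]; omega
  rw [h2]
  push_cast
  have h3 : (0 : ℝ) < 2 ^ j := by positivity
  rw [mul_div_cancel₀ _ h3.ne']

theorem P_mono {Y R R' : ℕ} (h : R ≤ R') : P Y R ⊆ P Y R' := by
  intro p hp
  obtain ⟨⟨h1, h2⟩, h3⟩ := mem_P.1 hp
  exact mem_P.2 ⟨⟨h1, h2.trans h⟩, h3⟩

theorem DD_mono {Y R R' : ℕ} (h : R ≤ R') : DD Y R ⊆ DD Y R' := by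
  intro A hA
  obtain ⟨h1, h2⟩ := mem_DD.1 hA
  exact mem_DD.2 ⟨h1.trans (P_mono h), h2.trans h⟩

theorem G_mono {n Y R R' : ℕ} (hn : 1 ≤ n) (h : R ≤ R') :
    G (f n) (DD Y R) ≤ G (f n) (DD Y R') :=
  Finset.sum_le_sum_of_subset_of_nonneg (DD_mono h)
    (fun E _ _ => (K_pos (f_pos hn) f_lt E).le)

theorem one_le_G {n Y R : ℕ} (hn : 1 ≤ n) (hR : 1 ≤ R) : 1 ≤ G (f n) (DD Y R) := by
  have h1 : K (f n) ∅ = 1 := Finset.prod_empty
  rw [← h1]
  exact Finset.single_le_sum (f := fun E => K (f n) E)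
    (fun E _ => (K_pos (f_pos hn) f_lt E).le) (empty_mem_DD hR)

theorem kappa_le {n Y R p : ℕ} (hn : 1 ≤ n) (hY : 2 * n ≤ Y) (hp : p ∈ P Y R) :
    (1 / f n p - 1)⁻¹ ≤ 2 * n * (1 / (p : ℝ)) := by
  have hpY := (mem_P.1 hp).1.1
  have h1 : ((2 * n : ℕ) : ℝ) ≤ p := by exact_mod_cast (by omega : 2 * n ≤ p)
  push_cast at h1
  have hn0 : (1 : ℝ) ≤ n := by exact_mod_cast hn
  have hp0 : (0 : ℝ) < p := by linarith
  rw [f_eq (by omega : 2 * n < p), one_div_div]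
  have h2 : (p : ℝ) / n - 1 = (p - n) / n := by
    field_simp
  rw [h2, inv_div, mul_one_div, div_le_div_iff₀ (by linarith) hp0]
  nlinarith

theorem sum_P (Y j : ℕ) : ∑ p ∈ P Y (2 ^ (2 ^ j)), (1 / (p : ℝ)) ≤ 4 * (j + 1) := by
  have hmaps : ∀ p ∈ P Y (2 ^ (2 ^ j)), Nat.log 2 (Nat.log 2 p) ∈ range (j + 1) := by
    intro p hp
    have h1 := (mem_P.1 hp).1.2
    have h2 : Nat.log 2 p ≤ 2 ^ j := by
      calc Nat.log 2 p ≤ Nat.log 2 (2 ^ (2 ^ j)) := Nat.log_mono_right h1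
        _ = 2 ^ j := Nat.log_pow (by norm_num) _
    have h3 : Nat.log 2 (Nat.log 2 p) ≤ j := by
      calc Nat.log 2 (Nat.log 2 p) ≤ Nat.log 2 (2 ^ j) := Nat.log_mono_right h2
        _ = j := Nat.log_pow (by norm_num) _
    exact Finset.mem_range.2 (by omega)
  rw [← Finset.sum_fiberwise_of_maps_to hmaps]
  have h1 : ∀ i ∈ range (j + 1),
      ∑ p ∈ P Y (2 ^ (2 ^ j)) with Nat.log 2 (Nat.log 2 p) = i, (1 / (p : ℝ)) ≤ 4 := by
    intro i _
    refine sum_block2 i _ (fun p hp => ?_)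
    obtain ⟨h1, h2⟩ := Finset.mem_filter.1 hp
    exact ⟨(mem_P.1 h1).2, h2⟩
  refine (Finset.sum_le_card_nsmul _ _ _ h1).trans ?_
  rw [Finset.card_range, nsmul_eq_mul]
  push_cast
  linarith

theorem G_upper {n Y : ℕ} (hn : 1 ≤ n) (hY : 2 * n ≤ Y) (j : ℕ) :
    G (f n) (DD Y (2 ^ (2 ^ j))) ≤ Real.exp (8 * n * (j + 1)) := by
  have h1 : G (f n) (DD Y (2 ^ (2 ^ j))) ≤
      ∏ p ∈ P Y (2 ^ (2 ^ j)), (1 + (1 / f n p - 1)⁻¹) := by
    rw [Finset.prod_one_add]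
    unfold G K
    refine Finset.sum_le_sum_of_subset_of_nonneg (fun A hA => ?_)
      (fun E _ _ => (K_pos (f_pos hn) f_lt E).le)
    exact Finset.mem_powerset.2 (mem_DD.1 hA).1
  refine h1.trans ?_
  have h2 : ∏ p ∈ P Y (2 ^ (2 ^ j)), (1 + (1 / f n p - 1)⁻¹) ≤
      ∏ p ∈ P Y (2 ^ (2 ^ j)), Real.exp (2 * n * (1 / (p : ℝ))) := by
    refine Finset.prod_le_prod (fun p _ => ?_) (fun p hp => ?_)
    · have := h_pos (f_pos hn) f_lt (f := f n) p
      positivity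
    · have h3 := kappa_le hn hY hp
      have h4 := Real.add_one_le_exp (2 * n * (1 / (p : ℝ)))
      linarith
  refine h2.trans ?_
  rw [← Real.exp_sum, ← Finset.mul_sum]
  apply Real.exp_le_exp.2
  have h5 := sum_P Y j
  have hn0 : (0 : ℝ) ≤ n := Nat.cast_nonneg n
  nlinarith

/-- infinitely many doubling scales -/
theorem pigeon {n Y : ℕ} (hn : 1 ≤ n) (hY : 2 * n ≤ Y) (j0 : ℕ) :
    ∃ j, j0 ≤ j ∧ G (f n) (DD Y (2 ^ (2 ^ (j + 1)))) ≤
      2 * Real.exp (8 * n) * G (f n) (DD Y (2 ^ (2 ^ j))) := by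
  by_contra hcon
  push Not at hcon
  have h1 : ∀ i : ℕ, (2 * Real.exp (8 * n)) ^ i ≤ G (f n) (DD Y (2 ^ (2 ^ (j0 + i)))) := by
    intro i
    induction i with
    | zero =>
      rw [pow_zero]
      exact one_le_G hn Nat.one_le_two_pow
    | succ i ih =>
      have h2 := hcon (j0 + i) (by omega)
      rw [pow_succ, mul_comm]
      have h3 : 0 < 2 * Real.exp (8 * n) := by positivity
      exact (mul_le_mul_of_nonneg_left ih h3.le).trans h2.le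
  have h2 : ∀ i : ℕ, (2 : ℝ) ^ i ≤ Real.exp (8 * n * (j0 + 1)) := by
    intro i
    have h3 := (h1 i).trans (G_upper hn hY (j0 + i))
    rw [mul_pow, ← Real.exp_nat_mul] at h3
    have h4 : Real.exp (8 * n * (((j0 + i : ℕ) : ℝ) + 1)) =
        Real.exp (8 * n * (j0 + 1)) * Real.exp (i * (8 * n)) := by
      rw [← Real.exp_add]
      congr 1
      push_cast
      ring
    rw [h4] at h3
    exact le_of_mul_le_mul_right h3 (Real.exp_pos _)
  obtain ⟨i, hi⟩ := pow_unbounded_of_one_lt (Real.exp (8 * n * (j0 + 1))) (one_lt_two)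
  exact absurd (h2 i) (not_le.2 hi)

theorem card_scale (X p q : ℕ) (hq : 1 ≤ q) :
    ((Ico X (2 * X)).filter (fun x => q ≤ 2 ^ x ∧ 2 ^ x < p * q)).card ≤ Nat.log 2 p + 1 := by
  rcases ((Ico X (2 * X)).filter (fun x => q ≤ 2 ^ x ∧ 2 ^ x < p * q)).eq_empty_or_nonempty
    with h0 | hne
  · rw [h0]
    simp
  · set x0 := ((Ico X (2 * X)).filter (fun x => q ≤ 2 ^ x ∧ 2 ^ x < p * q)).min' hne with hx0
    have hmem := Finset.min'_mem _ hne
    rw [← hx0] at hmem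
    have h1 := (Finset.mem_filter.1 hmem).2.1
    have hsub : (Ico X (2 * X)).filter (fun x => q ≤ 2 ^ x ∧ 2 ^ x < p * q) ⊆
        Icc x0 (x0 + Nat.log 2 p) := by
      intro x hx
      have h2 := Finset.min'_le _ x hx
      rw [← hx0] at h2
      have h3 := (Finset.mem_filter.1 hx).2.2
      rw [Finset.mem_Icc]
      refine ⟨h2, ?_⟩
      obtain ⟨d, rfl⟩ := Nat.exists_eq_add_of_le h2
      have h4 : 2 ^ d * 2 ^ x0 < p * 2 ^ x0 := by
        calc 2 ^ d * 2 ^ x0 = 2 ^ (x0 + d) := by rw [pow_add]; ring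
          _ < p * q := h3
          _ ≤ p * 2 ^ x0 := Nat.mul_le_mul_left _ h1
      have h5 : 2 ^ d < p := lt_of_mul_lt_mul_right h4 (Nat.zero_le _)
      have h6 : d ≤ Nat.log 2 p := Nat.le_log_of_pow_le (by norm_num) h5.le
      omega
    refine (Finset.card_le_card hsub).trans ?_
    rw [Nat.card_Icc]
    omega

theorem sum_log {n Y X : ℕ} (hY : 2 * n ≤ Y) :
    ∑ p ∈ P Y (2 ^ X), f n p * ((Nat.log 2 p : ℝ) + 1) ≤ 8 * n * X := by
  have hmaps : ∀ p ∈ P Y (2 ^ X), Nat.log 2 p ∈ Icc 1 X := by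
    intro p hp
    have h1 := (mem_P.1 hp).1.2
    have h2 : Nat.log 2 p ≤ X := by
      calc Nat.log 2 p ≤ Nat.log 2 (2 ^ X) := Nat.log_mono_right h1
        _ = X := Nat.log_pow (by norm_num) _
    have h3 := Nat.log_pos (b := 2) (by norm_num) (mem_P.1 hp).2.two_le
    exact Finset.mem_Icc.2 ⟨h3, h2⟩
  rw [← Finset.sum_fiberwise_of_maps_to hmaps]
  have h1 : ∀ k ∈ Icc 1 X,
      ∑ p ∈ P Y (2 ^ X) with Nat.log 2 p = k, f n p * ((Nat.log 2 p : ℝ) + 1) ≤ 8 * n := by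
    intro k hk
    obtain ⟨hk1, hk2⟩ := Finset.mem_Icc.1 hk
    have hk0 : (1 : ℝ) ≤ k := by exact_mod_cast hk1
    have h2 : ∑ p ∈ P Y (2 ^ X) with Nat.log 2 p = k, f n p * ((Nat.log 2 p : ℝ) + 1) =
        (∑ p ∈ P Y (2 ^ X) with Nat.log 2 p = k, 1 / (p : ℝ)) * (n * ((k : ℝ) + 1)) := by
      rw [Finset.sum_mul]
      refine Finset.sum_congr rfl (fun p hp => ?_)
      obtain ⟨h3, h4⟩ := Finset.mem_filter.1 hp
      have h5 := (mem_P.1 h3).1.1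
      rw [f_eq (by omega : 2 * n < p), h4]
      ring
    have h3 := sum_block k hk1 ((P Y (2 ^ X)).filter (fun p => Nat.log 2 p = k)) (fun p hp => by
      obtain ⟨h3, h4⟩ := Finset.mem_filter.1 hp
      exact ⟨(mem_P.1 h3).2, h4⟩)
    rw [h2]
    have hn0 : (0 : ℝ) ≤ n := Nat.cast_nonneg n
    calc _ ≤ 4 / (k : ℝ) * (n * ((k : ℝ) + 1)) :=
          mul_le_mul_of_nonneg_right h3 (by positivity)
      _ ≤ 8 * n := by
          rw [div_mul_eq_mul_div, div_le_iff₀ (by linarith)]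
          nlinarith
  refine (Finset.sum_le_card_nsmul _ _ _ h1).trans ?_
  rw [Nat.card_Icc, nsmul_eq_mul, Nat.add_sub_cancel]
  linarith

/-- a good level `2 ^ x` -/
theorem exists_level {n Y : ℕ} (hn : 1 ≤ n) (hY : 2 * n ≤ Y) (X0 : ℕ) :
    ∃ X x, X0 ≤ X ∧ 1 ≤ X ∧ X ≤ x ∧ x ≤ 2 * X ∧
      ∑ p ∈ P Y (2 ^ x) with p ≤ 2 ^ X, f n p *
        ∑ C ∈ DD Y (2 ^ x) with p ∉ C ∧ insert p C ∉ DD Y (2 ^ x), K (f n) C ≤
        (8 * n * (2 * Real.exp (8 * n))) * G (f n) (DD Y (2 ^ x)) := by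
  obtain ⟨j, hj, hG⟩ := pigeon hn hY X0
  set X := 2 ^ j with hX
  have hXX : 2 ^ (j + 1) = 2 * X := by rw [hX, pow_succ]; ring
  rw [hXX] at hG
  have hX1 : 1 ≤ X := Nat.one_le_two_pow
  have hX0 : X0 ≤ X := hj.trans (Nat.lt_two_pow_self).le
  set K0 := 2 * Real.exp (8 * n) with hK0
  have hn0 : (0 : ℝ) ≤ n := Nat.cast_nonneg n
  have hK0pos : 0 < K0 := by positivity
  set T : ℕ → ℝ := fun x => ∑ p ∈ P Y (2 ^ x) with p ≤ 2 ^ X, f n p *
        ∑ C ∈ DD Y (2 ^ x) with p ∉ C ∧ insert p C ∉ DD Y (2 ^ x), K (f n) C with hT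
  have hTx : ∀ x ∈ Ico X (2 * X), T x ≤ ∑ p ∈ P Y (2 ^ X), f n p *
      ∑ C ∈ DD Y (2 ^ (2 * X)),
        (if (∏ q ∈ C, q) ≤ 2 ^ x ∧ 2 ^ x < p * ∏ q ∈ C, q then K (f n) C else 0) := by
    intro x hx
    obtain ⟨hx1, hx2⟩ := Finset.mem_Ico.1 hx
    have hsub : (P Y (2 ^ x)).filter (fun p => p ≤ 2 ^ X) ⊆ P Y (2 ^ X) := by
      intro p hp
      obtain ⟨h1, h2⟩ := Finset.mem_filter.1 hp
      exact mem_P.2 ⟨⟨(mem_P.1 h1).1.1, h2⟩, (mem_P.1 h1).2⟩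
    have hnn : ∀ p, 0 ≤ f n p * ∑ C ∈ DD Y (2 ^ (2 * X)),
        (if (∏ q ∈ C, q) ≤ 2 ^ x ∧ 2 ^ x < p * ∏ q ∈ C, q then K (f n) C else 0) := by
      intro p
      refine mul_nonneg (f_pos hn p).le (Finset.sum_nonneg (fun C _ => ?_))
      split_ifs
      · exact (K_pos (f_pos hn) f_lt C).le
      · exact le_refl _
    refine le_trans (Finset.sum_le_sum (fun p hp => ?_))
      (Finset.sum_le_sum_of_subset_of_nonneg hsub (fun p _ _ => hnn p))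
    refine mul_le_mul_of_nonneg_left ?_ (f_pos hn p).le
    rw [← Finset.sum_filter]
    refine Finset.sum_le_sum_of_subset_of_nonneg (fun C hC => ?_)
      (fun C _ _ => (K_pos (f_pos hn) f_lt C).le)
    obtain ⟨h1, h2, h3⟩ := Finset.mem_filter.1 hC
    have h4 : 2 ^ x ≤ 2 ^ (2 * X) := Nat.pow_le_pow_right (by norm_num) hx2.le
    refine Finset.mem_filter.2 ⟨DD_mono h4 h1, (mem_DD.1 h1).2, ?_⟩
    by_contra h5
    rw [not_lt] at h5
    apply h3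
    refine mem_DD.2 ⟨Finset.insert_subset (Finset.mem_filter.1 hp).1 (mem_DD.1 h1).1, ?_⟩
    rw [Finset.prod_insert h2]
    exact h5
  have hsum : ∑ x ∈ Ico X (2 * X), T x ≤ 8 * n * X * G (f n) (DD Y (2 ^ (2 * X))) := by
    refine (Finset.sum_le_sum hTx).trans ?_
    rw [Finset.sum_comm]
    have h1 : ∀ p ∈ P Y (2 ^ X), ∑ x ∈ Ico X (2 * X), f n p *
        ∑ C ∈ DD Y (2 ^ (2 * X)),
        (if (∏ q ∈ C, q) ≤ 2 ^ x ∧ 2 ^ x < p * ∏ q ∈ C, q then K (f n) C else 0) ≤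
        f n p * ((Nat.log 2 p : ℝ) + 1) * G (f n) (DD Y (2 ^ (2 * X))) := by
      intro p _
      rw [← Finset.mul_sum, mul_assoc]
      refine mul_le_mul_of_nonneg_left ?_ (f_pos hn p).le
      rw [Finset.sum_comm]
      unfold G
      rw [Finset.mul_sum]
      refine Finset.sum_le_sum (fun C hC => ?_)
      rw [← Finset.sum_filter, Finset.sum_const, nsmul_eq_mul]
      refine mul_le_mul_of_nonneg_right ?_ (K_pos (f_pos hn) f_lt C).le
      have h2 := card_scale X p (∏ q ∈ C, q) (prod_pos' (mem_DD.1 hC).1)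
      exact_mod_cast h2
    refine (Finset.sum_le_sum h1).trans ?_
    rw [← Finset.sum_mul]
    refine mul_le_mul_of_nonneg_right (sum_log hY) ?_
    exact (G_pos (f_pos hn) f_lt _ ⟨∅, empty_mem_DD Nat.one_le_two_pow⟩).le
  have hfin : ∑ x ∈ Ico X (2 * X), T x ≤
      ∑ x ∈ Ico X (2 * X), (8 * n * K0) * G (f n) (DD Y (2 ^ x)) := by
    refine hsum.trans ?_
    have h1 : ∑ _x ∈ Ico X (2 * X), (8 * n * K0) * G (f n) (DD Y (2 ^ X)) ≤
        ∑ x ∈ Ico X (2 * X), (8 * n * K0) * G (f n) (DD Y (2 ^ x)) := by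
      refine Finset.sum_le_sum (fun x hx => ?_)
      refine mul_le_mul_of_nonneg_left ?_ (by positivity)
      exact G_mono hn (Nat.pow_le_pow_right (by norm_num) (Finset.mem_Ico.1 hx).1)
    refine le_trans ?_ h1
    rw [Finset.sum_const, Nat.card_Ico, nsmul_eq_mul]
    have h2 : 2 * X - X = X := by omega
    rw [h2]
    calc 8 * n * X * G (f n) (DD Y (2 ^ (2 * X)))
        ≤ 8 * n * X * (K0 * G (f n) (DD Y (2 ^ X))) :=
          mul_le_mul_of_nonneg_left hG (by positivity)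
      _ = X * (8 * n * K0 * G (f n) (DD Y (2 ^ X))) := by ring
  obtain ⟨x, hx, hTx'⟩ := Finset.exists_le_of_sum_le (by
    rw [Finset.nonempty_Ico]; omega) hfin
  obtain ⟨hx1, hx2⟩ := Finset.mem_Ico.1 hx
  exact ⟨X, x, hX0, hX1, hx1, hx2.le, hTx'⟩

end Pool.Agent.helper59.Sel
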