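import Pool.Agent.helper59.TP.SelGrow
import Pool.Agent.helper59.TP.CoreP

/-!
# Arbitrarily thin sets of primes which repair the translation property
-/

set_option autoImplicit false

namespace Pool.Agent.helper59.Sel

open Finset Pool.Agent.helper59.TPP

theorem card_big (X N : ℕ) (hX : 1 ≤ X) (hN0 : N ≠ 0) (hN : N ≤ 2 ^ (25 * X)) :
    (N.primeFactors.filter (fun p => 2 ^ X < p)).card ≤ 25 := by
  set A := N.primeFactors.filter (fun p => 2 ^ X < p) with hA
  have h1 : (2 ^ X) ^ A.card ≤ ∏ p ∈ A, p :=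
    Finset.pow_card_le_prod A (fun p => p) (2 ^ X) (fun p hp => (Finset.mem_filter.1 hp).2.le)
  have h2 : ∏ p ∈ A, p ≤ ∏ p ∈ N.primeFactors, p :=
    Finset.prod_le_prod_of_subset_of_one_le' (Finset.filter_subset _ _)
      (fun p hp _ => (Nat.prime_of_mem_primeFactors hp).one_lt.le)
  have h3 : ∏ p ∈ N.primeFactors, p ≤ N :=
    Nat.le_of_dvd (Nat.pos_of_ne_zero hN0) (Nat.prod_primeFactors_dvd N)
  have h4 : 2 ^ (X * A.card) ≤ 2 ^ (25 * X) := by
    rw [pow_mul]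
    exact h1.trans (h2.trans (h3.trans hN))
  have h5 := (Nat.pow_le_pow_iff_right (by norm_num)).1 h4
  rw [mul_comm] at h5
  exact le_of_mul_le_mul_right h5 hX

theorem step2 (g : ℕ → ℝ) (hg : ∀ x, 0 < g x) (hmono : Monotone g)
    (hlim : ∀ c : ℝ, ∃ X, ∀ x, X ≤ x → c ≤ g x) (n : ℕ) (hn : 1 ≤ n) (Y0 : ℕ) (δ : ℝ)
    (hδ : 0 < δ) :
    ∃ Y t : ℕ, Y0 ≤ Y ∧ n ≤ Y ∧ 1 ≤ t ∧ (Nat.factorial Y) ^ (n + 1) ∣ t ∧
      ∀ x : ℕ, (((W Y n t).filter (fun p => p ≤ x)).card : ℝ) ≤ δ * g x := by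
  set c : ℝ := 8 * n * (2 * Real.exp (8 * n)) with hc
  have hc0 : 0 ≤ c := by positivity
  obtain ⟨X1, hX1⟩ := hlim (4 * (c + 1) / δ)
  obtain ⟨X2, hX2⟩ := hlim (50 * n / δ)
  set Y := max (max Y0 (2 * n)) X1 with hY
  have hYY0 : Y0 ≤ Y := (le_max_left _ _).trans (le_max_left _ _)
  have hYn : 2 * n ≤ Y := (le_max_right _ _).trans (le_max_left _ _)
  have hYX : X1 ≤ Y := le_max_right _ _
  set M : ℕ := (Nat.factorial Y) ^ (n + 1) with hM
  have hMpos : 0 < M := pow_pos (Nat.factorial_pos Y) _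
  have hpM : ∀ p, p.Prime → Y < p → ¬ p ∣ M := by
    intro p hp hYp hd
    have h1 := hp.dvd_of_dvd_pow hd
    rw [hp.dvd_factorial] at h1
    omega
  obtain ⟨X, x, hX0, hX, hXx, hx2, hT⟩ := exists_level hn hYn (max X2 (M + n + Y))
  have hXX2 : X2 ≤ X := (le_max_left _ _).trans hX0
  have hXM : M + n + Y ≤ X := (le_max_right _ _).trans hX0
  have hXlt : X < 2 ^ X := Nat.lt_two_pow_self
  have hXxp : 2 ^ X ≤ 2 ^ x := Nat.pow_le_pow_right (by norm_num) hXx
  have hR2 : 2 ≤ 2 ^ x := by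
    calc 2 = 2 ^ 1 := by norm_num
      _ ≤ 2 ^ x := Nat.pow_le_pow_right (by norm_num) (by omega)
  have hgY : 4 * (c + 1) / δ ≤ g Y := hX1 Y hYX
  obtain ⟨s, hs, hsum⟩ := exists_s hn hYn (by omega : Y ≤ 2 ^ x) hR2 hpM (fun p => 1 / g p)
    (1 / g Y) c (one_div_pos.2 (hg Y)) hc0
    (fun p hp => one_div_le_one_div_of_le (hg Y) (hmono hp.le)) hT
  obtain ⟨hs1, hs2⟩ := Finset.mem_Icc.1 hs
  have hη : 2 * (1 / g Y) * (c + 1) ≤ δ / 2 := by
    have h1 : 4 * (c + 1) ≤ g Y * δ := (div_le_iff₀ hδ).1 hgY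
    have h2 := hg Y
    rw [mul_one_div, div_mul_eq_mul_div, div_le_iff₀ h2]
    nlinarith
  have hsum' := hsum.trans hη
  refine ⟨Y, M * s, hYY0, by omega, Nat.mul_pos hMpos hs1, Dvd.intro s rfl, fun x' => ?_⟩
  set V := (W Y n (M * s)).filter (fun p => p ≤ x') with hV
  have hsplit : V = V.filter (fun p => p ≤ 2 ^ X) ∪ V.filter (fun p => ¬ p ≤ 2 ^ X) :=
    (Finset.filter_union_filter_not_eq _ _).symm
  have hcard : (V.card : ℝ) ≤
      (V.filter (fun p => p ≤ 2 ^ X)).card + (V.filter (fun p => ¬ p ≤ 2 ^ X)).card := by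
    have h1 : V.card ≤
        (V.filter (fun p => p ≤ 2 ^ X)).card + (V.filter (fun p => ¬ p ≤ 2 ^ X)).card := by
      conv_lhs => rw [hsplit]
      exact Finset.card_union_le _ _
    exact_mod_cast h1
  have hA1 : ((V.filter (fun p => p ≤ 2 ^ X)).card : ℝ) ≤ δ / 2 * g x' := by
    have h1 : ((V.filter (fun p => p ≤ 2 ^ X)).card : ℝ) * (1 / g x') ≤ δ / 2 := by
      calc ((V.filter (fun p => p ≤ 2 ^ X)).card : ℝ) * (1 / g x')
          = ∑ _p ∈ V.filter (fun p => p ≤ 2 ^ X), 1 / g x' := by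
            rw [Finset.sum_const, nsmul_eq_mul]
        _ ≤ ∑ p ∈ V.filter (fun p => p ≤ 2 ^ X), 1 / g p := by
            refine Finset.sum_le_sum (fun p hp => ?_)
            have h2 := (Finset.mem_filter.1 (Finset.mem_filter.1 hp).1).2
            exact one_div_le_one_div_of_le (hg p) (hmono h2)
        _ ≤ ∑ p ∈ ((P Y (2 ^ x)).filter (fun p => p ≤ 2 ^ X)) with p ∈ B n Y M (2 ^ x) s,
              1 / g p := by
            refine Finset.sum_le_sum_of_subset_of_nonneg (fun p hp => ?_)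
              (fun p _ _ => (one_div_pos.2 (hg p)).le)
            obtain ⟨h2, h3⟩ := Finset.mem_filter.1 hp
            obtain ⟨h4, h5⟩ := Finset.mem_filter.1 h2
            obtain ⟨h6, h7, h8⟩ := mem_W.1 h4
            have h9 : p ∈ P Y (2 ^ x) := mem_P.2 ⟨⟨h6.1, by omega⟩, h7⟩
            exact Finset.mem_filter.2 ⟨Finset.mem_filter.2 ⟨h9, h3⟩,
              Finset.mem_filter.2 ⟨h9, h8⟩⟩
        _ ≤ δ / 2 := hsum'
    rwa [mul_one_div, div_le_iff₀ (hg x')] at h1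
  have hA2 : ((V.filter (fun p => ¬ p ≤ 2 ^ X)).card : ℝ) ≤ δ / 2 * g x' := by
    rcases (V.filter (fun p => ¬ p ≤ 2 ^ X)).eq_empty_or_nonempty with h0 | ⟨q, hq⟩
    · rw [h0]
      have := hg x'
      simp
      positivity
    · have hqx : 2 ^ X < x' := by
        obtain ⟨h1, h2⟩ := Finset.mem_filter.1 hq
        have h3 := (Finset.mem_filter.1 h1).2
        omega
      have h1 : V.filter (fun p => ¬ p ≤ 2 ^ X) ⊆ (Icc 1 n).biUnion
          (fun a => (a + M * s).primeFactors.filter (fun p => 2 ^ X < p)) := by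
        intro p hp
        obtain ⟨h1, h2⟩ := Finset.mem_filter.1 hp
        obtain ⟨h3, h4⟩ := Finset.mem_filter.1 h1
        obtain ⟨h5, h6, a, ha, hpa⟩ := mem_W.1 h3
        refine Finset.mem_biUnion.2 ⟨a, ha, Finset.mem_filter.2 ⟨?_, by omega⟩⟩
        refine Nat.mem_primeFactors.2 ⟨h6, hpa, ?_⟩
        have := (Finset.mem_Icc.1 ha).1
        omega
      have h2 : (V.filter (fun p => ¬ p ≤ 2 ^ X)).card ≤ n * 25 := by
        refine (Finset.card_le_card h1).trans ?_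
        refine Finset.card_biUnion_le.trans ?_
        refine (Finset.sum_le_card_nsmul _ _ 25 (fun a ha => ?_)).trans ?_
        · obtain ⟨ha1, ha2⟩ := Finset.mem_Icc.1 ha
          refine card_big X (a + M * s) hX (by omega) ?_
          have e1 : M * s ≤ M * (2 ^ x) ^ 12 := Nat.mul_le_mul_left _ hs2
          have e2 : (2 ^ x) ^ 12 ≤ 2 ^ (24 * X) := by
            rw [← pow_mul]
            exact Nat.pow_le_pow_right (by norm_num) (by omega)
          have e3 : M * s ≤ M * 2 ^ (24 * X) := e1.trans (Nat.mul_le_mul_left _ e2)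
          have e4 : 1 ≤ 2 ^ (24 * X) := Nat.one_le_two_pow
          have e5 : a ≤ n * 2 ^ (24 * X) := ha2.trans (Nat.le_mul_of_pos_right n e4)
          calc a + M * s ≤ n * 2 ^ (24 * X) + M * 2 ^ (24 * X) := by omega
            _ = (n + M) * 2 ^ (24 * X) := by ring
            _ ≤ 2 ^ X * 2 ^ (24 * X) := Nat.mul_le_mul_right _ (by omega)
            _ = 2 ^ (25 * X) := by
              rw [← pow_add]
              congr 1
              ring
        · rw [Nat.card_Icc, Nat.add_sub_cancel, smul_eq_mul]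
      have h3 : ((V.filter (fun p => ¬ p ≤ 2 ^ X)).card : ℝ) ≤ n * 25 := by exact_mod_cast h2
      have h4 := hX2 x' (by omega)
      rw [div_le_iff₀ hδ] at h4
      linarith
  calc (V.card : ℝ) ≤ _ := hcard
    _ ≤ δ / 2 * g x' + δ / 2 * g x' := add_le_add hA1 hA2
    _ = δ * g x' := by ring

/-- one arbitrarily thin set of primes which contains all primes above `Y` dividing some
`a + t`, `1 ≤ a ≤ n` -/
theorem exists_thin2 (g : ℕ → ℝ) (hg : ∀ x, 0 < g x) (hmono : Monotone g)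
    (hlim : ∀ c : ℝ, ∃ X, ∀ x, X ≤ x → c ≤ g x) (Y0 : ℕ) :
    ∃ D : Set ℕ, (∀ p ∈ D, p.Prime ∧ Y0 < p) ∧ (∀ x : ℕ, ((D ∩ Set.Iic x).ncard : ℝ) ≤ g x) ∧
      ∀ n : ℕ, ∃ Y t : ℕ, n ≤ Y ∧ 1 ≤ t ∧ (Nat.factorial Y) ^ (n + 1) ∣ t ∧
        ∀ p : ℕ, p.Prime → Y < p → (∃ a, 1 ≤ a ∧ a ≤ n ∧ p ∣ a + t) → p ∈ D := by
  have h := fun n : ℕ => step2 g hg hmono hlim (n + 1) (by omega) (max Y0 n)
    ((1 / 2) ^ (n + 1)) (by positivity)
  choose Y t hY hYn ht hdvd hthin using h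
  refine ⟨{p | ∃ n, p ∈ W (Y n) (n + 1) (t n)}, ?_, ?_, ?_⟩
  · rintro p ⟨n, hp⟩
    obtain ⟨h1, h2, -⟩ := mem_W.1 hp
    have h3 := (le_max_left Y0 n).trans (hY n)
    exact ⟨h2, by omega⟩
  · intro x
    have hsub : ({p | ∃ n, p ∈ W (Y n) (n + 1) (t n)} ∩ Set.Iic x : Set ℕ) ⊆
        ((range (x + 1)).biUnion (fun n => (W (Y n) (n + 1) (t n)).filter (fun p => p ≤ x)) :
          Finset ℕ) := by
      rintro p ⟨⟨n, hp⟩, hpx⟩
      rw [Finset.mem_coe, Finset.mem_biUnion]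
      have h1 := (mem_W.1 hp).1.1
      have h2 := hYn n
      have h3 : p ≤ x := hpx
      exact ⟨n, Finset.mem_range.2 (by omega), Finset.mem_filter.2 ⟨hp, h3⟩⟩
    have h1 := Set.ncard_le_ncard hsub (Finset.finite_toSet _)
    rw [Set.ncard_coe_finset] at h1
    have h2 := h1.trans Finset.card_biUnion_le
    calc (({p | ∃ n, p ∈ W (Y n) (n + 1) (t n)} ∩ Set.Iic x : Set ℕ).ncard : ℝ)
        ≤ ((∑ n ∈ range (x + 1),
            ((W (Y n) (n + 1) (t n)).filter (fun p => p ≤ x)).card : ℕ) : ℝ) := by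
          exact_mod_cast h2
      _ = ∑ n ∈ range (x + 1), (((W (Y n) (n + 1) (t n)).filter (fun p => p ≤ x)).card : ℝ) := by
          push_cast; rfl
      _ ≤ ∑ n ∈ range (x + 1), (1 / 2 : ℝ) ^ (n + 1) * g x :=
          Finset.sum_le_sum (fun n _ => hthin n x)
      _ = (∑ n ∈ range (x + 1), (1 / 2 : ℝ) ^ (n + 1)) * g x := by rw [Finset.sum_mul]
      _ ≤ 1 * g x := by
          refine mul_le_mul_of_nonneg_right ?_ (hg x).le
          have e : ∑ n ∈ range (x + 1), (1 / 2 : ℝ) ^ (n + 1) = 1 - (1 / 2) ^ (x + 1) := by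
            induction x + 1 with
            | zero => simp
            | succ k ih =>
              rw [Finset.sum_range_succ, ih]
              ring
          rw [e]
          have : (0 : ℝ) < (1 / 2) ^ (x + 1) := by positivity
          linarith
      _ = g x := one_mul _
  · intro n
    refine ⟨Y n, t n, ?_, ht n, (pow_dvd_pow _ (by omega)).trans (hdvd n), ?_⟩
    · have := hYn n
      omega
    · rintro p hp hYp ⟨a, ha1, ha2, hpa⟩
      refine ⟨n, mem_W.2 ⟨⟨hYp, ?_⟩, hp, a, Finset.mem_Icc.2 ⟨ha1, by omega⟩, hpa⟩⟩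
      have h1 := Nat.le_of_dvd (by omega) hpa
      omega

end Pool.Agent.helper59.Sel
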