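import Pool.Agent.helper59.TP.SelMass
import Pool.Agent.helper59.TP.SelStep

/-!
# Many `s ≤ S` whose uncontrolled primes are large and boundedly many
-/

set_option autoImplicit false

namespace Pool.Agent.helper59.Sel

open Finset Pool.Agent.helper59.TPP

theorem size_le {n M x X s : ℕ} (hXM : M + n ≤ X) (hx2 : x ≤ 2 * X)
    (hs2 : s ≤ (2 ^ x) ^ 12) : n + M * s ≤ 2 ^ (25 * X) := by
  have hXlt : X < 2 ^ X := Nat.lt_two_pow_self
  have e1 : M * s ≤ M * (2 ^ x) ^ 12 := Nat.mul_le_mul_left _ hs2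
  have e2 : (2 ^ x) ^ 12 ≤ 2 ^ (24 * X) := by
    rw [← pow_mul]
    exact Nat.pow_le_pow_right (by norm_num) (by omega)
  have e3 : M * s ≤ M * 2 ^ (24 * X) := e1.trans (Nat.mul_le_mul_left _ e2)
  have e4 : 1 ≤ 2 ^ (24 * X) := Nat.one_le_two_pow
  have e5 : n ≤ n * 2 ^ (24 * X) := Nat.le_mul_of_pos_right n e4
  calc n + M * s ≤ n * 2 ^ (24 * X) + M * 2 ^ (24 * X) := by omega
    _ = (n + M) * 2 ^ (24 * X) := by ring
    _ ≤ 2 ^ X * 2 ^ (24 * X) := Nat.mul_le_mul_right _ (by omega)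
    _ = 2 ^ (25 * X) := by
      rw [← pow_add]
      congr 1
      ring

theorem good_struct {n Y M x X m N0 : ℕ} {c : ℝ} (hX : 1 ≤ X) (hXx : X ≤ x)
    (hx2 : x ≤ 2 * X) (hXM : M + n ≤ X) (hc : 2 * (c + 1) ≤ N0) (hm : N0 ≤ m)
    {s : ℕ} (hs2 : s ≤ (2 ^ x) ^ 12)
    (hU : UU (uu m X) n Y M (2 ^ x) (2 ^ X) s ≤ 2 * (c + 1)) :
    (∀ p ∈ W Y n (M * s), 2 ^ (X / m) < p ∧ p ≤ 2 ^ (25 * X)) ∧
      (W Y n (M * s)).card ≤ N0 + n * 25 := by
  have hXxp : 2 ^ X ≤ 2 ^ x := Nat.pow_le_pow_right (by norm_num) hXx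
  have hsz := size_le hXM hx2 hs2
  set V := (W Y n (M * s)).filter (fun p => p ≤ 2 ^ X) with hV
  have hVU : ∑ p ∈ V, uu m X p ≤ N0 := by
    refine le_trans ?_ (hU.trans hc)
    unfold UU
    refine Finset.sum_le_sum_of_subset_of_nonneg (fun p hp => ?_) (fun p _ _ => ?_)
    · obtain ⟨h1, h2⟩ := Finset.mem_filter.1 hp
      obtain ⟨h3, h4, h5⟩ := mem_W.1 h1
      have h9 : p ∈ P Y (2 ^ x) := mem_P.2 ⟨⟨h3.1, by omega⟩, h4⟩
      exact Finset.mem_filter.2 ⟨Finset.mem_filter.2 ⟨h9, h2⟩, Finset.mem_filter.2 ⟨h9, h5⟩⟩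
    · have := uu_one_le m X p
      linarith
  have hVcard : V.card ≤ N0 := by
    have h1 : (V.card : ℝ) ≤ ∑ p ∈ V, uu m X p := by
      calc (V.card : ℝ) = ∑ _p ∈ V, (1 : ℝ) := by rw [Finset.sum_const, nsmul_eq_mul, mul_one]
        _ ≤ _ := Finset.sum_le_sum (fun p _ => uu_one_le m X p)
    exact_mod_cast h1.trans hVU
  refine ⟨fun p hp => ⟨?_, ?_⟩, ?_⟩
  · by_contra hcon
    rw [not_lt] at hcon
    have hdiv : X / m ≤ X := Nat.div_le_self X m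
    have h1 : p ≤ 2 ^ X := hcon.trans (Nat.pow_le_pow_right (by norm_num) hdiv)
    have hpV : p ∈ V := Finset.mem_filter.2 ⟨hp, h1⟩
    have h2 : uu m X p ≤ ∑ p ∈ V, uu m X p :=
      Finset.single_le_sum (f := fun p => uu m X p) (fun q _ => by
        have := uu_one_le m X q
        linarith) hpV
    have h3 : uu m X p = 1 + m := by
      unfold uu
      rw [if_pos hcon]
    have h4 : (N0 : ℝ) ≤ m := by exact_mod_cast hm
    linarith
  · have h1 := (mem_W.1 hp).1.2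
    omega
  · have h2 : ((W Y n (M * s)).filter (fun p => ¬ p ≤ 2 ^ X)).card ≤ n * 25 := by
      have h1 : (W Y n (M * s)).filter (fun p => ¬ p ≤ 2 ^ X) ⊆ (Icc 1 n).biUnion
          (fun a => (a + M * s).primeFactors.filter (fun p => 2 ^ X < p)) := by
        intro p hp
        obtain ⟨h1, h2⟩ := Finset.mem_filter.1 hp
        obtain ⟨h5, h6, a, ha, hpa⟩ := mem_W.1 h1
        refine Finset.mem_biUnion.2 ⟨a, ha, Finset.mem_filter.2 ⟨?_, by omega⟩⟩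
        refine Nat.mem_primeFactors.2 ⟨h6, hpa, ?_⟩
        have := (Finset.mem_Icc.1 ha).1
        omega
      refine (Finset.card_le_card h1).trans ?_
      refine Finset.card_biUnion_le.trans ?_
      refine (Finset.sum_le_card_nsmul _ _ 25 (fun a ha => ?_)).trans ?_
      · obtain ⟨ha1, ha2⟩ := Finset.mem_Icc.1 ha
        exact card_big X (a + M * s) hX (by omega) (by omega)
      · rw [Nat.card_Icc, Nat.add_sub_cancel, smul_eq_mul]
    have h3 : (W Y n (M * s)).card = V.card +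
        ((W Y n (M * s)).filter (fun p => ¬ p ≤ 2 ^ X)).card :=
      (Finset.card_filter_add_card_filter_not _).symm
    omega

/-- many good `s` -/
theorem many_good (n : ℕ) (hn : 1 ≤ n) : ∃ m K : ℕ, 1 ≤ m ∧ 1 ≤ K ∧ ∀ l j0 : ℕ, 1 ≤ l →
    ∃ (Y M j x b : ℕ) (Gs : Finset ℕ), n ≤ Y ∧ 1 ≤ M ∧ (Nat.factorial Y) ^ (n + 1) ∣ M ∧
      (∀ p, p.Prime → Y < p → ¬ p ∣ M) ∧ j0 ≤ j ∧ 2 ^ j ≤ x ∧ x ≤ 2 * 2 ^ j ∧
      Gs ⊆ Icc 1 ((2 ^ x) ^ 12) ∧
      (∀ s ∈ Gs, (∀ p ∈ W Y n (M * s), 2 ^ (2 ^ j / m) < p ∧ p ≤ 2 ^ (25 * 2 ^ j)) ∧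
        (W Y n (M * s)).card ≤ K) ∧
      l * b ≤ n * (25 * 2 ^ j) ∧
      (((2 ^ x) ^ 12 : ℕ) : ℝ) ≤
        4 * ((4 : ℝ) ^ b * Real.exp (8 * n * (j + 2))) * (Gs.card : ℝ) := by
  set c : ℝ := 16 * n * (2 * Real.exp (8 * n)) with hc
  have hc0 : 0 ≤ c := by positivity
  set N0 : ℕ := ⌈2 * (c + 1)⌉₊ with hN0
  have hcN : 2 * (c + 1) ≤ N0 := Nat.le_ceil _
  refine ⟨N0 + 1, N0 + n * 25, by omega, by omega, fun l j0 hl => ?_⟩
  set Y := max (2 * n) (2 ^ l) with hY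
  have hYn : 2 * n ≤ Y := le_max_left _ _
  have hYl : 2 ^ l ≤ Y := le_max_right _ _
  set M : ℕ := (Nat.factorial Y) ^ (n + 1) with hM
  have hMpos : 0 < M := pow_pos (Nat.factorial_pos Y) _
  have hpM : ∀ p, p.Prime → Y < p → ¬ p ∣ M := by
    intro p hp hYp hd
    have h1 := hp.dvd_of_dvd_pow hd
    rw [hp.dvd_factorial] at h1
    omega
  obtain ⟨j, x, hj, hXx, hx2, hT⟩ := exists_level_uu (m := N0 + 1) hn hYn (by omega)
    (max j0 (M + n + Y + N0 + 2))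
  have hj0 : j0 ≤ j := (le_max_left _ _).trans hj
  have hjM : M + n + Y + N0 + 2 ≤ j := (le_max_right _ _).trans hj
  have hjX : j < 2 ^ j := Nat.lt_two_pow_self
  set X := 2 ^ j with hX
  have hX1 : 1 ≤ X := Nat.one_le_two_pow
  have hXlt : X < 2 ^ X := Nat.lt_two_pow_self
  have hXxp : 2 ^ X ≤ 2 ^ x := Nat.pow_le_pow_right (by norm_num) hXx
  have hR2 : 2 ≤ 2 ^ x := by
    calc 2 = 2 ^ 1 := by norm_num
      _ ≤ 2 ^ x := Nat.pow_le_pow_right (by norm_num) (by omega)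
  have hmass := good_mass hn hYn (by omega : Y ≤ 2 ^ x) hR2 hpM (uu (N0 + 1) X) c hc0
    (fun p => by
      have := uu_one_le (N0 + 1) X p
      linarith)
    (fun p => by
      refine (uu_le (N0 + 1) X p).trans ?_
      have h1 : 1 + (N0 + 1) ≤ 2 ^ x := by omega
      exact_mod_cast h1) hT
  set Gs := (Icc 1 ((2 ^ x) ^ 12)).filter
    (fun s => UU (uu (N0 + 1) X) n Y M (2 ^ x) (2 ^ X) s ≤ 2 * (c + 1)) with hGs
  refine ⟨Y, M, j, x, n * (25 * X) / l, Gs, by omega, hMpos, dvd_refl _, hpM, hj0, hXx, hx2,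
    Finset.filter_subset _ _, fun s hs => ?_, ?_, ?_⟩
  · obtain ⟨h1, h2⟩ := Finset.mem_filter.1 hs
    exact good_struct hX1 hXx hx2 (by omega) hcN (by omega) (Finset.mem_Icc.1 h1).2 h2
  · exact Nat.mul_div_le _ _
  · have hG0 : 0 < G (f n) (DD Y (2 ^ x)) :=
      G_pos (f_pos hn) f_lt _ ⟨∅, empty_mem_DD (by omega)⟩
    have hGle : G (f n) (DD Y (2 ^ x)) ≤ Real.exp (8 * n * (j + 2)) := by
      have h1 : G (f n) (DD Y (2 ^ x)) ≤ G (f n) (DD Y (2 ^ (2 ^ (j + 1)))) := by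
        refine G_mono hn (Nat.pow_le_pow_right (by norm_num) ?_)
        rw [pow_succ]
        omega
      refine h1.trans ((G_upper hn hYn (j + 1)).trans ?_)
      apply Real.exp_le_exp.2
      push_cast
      nlinarith
    have hL : ∑ s ∈ Gs, LL n Y M (2 ^ x) s ≤ (Gs.card : ℝ) * (4 : ℝ) ^ (n * (25 * X) / l) := by
      rw [← nsmul_eq_mul]
      refine Finset.sum_le_card_nsmul _ _ _ (fun s hs => ?_)
      refine (L_le hn (by omega) s).trans ?_
      refine pow_le_pow_right₀ (by norm_num) ?_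
      rw [Nat.le_div_iff_mul_le (by omega), mul_comm]
      exact card_B_le hYl s (25 * X) (size_le (by omega) hx2
        (Finset.mem_Icc.1 (Finset.mem_filter.1 hs).1).2)
    rw [div_le_iff₀ hG0] at hmass
    refine hmass.trans ?_
    have h2 : 0 ≤ ∑ s ∈ Gs, LL n Y M (2 ^ x) s :=
      Finset.sum_nonneg (fun s _ => LL_nonneg n Y M (2 ^ x) s)
    calc 4 * (∑ s ∈ Gs, LL n Y M (2 ^ x) s) * G (f n) (DD Y (2 ^ x))
        ≤ 4 * ((Gs.card : ℝ) * (4 : ℝ) ^ (n * (25 * X) / l)) * Real.exp (8 * n * (j + 2)) := by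
          refine mul_le_mul ?_ hGle hG0.le (by positivity)
          linarith
      _ = _ := by ring

/-- few `s'` share an uncontrolled prime with a given `s` -/
theorem conflict {n Y M S K y : ℕ} (hpM : ∀ p, p.Prime → Y < p → ¬ p ∣ M) (W0 : Finset ℕ)
    (hW0 : ∀ p ∈ W0, p.Prime ∧ Y < p ∧ 2 ^ y < p) (hcard : W0.card ≤ K) (hy : 2 ^ y ∣ S)
    (hS : 1 ≤ S) :
    ((Icc 1 S).filter (fun s => ¬ Disjoint W0 (W Y n (M * s)))).card ≤
      K * (n * (2 * (S / 2 ^ y))) := by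
  have hy1 : 1 ≤ S / 2 ^ y := Nat.div_pos (Nat.le_of_dvd hS hy) (by positivity)
  have h1 : (Icc 1 S).filter (fun s => ¬ Disjoint W0 (W Y n (M * s))) ⊆
      W0.biUnion (fun p => (Icc 1 n).biUnion
        (fun a => (Icc 1 S).filter (fun s => p ∣ a + M * s))) := by
    intro s hs
    obtain ⟨h2, h3⟩ := Finset.mem_filter.1 hs
    rw [Finset.not_disjoint_iff] at h3
    obtain ⟨p, hp1, hp2⟩ := h3
    obtain ⟨-, -, a, ha, hpa⟩ := mem_W.1 hp2
    exact Finset.mem_biUnion.2 ⟨p, hp1, Finset.mem_biUnion.2 ⟨a, ha,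
      Finset.mem_filter.2 ⟨h2, hpa⟩⟩⟩
  refine (Finset.card_le_card h1).trans (Finset.card_biUnion_le.trans ?_)
  refine (Finset.sum_le_card_nsmul _ _ (n * (2 * (S / 2 ^ y))) (fun p hp => ?_)).trans ?_
  · refine Finset.card_biUnion_le.trans ?_
    refine (Finset.sum_le_card_nsmul _ _ (2 * (S / 2 ^ y)) (fun a _ => ?_)).trans ?_
    · obtain ⟨hpp, hpY, hpy⟩ := hW0 p hp
      refine (count_le M p a S hpp (hpM p hpp hpY)).trans ?_
      have h2 : S / p ≤ S / 2 ^ y := Nat.div_le_div_left hpy.le (by positivity)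
      omega
    · rw [Nat.card_Icc, Nat.add_sub_cancel, smul_eq_mul]
  · rw [smul_eq_mul]
    exact Nat.mul_le_mul_right _ hcard

end Pool.Agent.helper59.Sel
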