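import Pool.Agent.helper59.TP.SelOne

/-!
# The mass of the good `s`, with weighted primes
-/

set_option autoImplicit false

namespace Pool.Agent.helper59.Sel

open Finset

/-- the Selberg weight of `s` -/
noncomputable def LL (n Y M R s : ℕ) : ℝ :=
  (∑ A ∈ DD Y R with A ⊆ B n Y M R s, lam (f n) (DD Y R) A) ^ 2

theorem LL_nonneg (n Y M R s : ℕ) : 0 ≤ LL n Y M R s := sq_nonneg _

/-- the weighted number of the primes up to `z` dividing the product for `s` -/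
noncomputable def UU (u : ℕ → ℝ) (n Y M R z s : ℕ) : ℝ :=
  ∑ p ∈ (P Y R).filter (fun p => p ≤ z) with p ∈ B n Y M R s, u p

theorem upper_sum {n Y M R z : ℕ} (hn : 1 ≤ n) (hY : 2 * n ≤ Y) (hYR : Y ≤ R) (hR : 2 ≤ R)
    (hM : ∀ p, p.Prime → Y < p → ¬ p ∣ M) (u : ℕ → ℝ) (c : ℝ) (hu0 : ∀ p, 0 ≤ u p)
    (hu : ∀ p, u p ≤ R)
    (hT : ∑ p ∈ P Y R with p ≤ z,
      u p * (f n p * ∑ C ∈ DD Y R with p ∉ C ∧ insert p C ∉ DD Y R, K (f n) C) ≤
        c * G (f n) (DD Y R)) (S : ℕ) :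
    ∑ s ∈ Icc 1 S, LL n Y M R s * UU u n Y M R z s ≤
      c * ((S : ℝ) / G (f n) (DD Y R)) + 4 * (R : ℝ) ^ 9 := by
  set G0 := G (f n) (DD Y R) with hG0
  have hGpos : 0 < G0 := G_pos (f_pos hn) f_lt _ ⟨∅, empty_mem_DD (by omega)⟩
  have e1 : ∑ s ∈ Icc 1 S, LL n Y M R s * UU u n Y M R z s =
      ∑ p ∈ (P Y R).filter (fun p => p ≤ z), u p *
        ∑ s ∈ Icc 1 S with p ∈ B n Y M R s, LL n Y M R s := by
    have e2 : ∀ s ∈ Icc 1 S, LL n Y M R s * UU u n Y M R z s =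
        ∑ p ∈ (P Y R).filter (fun p => p ≤ z),
          (if p ∈ B n Y M R s then u p * LL n Y M R s else 0) := by
      intro s _
      unfold UU
      rw [Finset.sum_filter, Finset.mul_sum]
      refine Finset.sum_congr rfl (fun p _ => ?_)
      split_ifs
      · ring
      · ring
    rw [Finset.sum_congr rfl e2, Finset.sum_comm]
    refine Finset.sum_congr rfl (fun p _ => ?_)
    rw [Finset.sum_filter, Finset.mul_sum]
    refine Finset.sum_congr rfl (fun s _ => ?_)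
    split_ifs
    · ring
    · ring
  rw [e1]
  have e3 : ∀ p ∈ (P Y R).filter (fun p => p ≤ z),
      u p * ∑ s ∈ Icc 1 S with p ∈ B n Y M R s, LL n Y M R s ≤
      (S : ℝ) * ((u p * (f n p *
        ∑ C ∈ DD Y R with p ∉ C ∧ insert p C ∉ DD Y R, K (f n) C)) / G0 ^ 2) +
          R * (4 * (R : ℝ) ^ 7) := by
    intro p hp
    have hpP := (Finset.mem_filter.1 hp).1
    have e4 := upper S hn hY hYR (by omega) hM p hpP
    have e5 := mul_le_mul_of_nonneg_left e4 (hu0 p)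
    have e6 : u p * (4 * (R : ℝ) ^ 7) ≤ R * (4 * (R : ℝ) ^ 7) :=
      mul_le_mul_of_nonneg_right (hu p) (by positivity)
    calc u p * ∑ s ∈ Icc 1 S with p ∈ B n Y M R s, LL n Y M R s
        ≤ u p * ((S : ℝ) * (f n p *
          ((∑ C ∈ DD Y R with p ∉ C ∧ insert p C ∉ DD Y R, K (f n) C) / G0 ^ 2)) +
            4 * (R : ℝ) ^ 7) := e5
      _ = (S : ℝ) * ((u p * (f n p *
        ∑ C ∈ DD Y R with p ∉ C ∧ insert p C ∉ DD Y R, K (f n) C)) / G0 ^ 2) +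
          u p * (4 * (R : ℝ) ^ 7) := by ring
      _ ≤ _ := by linarith
  refine (Finset.sum_le_sum e3).trans ?_
  rw [Finset.sum_add_distrib, ← Finset.mul_sum, ← Finset.sum_div]
  refine add_le_add ?_ ?_
  · have e7 : (∑ p ∈ P Y R with p ≤ z,
      u p * (f n p * ∑ C ∈ DD Y R with p ∉ C ∧ insert p C ∉ DD Y R, K (f n) C)) / G0 ^ 2 ≤
        c / G0 := by
      rw [div_le_div_iff₀ (by positivity) hGpos]
      calc _ ≤ c * G0 * G0 := mul_le_mul_of_nonneg_right hT hGpos.le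
        _ = c * G0 ^ 2 := by ring
    calc _ ≤ (S : ℝ) * (c / G0) := mul_le_mul_of_nonneg_left e7 (Nat.cast_nonneg S)
      _ = c * ((S : ℝ) / G0) := by ring
  · rw [Finset.sum_const, nsmul_eq_mul]
    have e8 : (((P Y R).filter (fun p => p ≤ z)).card : ℝ) ≤ R := by
      have e9 : ((P Y R).filter (fun p => p ≤ z)).card ≤ R := by
        refine (Finset.card_filter_le _ _).trans ?_
        unfold P
        refine (Finset.card_filter_le _ _).trans ?_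
        rw [Nat.card_Ioc]
        omega
      exact_mod_cast e9
    calc _ ≤ (R : ℝ) * (R * (4 * (R : ℝ) ^ 7)) := mul_le_mul_of_nonneg_right e8 (by positivity)
      _ = 4 * (R : ℝ) ^ 9 := by ring

/-- the good `s` have a positive proportion of the mass -/
theorem good_mass {n Y M R z : ℕ} (hn : 1 ≤ n) (hY : 2 * n ≤ Y) (hYR : Y ≤ R) (hR : 2 ≤ R)
    (hM : ∀ p, p.Prime → Y < p → ¬ p ∣ M) (u : ℕ → ℝ) (c : ℝ) (hc : 0 ≤ c)
    (hu0 : ∀ p, 0 ≤ u p) (hu : ∀ p, u p ≤ R)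
    (hT : ∑ p ∈ P Y R with p ≤ z,
      u p * (f n p * ∑ C ∈ DD Y R with p ∉ C ∧ insert p C ∉ DD Y R, K (f n) C) ≤
        c * G (f n) (DD Y R)) :
    (((R ^ 12 : ℕ) : ℝ) / G (f n) (DD Y R)) ≤
      4 * ∑ s ∈ Icc 1 (R ^ 12) with UU u n Y M R z s ≤ 2 * (c + 1), LL n Y M R s := by
  have hup := upper_sum hn hY hYR hR hM u c hu0 hu hT (R ^ 12)
  have hlow : ((R ^ 12 : ℕ) : ℝ) / G (f n) (DD Y R) - (R : ℝ) ^ 6 ≤
      ∑ s ∈ Icc 1 (R ^ 12), LL n Y M R s := lower (R ^ 12) hn hY (by omega) hM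
  set G0 := G (f n) (DD Y R) with hG0
  have hGpos : 0 < G0 := G_pos (f_pos hn) f_lt _ ⟨∅, empty_mem_DD (by omega)⟩
  have hGle : G0 ≤ R := G_le hn
  set S := R ^ 12 with hS
  set Q := (S : ℝ) / G0 with hQ
  have hR1 : (2 : ℝ) ≤ R := by exact_mod_cast hR
  have hSG : (R : ℝ) ^ 11 ≤ Q := by
    rw [hQ, le_div_iff₀ hGpos, hS]
    push_cast
    calc (R : ℝ) ^ 11 * G0 ≤ (R : ℝ) ^ 11 * R :=
          mul_le_mul_of_nonneg_left hGle (by positivity)
      _ = (R : ℝ) ^ 12 := by ring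
  have h9 : 4 * (R : ℝ) ^ 9 ≤ (R : ℝ) ^ 11 := by
    calc 4 * (R : ℝ) ^ 9 = 2 ^ 2 * (R : ℝ) ^ 9 := by ring
      _ ≤ (R : ℝ) ^ 2 * (R : ℝ) ^ 9 :=
          mul_le_mul_of_nonneg_right (pow_le_pow_left₀ (by norm_num) hR1 2) (by positivity)
      _ = (R : ℝ) ^ 11 := by ring
  have h6 : 4 * (R : ℝ) ^ 6 ≤ (R : ℝ) ^ 11 := by
    calc 4 * (R : ℝ) ^ 6 ≤ 4 * (R : ℝ) ^ 9 := by
          have := pow_le_pow_right₀ (by linarith : (1 : ℝ) ≤ R) (by norm_num : 6 ≤ 9)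
          linarith
      _ ≤ (R : ℝ) ^ 11 := h9
  have hsplit := Finset.sum_filter_add_sum_filter_not (Icc 1 S)
    (fun s => UU u n Y M R z s ≤ 2 * (c + 1)) (fun s => LL n Y M R s)
  have hbad : 2 * (c + 1) * ∑ s ∈ Icc 1 S with ¬ UU u n Y M R z s ≤ 2 * (c + 1), LL n Y M R s ≤
      ∑ s ∈ Icc 1 S, LL n Y M R s * UU u n Y M R z s := by
    have hUU : ∀ s, 0 ≤ UU u n Y M R z s := fun s => Finset.sum_nonneg (fun p _ => hu0 p)
    rw [Finset.mul_sum]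
    refine le_trans (Finset.sum_le_sum (fun s hs => ?_))
      (Finset.sum_le_sum_of_subset_of_nonneg (Finset.filter_subset _ _)
        (fun s _ _ => mul_nonneg (LL_nonneg n Y M R s) (hUU s)))
    have h1 := not_le.1 (Finset.mem_filter.1 hs).2
    rw [mul_comm]
    exact mul_le_mul_of_nonneg_left h1.le (LL_nonneg n Y M R s)
  set g1 := ∑ s ∈ Icc 1 S with UU u n Y M R z s ≤ 2 * (c + 1), LL n Y M R s with hg1
  set g2 := ∑ s ∈ Icc 1 S with ¬ UU u n Y M R z s ≤ 2 * (c + 1), LL n Y M R s with hg2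
  have h1 : 2 * (c + 1) * g2 ≤ (c + 1) * Q := by
    have h2 := hbad.trans hup
    nlinarith
  have h2 : 2 * g2 ≤ Q := by
    have h3 : (c + 1) * (2 * g2) ≤ (c + 1) * Q := by linarith
    exact le_of_mul_le_mul_left h3 (by linarith)
  linarith

/-- the weights: `1`, and `1 + m` for the primes up to `2 ^ (X / m)` -/
noncomputable def uu (m X : ℕ) (p : ℕ) : ℝ := 1 + (if p ≤ 2 ^ (X / m) then (m : ℝ) else 0)

theorem uu_one_le (m X p : ℕ) : 1 ≤ uu m X p := by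
  unfold uu
  split_ifs
  · have : (0 : ℝ) ≤ m := Nat.cast_nonneg m
    linarith
  · linarith

theorem uu_le (m X p : ℕ) : uu m X p ≤ 1 + m := by
  unfold uu
  split_ifs
  · exact le_refl _
  · have : (0 : ℝ) ≤ m := Nat.cast_nonneg m
    linarith

theorem sum_log_uu {n Y X m : ℕ} (hn : 1 ≤ n) (hY : 2 * n ≤ Y) (hm : 1 ≤ m) :
    ∑ p ∈ P Y (2 ^ X), uu m X p * (f n p * ((Nat.log 2 p : ℝ) + 1)) ≤ 16 * n * X := by
  have h1 : ∑ p ∈ P Y (2 ^ X), uu m X p * (f n p * ((Nat.log 2 p : ℝ) + 1)) =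
      ∑ p ∈ P Y (2 ^ X), f n p * ((Nat.log 2 p : ℝ) + 1) +
      m * ∑ p ∈ (P Y (2 ^ X)).filter (fun p => p ≤ 2 ^ (X / m)),
        f n p * ((Nat.log 2 p : ℝ) + 1) := by
    rw [Finset.mul_sum, Finset.sum_filter, ← Finset.sum_add_distrib]
    refine Finset.sum_congr rfl (fun p _ => ?_)
    unfold uu
    split_ifs
    · ring
    · ring
  have h2 : ∑ p ∈ (P Y (2 ^ X)).filter (fun p => p ≤ 2 ^ (X / m)),
        f n p * ((Nat.log 2 p : ℝ) + 1) ≤ 8 * n * ((X / m : ℕ) : ℝ) := by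
    refine le_trans (Finset.sum_le_sum_of_subset_of_nonneg ?_ (fun p _ _ => ?_))
      (sum_log (X := X / m) hY)
    · intro p hp
      obtain ⟨h3, h4⟩ := Finset.mem_filter.1 hp
      exact mem_P.2 ⟨⟨(mem_P.1 h3).1.1, h4⟩, (mem_P.1 h3).2⟩
    · have h5 := (f_pos hn p).le
      positivity
  have h3 := sum_log (X := X) hY
  have hm0 : (0 : ℝ) < m := by exact_mod_cast hm
  have h4 : (m : ℝ) * ((X / m : ℕ) : ℝ) ≤ X := by
    have h5 : ((X / m : ℕ) : ℝ) ≤ (X : ℝ) / m := Nat.cast_div_le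
    calc (m : ℝ) * ((X / m : ℕ) : ℝ) ≤ m * ((X : ℝ) / m) :=
          mul_le_mul_of_nonneg_left h5 hm0.le
      _ = X := mul_div_cancel₀ _ hm0.ne'
  rw [h1]
  have hn0 : (0 : ℝ) ≤ n := Nat.cast_nonneg n
  have h5 : (m : ℝ) * ∑ p ∈ (P Y (2 ^ X)).filter (fun p => p ≤ 2 ^ (X / m)),
        f n p * ((Nat.log 2 p : ℝ) + 1) ≤ 8 * n * X := by
    calc _ ≤ (m : ℝ) * (8 * n * ((X / m : ℕ) : ℝ)) := mul_le_mul_of_nonneg_left h2 hm0.le
      _ = 8 * n * (m * ((X / m : ℕ) : ℝ)) := by ring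
      _ ≤ 8 * n * X := mul_le_mul_of_nonneg_left h4 (by positivity)
  linarith

/-- a good level `2 ^ x` for the weights `uu` -/
theorem exists_level_uu {n Y m : ℕ} (hn : 1 ≤ n) (hY : 2 * n ≤ Y) (hm : 1 ≤ m) (j0 : ℕ) :
    ∃ j x, j0 ≤ j ∧ 2 ^ j ≤ x ∧ x ≤ 2 * 2 ^ j ∧
      ∑ p ∈ P Y (2 ^ x) with p ≤ 2 ^ (2 ^ j), uu m (2 ^ j) p * (f n p *
        ∑ C ∈ DD Y (2 ^ x) with p ∉ C ∧ insert p C ∉ DD Y (2 ^ x), K (f n) C) ≤
        (16 * n * (2 * Real.exp (8 * n))) * G (f n) (DD Y (2 ^ x)) := by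
  obtain ⟨j, hj, hG⟩ := pigeon hn hY j0
  set X := 2 ^ j with hX
  have hXX : 2 ^ (j + 1) = 2 * X := by rw [hX, pow_succ]; ring
  rw [hXX] at hG
  have hX1 : 1 ≤ X := Nat.one_le_two_pow
  set K0 := 2 * Real.exp (8 * n) with hK0
  have hn0 : (0 : ℝ) ≤ n := Nat.cast_nonneg n
  have hK0pos : 0 < K0 := by positivity
  have hu0 : ∀ p, 0 ≤ uu m X p := fun p => by
    have := uu_one_le m X p
    linarith
  set T : ℕ → ℝ := fun x => ∑ p ∈ P Y (2 ^ x) with p ≤ 2 ^ X, uu m X p * (f n p *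
        ∑ C ∈ DD Y (2 ^ x) with p ∉ C ∧ insert p C ∉ DD Y (2 ^ x), K (f n) C) with hT
  have hTx : ∀ x ∈ Ico X (2 * X), T x ≤ ∑ p ∈ P Y (2 ^ X), uu m X p * (f n p *
      ∑ C ∈ DD Y (2 ^ (2 * X)),
        (if (∏ q ∈ C, q) ≤ 2 ^ x ∧ 2 ^ x < p * ∏ q ∈ C, q then K (f n) C else 0)) := by
    intro x hx
    obtain ⟨hx1, hx2⟩ := Finset.mem_Ico.1 hx
    have hsub : (P Y (2 ^ x)).filter (fun p => p ≤ 2 ^ X) ⊆ P Y (2 ^ X) := by
      intro p hp
      obtain ⟨h1, h2⟩ := Finset.mem_filter.1 hp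
      exact mem_P.2 ⟨⟨(mem_P.1 h1).1.1, h2⟩, (mem_P.1 h1).2⟩
    have hnn : ∀ p, 0 ≤ uu m X p * (f n p * ∑ C ∈ DD Y (2 ^ (2 * X)),
        (if (∏ q ∈ C, q) ≤ 2 ^ x ∧ 2 ^ x < p * ∏ q ∈ C, q then K (f n) C else 0)) := by
      intro p
      refine mul_nonneg (hu0 p) (mul_nonneg (f_pos hn p).le (Finset.sum_nonneg (fun C _ => ?_)))
      split_ifs
      · exact (K_pos (f_pos hn) f_lt C).le
      · exact le_refl _
    refine le_trans (Finset.sum_le_sum (fun p hp => ?_))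
      (Finset.sum_le_sum_of_subset_of_nonneg hsub (fun p _ _ => hnn p))
    refine mul_le_mul_of_nonneg_left (mul_le_mul_of_nonneg_left ?_ (f_pos hn p).le) (hu0 p)
    rw [← Finset.sum_filter]
    refine Finset.sum_le_sum_of_subset_of_nonneg (fun C hC => ?_)
      (fun C _ _ => (K_pos (f_pos hn) f_lt C).le)
    obtain ⟨h1, h2, h3⟩ := Finset.mem_filter.1 hC
    have h4 : 2 ^ x ≤ 2 ^ (2 * X) := Nat.pow_le_pow_right (by norm_num) hx2.le
    refine Finset.mem_filter.2 ⟨DD_mono h4 h1, (mem_DD.1 h1).2, ?_⟩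
    by_contra h5
    rw [not_lt] at h5
    apply h3
    refine mem_DD.2 ⟨Finset.insert_subset (Finset.mem_filter.1 hp).1 (mem_DD.1 h1).1, ?_⟩
    rw [Finset.prod_insert h2]
    exact h5
  have hsum : ∑ x ∈ Ico X (2 * X), T x ≤ 16 * n * X * G (f n) (DD Y (2 ^ (2 * X))) := by
    refine (Finset.sum_le_sum hTx).trans ?_
    rw [Finset.sum_comm]
    have h1 : ∀ p ∈ P Y (2 ^ X), ∑ x ∈ Ico X (2 * X), uu m X p * (f n p *
        ∑ C ∈ DD Y (2 ^ (2 * X)),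
        (if (∏ q ∈ C, q) ≤ 2 ^ x ∧ 2 ^ x < p * ∏ q ∈ C, q then K (f n) C else 0)) ≤
        uu m X p * (f n p * ((Nat.log 2 p : ℝ) + 1)) * G (f n) (DD Y (2 ^ (2 * X))) := by
      intro p _
      rw [← Finset.mul_sum, ← Finset.mul_sum, mul_assoc]
      refine mul_le_mul_of_nonneg_left ?_ (hu0 p)
      rw [mul_assoc]
      refine mul_le_mul_of_nonneg_left ?_ (f_pos hn p).le
      rw [Finset.sum_comm]
      unfold G
      rw [Finset.mul_sum]
      refine Finset.sum_le_sum (fun C hC => ?_)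
      rw [← Finset.sum_filter, Finset.sum_const, nsmul_eq_mul]
      refine mul_le_mul_of_nonneg_right ?_ (K_pos (f_pos hn) f_lt C).le
      have h2 := card_scale X p (∏ q ∈ C, q) (prod_pos' (mem_DD.1 hC).1)
      exact_mod_cast h2
    refine (Finset.sum_le_sum h1).trans ?_
    rw [← Finset.sum_mul]
    refine mul_le_mul_of_nonneg_right (sum_log_uu hn hY hm) ?_
    exact (G_pos (f_pos hn) f_lt _ ⟨∅, empty_mem_DD Nat.one_le_two_pow⟩).le
  have hfin : ∑ x ∈ Ico X (2 * X), T x ≤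
      ∑ x ∈ Ico X (2 * X), (16 * n * K0) * G (f n) (DD Y (2 ^ x)) := by
    refine hsum.trans ?_
    have h1 : ∑ _x ∈ Ico X (2 * X), (16 * n * K0) * G (f n) (DD Y (2 ^ X)) ≤
        ∑ x ∈ Ico X (2 * X), (16 * n * K0) * G (f n) (DD Y (2 ^ x)) := by
      refine Finset.sum_le_sum (fun x hx => ?_)
      refine mul_le_mul_of_nonneg_left ?_ (by positivity)
      exact G_mono hn (Nat.pow_le_pow_right (by norm_num) (Finset.mem_Ico.1 hx).1)
    refine le_trans ?_ h1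
    rw [Finset.sum_const, Nat.card_Ico, nsmul_eq_mul]
    have h2 : 2 * X - X = X := by omega
    rw [h2]
    calc 16 * n * X * G (f n) (DD Y (2 ^ (2 * X)))
        ≤ 16 * n * X * (K0 * G (f n) (DD Y (2 ^ X))) :=
          mul_le_mul_of_nonneg_left hG (by positivity)
      _ = X * (16 * n * K0 * G (f n) (DD Y (2 ^ X))) := by ring
  obtain ⟨x, hx, hTx'⟩ := Finset.exists_le_of_sum_le (by
    rw [Finset.nonempty_Ico]; omega) hfin
  obtain ⟨hx1, hx2⟩ := Finset.mem_Ico.1 hx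
  exact ⟨j, x, hj, hx1, hx2.le, hTx'⟩

end Pool.Agent.helper59.Sel
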