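import Pool.Agent.helper59.TP.SelGrow
import Pool.Agent.helper59.TP.CoreP

/-!
# Selberg's weights are bounded by one, and a mass bound for the good `s`
-/

set_option autoImplicit false

namespace Pool.Agent.helper59.Sel

open Finset

theorem K_union (f : ℕ → ℝ) {A B : Finset ℕ} (h : Disjoint A B) :
    K f (A ∪ B) = K f A * K f B :=
  Finset.prod_union h

theorem K_eq_F {f : ℕ → ℝ} (hf : ∀ p, 0 < f p) (hf1 : ∀ p, f p < 1) (A : Finset ℕ) :
    K f A = F f A * ∑ B ∈ A.powerset, K f B := by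
  unfold K F
  rw [← Finset.prod_one_add, ← Finset.prod_mul_distrib]
  refine Finset.prod_congr rfl (fun p _ => ?_)
  have h3 := h_pos hf hf1 p
  have h4 : (1 / f p - 1)⁻¹ * (1 / f p - 1) = 1 := inv_mul_cancel₀ h3.ne'
  have h5 : f p * (1 / f p) = 1 := mul_one_div_cancel (hf p).ne'
  linear_combination (f p) * h4 - (1 / f p - 1)⁻¹ * h5

theorem sum_sup_le {f : ℕ → ℝ} (hf : ∀ p, 0 < f p) (hf1 : ∀ p, f p < 1)
    (D : Finset (Finset ℕ)) (hD : ∀ A ∈ D, ∀ C, C ⊆ A → C ∈ D) (A : Finset ℕ) :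
    ∑ E ∈ D with A ⊆ E, K f E ≤ F f A * G f D := by
  have h1 : ∀ E ∈ D.filter (fun E => A ⊆ E),
      K f E = F f A * ∑ B ∈ A.powerset, K f ((E \ A) ∪ B) := by
    intro E hE
    have hAE := (Finset.mem_filter.1 hE).2
    have h2 : ∀ B ∈ A.powerset, K f ((E \ A) ∪ B) = K f (E \ A) * K f B := by
      intro B hB
      exact K_union f (Finset.disjoint_of_subset_right (Finset.mem_powerset.1 hB)
        Finset.sdiff_disjoint)
    rw [Finset.sum_congr rfl h2, ← Finset.mul_sum]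
    have h3 : K f E = K f (E \ A) * K f A := by
      rw [← K_union f Finset.sdiff_disjoint, Finset.sdiff_union_of_subset hAE]
    rw [h3, K_eq_F hf hf1 A]
    ring
  rw [Finset.sum_congr rfl h1, ← Finset.mul_sum]
  refine mul_le_mul_of_nonneg_left ?_ (F_pos hf A).le
  have h2 : ∑ E ∈ D with A ⊆ E, ∑ B ∈ A.powerset, K f ((E \ A) ∪ B) =
      ∑ x ∈ (D.filter (fun E => A ⊆ E)) ×ˢ A.powerset, K f ((x.1 \ A) ∪ x.2) := by
    rw [Finset.sum_product]
  have hinj : Set.InjOn (fun x : Finset ℕ × Finset ℕ => (x.1 \ A) ∪ x.2)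
      (((D.filter (fun E => A ⊆ E)) ×ˢ A.powerset : Finset (Finset ℕ × Finset ℕ)) :
        Set (Finset ℕ × Finset ℕ)) := by
    rintro ⟨E, B⟩ h ⟨E', B'⟩ h' heq
    obtain ⟨hE, hB⟩ := Finset.mem_product.1 (Finset.mem_coe.1 h)
    obtain ⟨hE', hB'⟩ := Finset.mem_product.1 (Finset.mem_coe.1 h')
    have hAE : A ⊆ E := (Finset.mem_filter.1 hE).2
    have hAE' : A ⊆ E' := (Finset.mem_filter.1 hE').2
    have hBA : B ⊆ A := Finset.mem_powerset.1 hB
    have hBA' : B' ⊆ A := Finset.mem_powerset.1 hB'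
    have heq' : (E \ A) ∪ B = (E' \ A) ∪ B' := heq
    have key : ∀ x, (x ∈ E ∧ x ∉ A) ∨ x ∈ B ↔ (x ∈ E' ∧ x ∉ A) ∨ x ∈ B' := by
      intro x
      have h3 : x ∈ (E \ A) ∪ B ↔ x ∈ (E' \ A) ∪ B' := by rw [heq']
      simpa only [Finset.mem_union, Finset.mem_sdiff] using h3
    have e1 : B = B' := by
      ext x
      have h3 := key x
      have h4 : x ∈ B → x ∈ A := fun h => hBA h
      have h5 : x ∈ B' → x ∈ A := fun h => hBA' h
      tauto
    have e2 : E = E' := by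
      ext x
      have h3 := key x
      have h4 : x ∈ B → x ∈ A := fun h => hBA h
      have h5 : x ∈ B' → x ∈ A := fun h => hBA' h
      have h6 : x ∈ A → x ∈ E := fun h => hAE h
      have h7 : x ∈ A → x ∈ E' := fun h => hAE' h
      tauto
    rw [e1, e2]
  rw [h2, ← Finset.sum_image (f := fun E => K f E) hinj]
  unfold G
  refine Finset.sum_le_sum_of_subset_of_nonneg ?_ (fun E _ _ => (K_pos hf hf1 E).le)
  intro E hE
  obtain ⟨⟨E', B⟩, hx, rfl⟩ := Finset.mem_image.1 hE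
  obtain ⟨hE', hB⟩ := Finset.mem_product.1 hx
  obtain ⟨hE1, hE2⟩ := Finset.mem_filter.1 hE'
  refine hD E' hE1 _ ?_
  exact Finset.union_subset Finset.sdiff_subset ((Finset.mem_powerset.1 hB).trans hE2)

theorem lam_abs_one {f : ℕ → ℝ} (hf : ∀ p, 0 < f p) (hf1 : ∀ p, f p < 1)
    (D : Finset (Finset ℕ)) (hD : ∀ A ∈ D, ∀ C, C ⊆ A → C ∈ D) (hne : D.Nonempty)
    (A : Finset ℕ) : |lam f D A| ≤ 1 := by
  have hG := G_pos hf hf1 D hne
  have hF := F_pos hf A
  have h1 : 0 ≤ ∑ E ∈ D with A ⊆ E, K f E / G f D :=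
    Finset.sum_nonneg (fun E _ => div_nonneg (K_pos hf hf1 E).le hG.le)
  have h2 : ∑ E ∈ D with A ⊆ E, K f E / G f D ≤ F f A := by
    rw [← Finset.sum_div, div_le_iff₀ hG]
    exact sum_sup_le hf hf1 D hD A
  unfold lam
  rw [abs_mul, abs_div, abs_pow, abs_neg, abs_one, one_pow, abs_of_pos hF,
    abs_of_nonneg h1, div_mul_eq_mul_div, one_mul, div_le_one hF]
  exact h2

theorem L_le {n Y M R : ℕ} (hn : 1 ≤ n) (hR : 1 ≤ R) (s : ℕ) :
    (∑ A ∈ DD Y R with A ⊆ B n Y M R s, lam (f n) (DD Y R) A) ^ 2 ≤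
      (4 : ℝ) ^ (B n Y M R s).card := by
  have h1 : |∑ A ∈ DD Y R with A ⊆ B n Y M R s, lam (f n) (DD Y R) A| ≤
      (2 : ℝ) ^ (B n Y M R s).card := by
    refine (Finset.abs_sum_le_sum_abs _ _).trans ?_
    refine (Finset.sum_le_card_nsmul _ _ 1 (fun A _ => lam_abs_one (f_pos hn) f_lt _
      (DD_down Y R) ⟨∅, empty_mem_DD hR⟩ A)).trans ?_
    rw [nsmul_eq_mul, mul_one]
    have h2 : ((DD Y R).filter (fun A => A ⊆ B n Y M R s)).card ≤
        2 ^ (B n Y M R s).card := by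
      rw [← Finset.card_powerset]
      refine Finset.card_le_card (fun A hA => ?_)
      exact Finset.mem_powerset.2 (Finset.mem_filter.1 hA).2
    exact_mod_cast h2
  rw [← sq_abs]
  calc |∑ A ∈ DD Y R with A ⊆ B n Y M R s, lam (f n) (DD Y R) A| ^ 2
      ≤ ((2 : ℝ) ^ (B n Y M R s).card) ^ 2 := pow_le_pow_left₀ (abs_nonneg _) h1 2
    _ = (4 : ℝ) ^ (B n Y M R s).card := by
      rw [← pow_mul, mul_comm, pow_mul]
      norm_num

theorem card_B_le {n Y M R l : ℕ} (hl : 2 ^ l ≤ Y) (s N : ℕ) (hN : n + M * s ≤ 2 ^ N) :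
    l * (B n Y M R s).card ≤ n * N := by
  have h1 : (2 ^ l) ^ (B n Y M R s).card ≤ ∏ p ∈ B n Y M R s, p := by
    refine Finset.pow_card_le_prod _ (fun p => p) (2 ^ l) (fun p hp => ?_)
    have := (mem_P.1 (Finset.mem_filter.1 hp).1).1.1
    omega
  have h2 : ∏ p ∈ B n Y M R s, p ∣ ∏ a ∈ Icc 1 n, (a + M * s) := by
    refine Finset.prod_primes_dvd _ (fun p hp => ?_) (fun p hp => ?_)
    · exact (mem_P.1 (Finset.mem_filter.1 hp).1).2.prime
    · obtain ⟨a, ha, hpa⟩ := (Finset.mem_filter.1 hp).2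
      exact hpa.trans (Finset.dvd_prod_of_mem _ ha)
  have h3 : 0 < ∏ a ∈ Icc 1 n, (a + M * s) := by
    refine Finset.prod_pos (fun a ha => ?_)
    have := (Finset.mem_Icc.1 ha).1
    omega
  have h4 : ∏ a ∈ Icc 1 n, (a + M * s) ≤ (2 ^ N) ^ n := by
    refine (Finset.prod_le_pow_card _ _ (2 ^ N) (fun a ha => ?_)).trans ?_
    · have := (Finset.mem_Icc.1 ha).2
      omega
    · rw [Nat.card_Icc, Nat.add_sub_cancel]
  have h5 : 2 ^ (l * (B n Y M R s).card) ≤ 2 ^ (n * N) := by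
    calc 2 ^ (l * (B n Y M R s).card) = (2 ^ l) ^ (B n Y M R s).card := by rw [pow_mul]
      _ ≤ (2 ^ N) ^ n := h1.trans ((Nat.le_of_dvd h3 h2).trans h4)
      _ = 2 ^ (n * N) := by rw [← pow_mul, mul_comm]
  exact (Nat.pow_le_pow_iff_right (by norm_num)).1 h5

end Pool.Agent.helper59.Sel
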