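import Pool.Agent.helper59.TP.SelMany

/-!
# Random sets of freed primes: the second moment
-/

set_option autoImplicit false

namespace Pool.Agent.helper59.Sel

open Finset MeasureTheory Pool.Agent.helper59.TPP

theorem second_moment {Ω : Type*} [MeasurableSpace Ω] (μ : Measure Ω) [IsProbabilityMeasure μ]
    (T : Finset ℕ) (A : ℕ → Set Ω) (hA : ∀ i ∈ T, MeasurableSet (A i))
    (rel : ℕ → ℕ → Prop) [∀ i, DecidablePred (rel i)] (H : ℝ)
    (hH : ∀ i ∈ T, ((T.filter (fun j => ¬ rel i j)).card : ℝ) ≤ H)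
    (hind : ∀ i ∈ T, ∀ j ∈ T, rel i j → μ.real (A i ∩ A j) = μ.real (A i) * μ.real (A j)) :
    μ.real (⋂ i ∈ T, (A i)ᶜ) * (∑ i ∈ T, μ.real (A i)) ^ 2 ≤ H * ∑ i ∈ T, μ.real (A i) := by
  set m := ∑ i ∈ T, μ.real (A i) with hm
  have hB : MeasurableSet (⋂ i ∈ T, (A i)ᶜ) :=
    Finset.measurableSet_biInter T (fun i hi => (hA i hi).compl)
  have hint : ∀ s : Set Ω, MeasurableSet s → Integrable (s.indicator (fun _ => (1 : ℝ))) μ :=
    fun s hs => (integrable_const (1 : ℝ)).indicator hs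
  have hval : ∀ s : Set Ω, MeasurableSet s → ∫ ω, s.indicator (fun _ => (1 : ℝ)) ω ∂μ = μ.real s := by
    intro s hs
    rw [integral_indicator hs]
    simp
  have hint2 : Integrable (fun ω => ∑ i ∈ T, ∑ j ∈ T,
      (A i ∩ A j).indicator (fun _ => (1 : ℝ)) ω) μ :=
    integrable_finset_sum _ (fun i hi => integrable_finset_sum _
      (fun j hj => hint _ ((hA i hi).inter (hA j hj))))
  have hint1 : Integrable (fun ω => ∑ i ∈ T, (A i).indicator (fun _ => (1 : ℝ)) ω) μ :=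
    integrable_finset_sum _ (fun i hi => hint _ (hA i hi))
  have hint1m : Integrable (fun ω => 2 * m *
      ∑ i ∈ T, (A i).indicator (fun _ => (1 : ℝ)) ω) μ := hint1.const_mul (2 * m)
  have hsub : Integrable (fun ω => ∑ i ∈ T, ∑ j ∈ T,
      (A i ∩ A j).indicator (fun _ => (1 : ℝ)) ω -
        2 * m * ∑ i ∈ T, (A i).indicator (fun _ => (1 : ℝ)) ω) μ := hint2.sub hint1m
  have hall : Integrable (fun ω => ∑ i ∈ T, ∑ j ∈ T,
      (A i ∩ A j).indicator (fun _ => (1 : ℝ)) ω -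
        2 * m * ∑ i ∈ T, (A i).indicator (fun _ => (1 : ℝ)) ω + m ^ 2) μ :=
    hsub.add (integrable_const (m ^ 2))
  have hpt : ∀ ω, m ^ 2 * (⋂ i ∈ T, (A i)ᶜ).indicator (fun _ => (1 : ℝ)) ω ≤
      ∑ i ∈ T, ∑ j ∈ T, (A i ∩ A j).indicator (fun _ => (1 : ℝ)) ω -
        2 * m * ∑ i ∈ T, (A i).indicator (fun _ => (1 : ℝ)) ω + m ^ 2 := by
    intro ω
    have h1 : ∑ i ∈ T, ∑ j ∈ T, (A i ∩ A j).indicator (fun _ => (1 : ℝ)) ω =
        (∑ i ∈ T, (A i).indicator (fun _ => (1 : ℝ)) ω) ^ 2 := by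
      rw [sq, Finset.sum_mul_sum]
      refine Finset.sum_congr rfl (fun i _ => Finset.sum_congr rfl (fun j _ => ?_))
      have hij : ω ∈ A i ∩ A j ↔ ω ∈ A i ∧ ω ∈ A j := Set.mem_inter_iff _ _ _
      by_cases hi : ω ∈ A i
      · by_cases hj : ω ∈ A j
        · have h3 : ω ∈ A i ∩ A j := hij.2 ⟨hi, hj⟩
          simp only [Set.indicator_of_mem h3, Set.indicator_of_mem hi,
            Set.indicator_of_mem hj, one_mul]
        · have h3 : ω ∉ A i ∩ A j := fun h => hj (hij.1 h).2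
          simp only [Set.indicator_of_notMem h3, Set.indicator_of_notMem hj, mul_zero]
      · have h3 : ω ∉ A i ∩ A j := fun h => hi (hij.1 h).1
        simp only [Set.indicator_of_notMem h3, Set.indicator_of_notMem hi, zero_mul]
    rw [h1]
    by_cases hω : ω ∈ ⋂ i ∈ T, (A i)ᶜ
    · have h2 : ∑ i ∈ T, (A i).indicator (fun _ => (1 : ℝ)) ω = 0 := by
        refine Finset.sum_eq_zero (fun i hi => Set.indicator_of_notMem ?_ _)
        exact Set.mem_iInter₂.1 hω i hi
      rw [h2, Set.indicator_of_mem hω]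
      linarith
    · rw [Set.indicator_of_notMem hω]
      nlinarith [sq_nonneg ((∑ i ∈ T, (A i).indicator (fun _ => (1 : ℝ)) ω) - m)]
  have hmono := integral_mono (μ := μ) ((hint _ hB).const_mul (m ^ 2)) hall hpt
  have hl : ∫ ω, m ^ 2 * (⋂ i ∈ T, (A i)ᶜ).indicator (fun _ => (1 : ℝ)) ω ∂μ =
      m ^ 2 * μ.real (⋂ i ∈ T, (A i)ᶜ) := by
    rw [integral_const_mul, hval _ hB]
  have hr : ∫ ω, (∑ i ∈ T, ∑ j ∈ T, (A i ∩ A j).indicator (fun _ => (1 : ℝ)) ω -
        2 * m * ∑ i ∈ T, (A i).indicator (fun _ => (1 : ℝ)) ω + m ^ 2) ∂μ =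
      ∑ i ∈ T, ∑ j ∈ T, μ.real (A i ∩ A j) - 2 * m * m + m ^ 2 := by
    rw [integral_add hsub (integrable_const _),
      integral_sub hint2 hint1m, integral_const_mul,
      integral_finset_sum _ (fun i hi => hint _ (hA i hi)),
      integral_finset_sum _ (fun i hi => integrable_finset_sum _
        (fun j hj => hint _ ((hA i hi).inter (hA j hj))))]
    congr 1
    · congr 1
      · refine Finset.sum_congr rfl (fun i hi => ?_)
        rw [integral_finset_sum _ (fun j hj => hint _ ((hA i hi).inter (hA j hj)))]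
        exact Finset.sum_congr rfl (fun j hj => hval _ ((hA i hi).inter (hA j hj)))
      · rw [hm]
        congr 1
        exact Finset.sum_congr rfl (fun i hi => hval _ (hA i hi))
    · simp
  have hmono' : m ^ 2 * μ.real (⋂ i ∈ T, (A i)ᶜ) ≤
      ∑ i ∈ T, ∑ j ∈ T, μ.real (A i ∩ A j) - 2 * m * m + m ^ 2 := by
    rw [← hl, ← hr]
    exact hmono
  have hpair : ∑ i ∈ T, ∑ j ∈ T, μ.real (A i ∩ A j) ≤ m ^ 2 + H * m := by
    have h1 : ∀ i ∈ T, ∑ j ∈ T, μ.real (A i ∩ A j) ≤ μ.real (A i) * m + H * μ.real (A i) := by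
      intro i hi
      rw [← Finset.sum_filter_add_sum_filter_not T (fun j => rel i j)]
      refine add_le_add ?_ ?_
      · calc ∑ j ∈ T with rel i j, μ.real (A i ∩ A j)
            = ∑ j ∈ T with rel i j, μ.real (A i) * μ.real (A j) :=
              Finset.sum_congr rfl (fun j hj => hind i hi j (Finset.mem_filter.1 hj).1
                (Finset.mem_filter.1 hj).2)
          _ ≤ ∑ j ∈ T, μ.real (A i) * μ.real (A j) :=
              Finset.sum_le_sum_of_subset_of_nonneg (Finset.filter_subset _ _)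
                (fun j _ _ => mul_nonneg measureReal_nonneg measureReal_nonneg)
          _ = μ.real (A i) * m := by rw [← Finset.mul_sum]
      · calc ∑ j ∈ T with ¬ rel i j, μ.real (A i ∩ A j)
            ≤ ∑ j ∈ T with ¬ rel i j, μ.real (A i) :=
              Finset.sum_le_sum (fun j _ => measureReal_mono Set.inter_subset_left)
          _ = ((T.filter (fun j => ¬ rel i j)).card : ℝ) * μ.real (A i) := by
              rw [Finset.sum_const, nsmul_eq_mul]
          _ ≤ H * μ.real (A i) := mul_le_mul_of_nonneg_right (hH i hi) measureReal_nonneg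
    refine (Finset.sum_le_sum h1).trans ?_
    rw [Finset.sum_add_distrib, ← Finset.sum_mul, ← Finset.mul_sum, ← hm]
    nlinarith
  nlinarith

/-- the decay -/
theorem decay (n K m : ℕ) (hm : 1 ≤ m) (δ : ℝ) (hδ : 0 < δ) : ∃ j1 : ℕ, ∀ j, j1 ≤ j →
    16 * K * n * Real.exp (8 * n * (j + 2)) *
      (((2 : ℝ) ^ (((2 ^ j : ℕ) : ℝ) / (4 * m))) ^ 2)⁻¹ ≤ δ := by
  have hm0 : (0 : ℝ) < m := by exact_mod_cast hm
  set r : ℝ := (2 : ℝ) ^ (-(1 / (2 * (m : ℝ)))) with hr
  have hr0 : 0 < r := Real.rpow_pos_of_pos (by norm_num) _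
  have hr1 : r < 1 := by
    refine Real.rpow_lt_one_of_one_lt_of_neg (by norm_num) ?_
    have : 0 < 1 / (2 * (m : ℝ)) := by positivity
    linarith
  have h1 : Filter.Tendsto (fun X : ℕ => ((X : ℝ)) ^ (16 * n) * r ^ X) Filter.atTop
      (nhds 0) := tendsto_pow_const_mul_const_pow_of_abs_lt_one (16 * n)
        (by rw [abs_of_pos hr0]; exact hr1)
  have h2 : Filter.Tendsto (fun j : ℕ => (2 : ℕ) ^ j) Filter.atTop Filter.atTop :=
    tendsto_pow_atTop_atTop_of_one_lt (by norm_num)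
  have h3 := (h1.comp h2).const_mul (16 * K * n * Real.exp (16 * n))
  rw [mul_zero] at h3
  obtain ⟨j1, hj1⟩ := Filter.eventually_atTop.1 (h3.eventually_le_const hδ)
  refine ⟨j1, fun j hj => le_trans ?_ (hj1 j hj)⟩
  change _ ≤ 16 * K * n * Real.exp (16 * n) * ((((2 ^ j : ℕ) : ℝ)) ^ (16 * n) * r ^ (2 ^ j))
  have h4 : (((2 : ℝ) ^ (((2 ^ j : ℕ) : ℝ) / (4 * m))) ^ 2)⁻¹ = r ^ (2 ^ j) := by
    rw [hr, ← Real.rpow_natCast, ← Real.rpow_natCast, ← Real.rpow_mul (by norm_num),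
      ← Real.rpow_mul (by norm_num), ← Real.rpow_neg (by norm_num)]
    congr 1
    push_cast
    field_simp
    ring
  have h5 : Real.exp (8 * n * (j + 2)) ≤
      Real.exp (16 * n) * ((((2 ^ j : ℕ) : ℝ)) ^ (16 * n)) := by
    have e1 : Real.exp (8 * n * (j + 2)) = Real.exp (16 * n) * Real.exp 1 ^ (8 * n * j) := by
      rw [← Real.exp_nat_mul, ← Real.exp_add]
      congr 1
      push_cast
      ring
    have e2 : (((2 ^ j : ℕ) : ℝ)) ^ (16 * n) = (4 : ℝ) ^ (8 * n * j) := by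
      push_cast
      rw [← pow_mul, show (4 : ℝ) = 2 ^ 2 by norm_num, ← pow_mul]
      congr 1
      ring
    rw [e1, e2]
    refine mul_le_mul_of_nonneg_left ?_ (Real.exp_pos _).le
    refine pow_le_pow_left₀ (Real.exp_pos 1).le ?_ _
    have := Real.exp_one_lt_d9
    linarith
  rw [h4]
  calc 16 * K * n * Real.exp (8 * n * (j + 2)) * r ^ (2 ^ j)
      ≤ 16 * K * n * (Real.exp (16 * n) * ((((2 ^ j : ℕ) : ℝ)) ^ (16 * n))) * r ^ (2 ^ j) := by
        refine mul_le_mul_of_nonneg_right ?_ (by positivity)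
        exact mul_le_mul_of_nonneg_left h5 (by positivity)
    _ = _ := by ring

end Pool.Agent.helper59.Sel
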