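import Pool.Agent.helper59.TP.SelProb

/-!
# Random sets of freed primes: the failure probability is zero
-/

set_option autoImplicit false

namespace Pool.Agent.helper59.Sel

open Finset MeasureTheory Pool.Agent.helper59.TPP

/-- the numerical step -/
theorem numeric {Pr m0 H S c w e k y4 fb : ℝ} (hP : 0 ≤ Pr) (hw : 0 < w) (he : 0 < e)
    (hS : 0 < S) (hH : 0 ≤ H) (hsm : Pr * m0 ^ 2 ≤ H * m0) (hm0 : c * w⁻¹ ≤ m0)
    (hHy : H * y4 = k * S) (hk : 0 ≤ k) (hfb : fb ≤ w) (hy4 : w ^ 4 ≤ 2 * y4)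
    (hSc : S ≤ 4 * (fb * e) * c) (hfb0 : 0 < fb) (hy0 : 0 < y4) :
    Pr ≤ 8 * k * e * (w ^ 2)⁻¹ := by
  have hc : 0 < c := by
    by_contra hcon
    rw [not_lt] at hcon
    have h1 : 4 * (fb * e) * c ≤ 0 := mul_nonpos_of_nonneg_of_nonpos (by positivity) hcon
    linarith
  have hm0pos : 0 < m0 := lt_of_lt_of_le (mul_pos hc (inv_pos.2 hw)) hm0
  have h1 : Pr * m0 ≤ H := by
    have h2 : m0 * (Pr * m0) ≤ m0 * H := by nlinarith
    exact le_of_mul_le_mul_left h2 hm0pos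
  have h2 : Pr * (c * w⁻¹) ≤ H := (mul_le_mul_of_nonneg_left hm0 hP).trans h1
  have h3 : Pr * c ≤ H * w := by
    have h4 : Pr * (c * w⁻¹) * w ≤ H * w := mul_le_mul_of_nonneg_right h2 hw.le
    have h5 : Pr * (c * w⁻¹) * w = Pr * c := by
      field_simp
    linarith
  have h4 : Pr * S ≤ 4 * w * e * (H * w) := by
    calc Pr * S ≤ Pr * (4 * (fb * e) * c) := mul_le_mul_of_nonneg_left hSc hP
      _ = 4 * (fb * e) * (Pr * c) := by ring
      _ ≤ 4 * (w * e) * (Pr * c) := by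
          refine mul_le_mul_of_nonneg_right ?_ (mul_nonneg hP hc.le)
          have := mul_le_mul_of_nonneg_right hfb he.le
          linarith
      _ ≤ 4 * (w * e) * (H * w) := mul_le_mul_of_nonneg_left h3 (by positivity)
      _ = _ := by ring
  have h5 : Pr * y4 ≤ 4 * k * e * w ^ 2 := by
    have h6 : S * (Pr * y4) ≤ S * (4 * k * e * w ^ 2) := by
      calc S * (Pr * y4) = Pr * S * y4 := by ring
        _ ≤ 4 * w * e * (H * w) * y4 := mul_le_mul_of_nonneg_right h4 hy0.le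
        _ = 4 * w ^ 2 * e * (H * y4) := by ring
        _ = S * (4 * k * e * w ^ 2) := by rw [hHy]; ring
    exact le_of_mul_le_mul_left h6 hS
  have h6 : Pr * w ^ 4 ≤ 8 * k * e * w ^ 2 := by
    have := mul_le_mul_of_nonneg_left hy4 hP
    linarith
  rw [← div_eq_mul_inv, le_div_iff₀ (by positivity)]
  have h7 : w ^ 2 * (Pr * w ^ 2) ≤ w ^ 2 * (8 * k * e) := by
    calc w ^ 2 * (Pr * w ^ 2) = Pr * w ^ 4 := by ring
      _ ≤ 8 * k * e * w ^ 2 := h6
      _ = w ^ 2 * (8 * k * e) := by ring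
  exact le_of_mul_le_mul_left h7 (by positivity)

theorem prob_fail {Ω : Type*} [MeasurableSpace Ω] (μ : Measure Ω) [IsProbabilityMeasure μ]
    (E : ℕ → Set Ω) (hE : ∀ q, q.Prime → MeasurableSet (E q))
    (hind : ∀ A : Finset ℕ, (∀ p ∈ A, p.Prime) →
      μ.real (⋂ p ∈ A, E p) = ∏ p ∈ A, μ.real (E p))
    (hρ : ∀ ε : ℝ, 0 < ε → ∃ q0 : ℕ, ∀ q : ℕ, q.Prime → q0 ≤ q →
      (q : ℝ) ^ (-ε) ≤ μ.real (E q))
    (n : ℕ) (hn : 1 ≤ n) :
    μ {ω | ∀ Y t : ℕ, n ≤ Y → 1 ≤ t → (Nat.factorial Y) ^ (n + 1) ∣ t →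
      ∃ p : ℕ, p.Prime ∧ Y < p ∧ (∃ a, 1 ≤ a ∧ a ≤ n ∧ p ∣ a + t) ∧ ω ∉ E p} = 0 := by
  obtain ⟨m, K, hm, hK, hmany⟩ := many_good n hn
  have hm0 : (0 : ℝ) < m := by exact_mod_cast hm
  have hK0 : (0 : ℝ) < K := by exact_mod_cast hK
  refine nonpos_iff_eq_zero.1 (ENNReal.le_of_forall_pos_le_add (fun δ hδ _ => ?_))
  rw [zero_add]
  obtain ⟨q0, hq0⟩ := hρ (1 / (100 * m * K)) (by positivity)
  obtain ⟨j1, hj1⟩ := decay n K m hm (δ : ℝ) (by exact_mod_cast hδ)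
  obtain ⟨Y, M, j, x, b, Gs, hnY, hM1, hMd, hpM, hj, hXx, hx2, hGs, hstr, hlb, hsize⟩ :=
    hmany (200 * n * m) (max j1 (m + q0)) (by
      have : 0 < 200 * n * m := by positivity
      omega)
  have hjj1 : j1 ≤ j := (le_max_left _ _).trans hj
  have hjm : m + q0 ≤ j := (le_max_right _ _).trans hj
  set X := 2 ^ j with hX
  set S := (2 ^ x) ^ 12 with hS
  have hS1 : 1 ≤ S := Nat.one_le_pow _ _ (by positivity)
  set y := X / m with hy
  have hyX : y ≤ X := Nat.div_le_self _ _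
  have hq0y : q0 ≤ y := by
    rw [hy, Nat.le_div_iff_mul_le (by omega)]
    have h1 : q0 < 2 ^ q0 := Nat.lt_two_pow_self
    have h2 : m < 2 ^ m := Nat.lt_two_pow_self
    calc q0 * m ≤ 2 ^ q0 * 2 ^ m := Nat.mul_le_mul h1.le h2.le
      _ = 2 ^ (m + q0) := by rw [← pow_add, add_comm]
      _ ≤ X := Nat.pow_le_pow_right (by norm_num) hjm
  have hydvd : 2 ^ y ∣ S := by
    rw [hS, ← pow_mul]
    exact pow_dvd_pow 2 (by omega)
  set V : ℕ → Finset ℕ := fun s => W Y n (M * s) with hV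
  have hVp : ∀ s, ∀ p ∈ V s, p.Prime := fun s p hp => (mem_W.1 hp).2.1
  set A : ℕ → Set Ω := fun s => ⋂ p ∈ V s, E p with hA
  have hAm : ∀ s, MeasurableSet (A s) := fun s =>
    Finset.measurableSet_biInter _ (fun p hp => hE p (hVp s p hp))
  have hsub : {ω | ∀ Y t : ℕ, n ≤ Y → 1 ≤ t → (Nat.factorial Y) ^ (n + 1) ∣ t →
      ∃ p : ℕ, p.Prime ∧ Y < p ∧ (∃ a, 1 ≤ a ∧ a ≤ n ∧ p ∣ a + t) ∧ ω ∉ E p} ⊆
      ⋂ s ∈ Gs, (A s)ᶜ := by
    intro ω hω
    refine Set.mem_iInter₂.2 (fun s hs => ?_)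
    have hs1 := (Finset.mem_Icc.1 (hGs hs)).1
    have hMs : 1 ≤ M * s := Nat.mul_pos hM1 hs1
    obtain ⟨p, hp, hYp, ⟨a, ha1, ha2, hpa⟩, hωp⟩ := hω Y (M * s) hnY hMs (hMd.mul_right s)
    intro hmem
    refine hωp (Set.mem_iInter₂.1 hmem p ?_)
    refine mem_W.2 ⟨⟨hYp, ?_⟩, hp, a, Finset.mem_Icc.2 ⟨ha1, ha2⟩, hpa⟩
    have := Nat.le_of_dvd (by omega) hpa
    omega
  refine (measure_mono hsub).trans ?_
  have hreal : μ (⋂ s ∈ Gs, (A s)ᶜ) = ENNReal.ofReal (μ.real (⋂ s ∈ Gs, (A s)ᶜ)) :=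
    (ofReal_measureReal (measure_ne_top μ _)).symm
  rw [hreal, ← ENNReal.ofReal_coe_nnreal]
  refine ENNReal.ofReal_le_ofReal ?_
  refine le_trans ?_ (hj1 j hjj1)
  -- the second moment
  have hsm := second_moment μ Gs A (fun i _ => hAm i) (fun i j => Disjoint (V i) (V j))
    ((K * (n * (2 * (S / 2 ^ y))) : ℕ) : ℝ) (fun s hs => by
      have h1 := conflict (n := n) (K := K) hpM (V s) (fun p hp =>
        ⟨hVp s p hp, (mem_W.1 hp).1.1, ((hstr s hs).1 p hp).1⟩) (hstr s hs).2 hydvd hS1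
      have h2 : (Gs.filter (fun j => ¬ Disjoint (V s) (V j))).card ≤
          ((Icc 1 S).filter (fun s' => ¬ Disjoint (V s) (W Y n (M * s')))).card :=
        Finset.card_le_card (Finset.filter_subset_filter _ hGs)
      exact_mod_cast h2.trans h1)
    (fun s _ s' _ hd => by
      have e1 : A s ∩ A s' = ⋂ p ∈ V s ∪ V s', E p := by
        ext ω
        rw [Set.mem_inter_iff]
        simp only [hA, Set.mem_iInter, Finset.mem_union]
        exact ⟨fun h p hp => hp.elim (h.1 p) (h.2 p),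
          fun h => ⟨fun p hp => h p (Or.inl hp), fun p hp => h p (Or.inr hp)⟩⟩
      rw [e1, hind _ (fun p hp => (Finset.mem_union.1 hp).elim (hVp s p) (hVp s' p)),
        hind _ (hVp s), hind _ (hVp s'), Finset.prod_union hd])
  set w : ℝ := (2 : ℝ) ^ (((2 ^ j : ℕ) : ℝ) / (4 * m)) with hw
  have hw0 : 0 < w := Real.rpow_pos_of_pos (by norm_num) _
  -- each event is not too rare
  have hlow : ∀ s ∈ Gs, w⁻¹ ≤ μ.real (A s) := by
    intro s hs
    set β : ℝ := ((2 : ℝ) ^ (25 * X)) ^ (-(1 / (100 * (m : ℝ) * K))) with hβ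
    have hβ0 : 0 < β := Real.rpow_pos_of_pos (by positivity) _
    have hβ1 : β ≤ 1 := by
      refine Real.rpow_le_one_of_one_le_of_nonpos (one_le_pow₀ (by norm_num)) ?_
      have : 0 < 1 / (100 * (m : ℝ) * K) := by positivity
      linarith
    have hβ' : β = (2 : ℝ) ^ (((25 * X : ℕ) : ℝ) * (-(1 / (100 * (m : ℝ) * K)))) := by
      rw [hβ, Real.rpow_mul (by norm_num), Real.rpow_natCast]
    have hβK : w⁻¹ = β ^ K := by
      rw [hβ', hw, ← Real.rpow_natCast, ← Real.rpow_mul (by norm_num),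
        ← Real.rpow_neg (by norm_num)]
      congr 1
      rw [hX]
      push_cast
      field_simp
      ring
    rw [hβK, hind _ (hVp s)]
    calc β ^ K ≤ β ^ (V s).card := pow_le_pow_of_le_one hβ0.le hβ1 (hstr s hs).2
      _ = ∏ _p ∈ V s, β := by rw [Finset.prod_const]
      _ ≤ ∏ p ∈ V s, μ.real (E p) := by
        refine Finset.prod_le_prod (fun p _ => hβ0.le) (fun p hp => ?_)
        obtain ⟨h1, h2⟩ := (hstr s hs).1 p hp
        have hpp := hVp s p hp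
        have h3 : q0 ≤ p := by
          have : y < 2 ^ y := Nat.lt_two_pow_self
          omega
        refine le_trans ?_ (hq0 p hpp h3)
        refine Real.rpow_le_rpow_of_nonpos (by exact_mod_cast hpp.pos)
          (by exact_mod_cast h2) ?_
        have : 0 < 1 / (100 * (m : ℝ) * K) := by positivity
        linarith
  have hm0' : (Gs.card : ℝ) * w⁻¹ ≤ ∑ s ∈ Gs, μ.real (A s) := by
    rw [← nsmul_eq_mul]
    exact Finset.card_nsmul_le_sum _ _ _ hlow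
  have hfb : (4 : ℝ) ^ b ≤ w := by
    have h0 : (4 : ℝ) ^ b = (2 : ℝ) ^ (2 * (b : ℝ)) := by
      rw [Real.rpow_mul (by norm_num), Real.rpow_natCast]
      norm_num
    rw [hw, h0]
    refine Real.rpow_le_rpow_of_exponent_le (by norm_num) ?_
    rw [le_div_iff₀ (by positivity)]
    have h1 : 8 * m * b ≤ X := by
      have hn0 : 0 < 25 * n := by omega
      have h2 : (25 * n) * (8 * m * b) ≤ (25 * n) * X := by
        calc (25 * n) * (8 * m * b) = 200 * n * m * b := by ring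
          _ ≤ n * (25 * X) := hlb
          _ = (25 * n) * X := by ring
      exact Nat.le_of_mul_le_mul_left h2 hn0
    have h3 : (8 : ℝ) * m * b ≤ X := by exact_mod_cast h1
    have h4 : ((X : ℕ) : ℝ) = ((2 ^ j : ℕ) : ℝ) := rfl
    rw [← h4]
    linarith
  have hy4 : w ^ 4 ≤ 2 * (2 : ℝ) ^ y := by
    have h1 : (2 : ℝ) * 2 ^ y = (2 : ℝ) ^ (((y + 1 : ℕ) : ℝ)) := by
      rw [Real.rpow_natCast, pow_succ]
      ring
    rw [h1, hw, ← Real.rpow_natCast, ← Real.rpow_mul (by norm_num)]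
    refine Real.rpow_le_rpow_of_exponent_le (by norm_num) ?_
    have h2 : X < m * (y + 1) := by
      rw [hy]
      exact Nat.lt_mul_div_succ X (by omega)
    have h3 : (X : ℝ) ≤ m * ((y + 1 : ℕ) : ℝ) := by exact_mod_cast h2.le
    have h4 : ((X : ℕ) : ℝ) = ((2 ^ j : ℕ) : ℝ) := rfl
    rw [← h4]
    push_cast at h3 ⊢
    rw [div_mul_eq_mul_div, div_le_iff₀ (by positivity)]
    linarith
  have hHy : ((K * (n * (2 * (S / 2 ^ y))) : ℕ) : ℝ) * (2 : ℝ) ^ y = (2 * K * n) * (S : ℝ) := by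
    have h1 : S / 2 ^ y * 2 ^ y = S := Nat.div_mul_cancel hydvd
    have h2 : ((S / 2 ^ y : ℕ) : ℝ) * (2 : ℝ) ^ y = S := by exact_mod_cast h1
    push_cast
    push_cast at h2
    linear_combination (2 * (K : ℝ) * n) * h2
  have hfin := numeric (Pr := μ.real (⋂ s ∈ Gs, (A s)ᶜ)) (m0 := ∑ s ∈ Gs, μ.real (A s))
    (H := ((K * (n * (2 * (S / 2 ^ y))) : ℕ) : ℝ)) (S := (S : ℝ)) (c := (Gs.card : ℝ)) (w := w)
    (e := Real.exp (8 * n * (j + 2))) (k := 2 * K * n) (y4 := (2 : ℝ) ^ y) (fb := (4 : ℝ) ^ b)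
    measureReal_nonneg hw0 (Real.exp_pos _) (by exact_mod_cast hS1) (Nat.cast_nonneg _) hsm
    hm0' hHy (by positivity) hfb hy4 hsize (by positivity) (by positivity)
  refine hfin.trans (le_of_eq ?_)
  ring

end Pool.Agent.helper59.Sel
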