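import Pool.Agent.helper59.TP.SelCount

/-!
# Selberg's weights: a number `s` with few small primes
-/

set_option autoImplicit false

namespace Pool.Agent.helper59.Sel

open Finset

theorem sum_sq (T0 : Finset ℕ) (D : Finset (Finset ℕ)) (B : ℕ → Finset ℕ) (l : Finset ℕ → ℝ) :
    ∑ s ∈ T0, (∑ A ∈ D with A ⊆ B s, l A) ^ 2 =
      ∑ A ∈ D, ∑ A' ∈ D, l A * l A' * ((T0.filter (fun s => A ∪ A' ⊆ B s)).card : ℝ) := by
  have h1 : ∀ s ∈ T0, (∑ A ∈ D with A ⊆ B s, l A) ^ 2 =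
      ∑ A ∈ D, ∑ A' ∈ D, (if A ∪ A' ⊆ B s then l A * l A' else 0) := by
    intro s _
    rw [sq, Finset.sum_filter, Finset.sum_mul_sum]
    refine Finset.sum_congr rfl (fun A _ => Finset.sum_congr rfl (fun A' _ => ?_))
    by_cases h : A ⊆ B s
    · by_cases h' : A' ⊆ B s
      · rw [if_pos h, if_pos h', if_pos (Finset.union_subset h h')]
      · have h2 : ¬ A ∪ A' ⊆ B s := fun h2 => h' (Finset.subset_union_right.trans h2)
        rw [if_pos h, if_neg h', if_neg h2, mul_zero]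
    · have h2 : ¬ A ∪ A' ⊆ B s := fun h2 => h (Finset.subset_union_left.trans h2)
      rw [if_neg h, if_neg h2, zero_mul]
  rw [Finset.sum_congr rfl h1, Finset.sum_comm]
  refine Finset.sum_congr rfl (fun A _ => ?_)
  rw [Finset.sum_comm]
  refine Finset.sum_congr rfl (fun A' _ => ?_)
  rw [← Finset.sum_filter, Finset.sum_const, nsmul_eq_mul]
  ring

theorem approx (D : Finset (Finset ℕ)) (l N Φ : Finset ℕ → ℝ) (b e c : ℝ) (hb : 0 ≤ b)
    (hl : ∀ A ∈ D, |l A| ≤ b)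
    (hN : ∀ A ∈ D, ∀ B ∈ D, |N (A ∪ B) - c * Φ (A ∪ B)| ≤ e) :
    |∑ A ∈ D, ∑ B ∈ D, l A * l B * N (A ∪ B) - c * ∑ A ∈ D, ∑ B ∈ D, l A * l B * Φ (A ∪ B)| ≤
      (D.card : ℝ) ^ 2 * (b ^ 2 * e) := by
  have h1 : ∑ A ∈ D, ∑ B ∈ D, l A * l B * N (A ∪ B) -
      c * ∑ A ∈ D, ∑ B ∈ D, l A * l B * Φ (A ∪ B) =
      ∑ A ∈ D, ∑ B ∈ D, l A * l B * (N (A ∪ B) - c * Φ (A ∪ B)) := by
    rw [Finset.mul_sum, ← Finset.sum_sub_distrib]
    refine Finset.sum_congr rfl (fun A _ => ?_)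
    rw [Finset.mul_sum, ← Finset.sum_sub_distrib]
    refine Finset.sum_congr rfl (fun B _ => ?_)
    ring
  rw [h1]
  calc |∑ A ∈ D, ∑ B ∈ D, l A * l B * (N (A ∪ B) - c * Φ (A ∪ B))|
      ≤ ∑ A ∈ D, ∑ B ∈ D, |l A * l B * (N (A ∪ B) - c * Φ (A ∪ B))| :=
        (Finset.abs_sum_le_sum_abs _ _).trans
          (Finset.sum_le_sum (fun A _ => Finset.abs_sum_le_sum_abs _ _))
    _ ≤ ∑ _A ∈ D, ∑ _B ∈ D, b ^ 2 * e := by
        refine Finset.sum_le_sum (fun A hA => Finset.sum_le_sum (fun B hB => ?_))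
        rw [abs_mul, abs_mul, sq]
        have h2 := hl A hA
        have h3 := hl B hB
        have h4 := hN A hA B hB
        exact mul_le_mul (mul_le_mul h2 h3 (abs_nonneg _) hb) h4 (abs_nonneg _)
          (mul_nonneg hb hb)
    _ = (D.card : ℝ) ^ 2 * (b ^ 2 * e) := by
        rw [Finset.sum_const, Finset.sum_const, nsmul_eq_mul, nsmul_eq_mul]
        ring

/-- the primes in `(Y, R]` -/
def P (Y R : ℕ) : Finset ℕ := (Ioc Y R).filter Nat.Prime

/-- the sets of primes in `(Y, R]` with product at most `R` -/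
def DD (Y R : ℕ) : Finset (Finset ℕ) := (P Y R).powerset.filter (fun A => ∏ p ∈ A, p ≤ R)

/-- the densities -/
noncomputable def f (n : ℕ) (p : ℕ) : ℝ := if 2 * n < p then (n : ℝ) / p else 1 / 2

theorem mem_P {Y R p : ℕ} : p ∈ P Y R ↔ (Y < p ∧ p ≤ R) ∧ p.Prime := by
  unfold P
  rw [Finset.mem_filter, Finset.mem_Ioc]

theorem mem_DD {Y R : ℕ} {A : Finset ℕ} : A ∈ DD Y R ↔ A ⊆ P Y R ∧ ∏ p ∈ A, p ≤ R := by
  unfold DD
  rw [Finset.mem_filter, Finset.mem_powerset]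

theorem DD_down (Y R : ℕ) : ∀ A ∈ DD Y R, ∀ C, C ⊆ A → C ∈ DD Y R := by
  intro A hA C hC
  obtain ⟨h1, h2⟩ := mem_DD.1 hA
  refine mem_DD.2 ⟨hC.trans h1, le_trans ?_ h2⟩
  exact Finset.prod_le_prod_of_subset_of_one_le' hC
    (fun p hp _ => (mem_P.1 (h1 hp)).2.one_lt.le)

theorem empty_mem_DD {Y R : ℕ} (hR : 1 ≤ R) : ∅ ∈ DD Y R :=
  mem_DD.2 ⟨Finset.empty_subset _, by simpa using hR⟩

theorem f_pos {n : ℕ} (hn : 1 ≤ n) (p : ℕ) : 0 < f n p := by
  unfold f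
  split_ifs with h
  · have h1 : (0 : ℝ) < n := by exact_mod_cast hn
    have h2 : (0 : ℝ) < p := by
      have : 0 < p := by omega
      exact_mod_cast this
    positivity
  · norm_num

theorem f_lt {n : ℕ} (p : ℕ) : f n p < 1 := by
  unfold f
  split_ifs with h
  · have h2 : (0 : ℝ) < p := by
      have : 0 < p := by omega
      exact_mod_cast this
    rw [div_lt_one h2]
    exact_mod_cast (by omega : n < p)
  · norm_num

theorem f_eq {n p : ℕ} (h : 2 * n < p) : f n p = (n : ℝ) / p := if_pos h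

theorem F_eq {n Y R : ℕ} (hY : 2 * n ≤ Y) {A : Finset ℕ} (hA : A ⊆ P Y R) :
    F (f n) A = ∏ p ∈ A, ((n : ℝ) / p) := by
  unfold F
  refine Finset.prod_congr rfl (fun p hp => f_eq ?_)
  have := (mem_P.1 (hA hp)).1.1
  omega

theorem prod_pos' {Y R : ℕ} {A : Finset ℕ} (hA : A ⊆ P Y R) : 1 ≤ ∏ p ∈ A, p := by
  have : 0 < ∏ p ∈ A, p := Finset.prod_pos (fun p hp => (mem_P.1 (hA hp)).2.pos)
  omega

theorem one_div_F_le {n Y R : ℕ} (hn : 1 ≤ n) (hY : 2 * n ≤ Y) {A : Finset ℕ}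
    (hA : A ∈ DD Y R) : 1 / F (f n) A ≤ R := by
  obtain ⟨h1, h2⟩ := mem_DD.1 hA
  rw [F_eq hY h1, one_div, ← Finset.prod_inv_distrib]
  have h3 : ∏ p ∈ A, ((n : ℝ) / p)⁻¹ ≤ ∏ p ∈ A, (p : ℝ) := by
    refine Finset.prod_le_prod (fun p _ => by positivity) (fun p _ => ?_)
    rw [inv_div]
    exact div_le_self (Nat.cast_nonneg p) (by exact_mod_cast hn)
  refine h3.trans ?_
  rw [← Nat.cast_prod]
  exact Nat.cast_le.2 h2

theorem card_DD_le (Y R : ℕ) : (DD Y R).card ≤ R := by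
  have h : (DD Y R).card ≤ (Icc 1 R).card := by
    refine Finset.card_le_card_of_injOn (fun A => ∏ p ∈ A, p) ?_ ?_
    · intro A hA
      obtain ⟨h1, h2⟩ := mem_DD.1 (Finset.mem_coe.1 hA)
      exact Finset.mem_coe.2 (Finset.mem_Icc.2 ⟨prod_pos' h1, h2⟩)
    · intro A hA B hB hAB
      obtain ⟨h1, -⟩ := mem_DD.1 (Finset.mem_coe.1 hA)
      obtain ⟨h2, -⟩ := mem_DD.1 (Finset.mem_coe.1 hB)
      have e1 := Nat.primeFactors_prod (fun p hp => (mem_P.1 (h1 hp)).2)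
      have e2 := Nat.primeFactors_prod (fun p hp => (mem_P.1 (h2 hp)).2)
      have hAB' : ∏ p ∈ A, p = ∏ p ∈ B, p := hAB
      rw [← e1, ← e2, hAB']
  rwa [Nat.card_Icc, Nat.add_sub_cancel] at h

theorem prod_union_le {Y R : ℕ} {A B : Finset ℕ} (hA : A ∈ DD Y R) (hB : B ∈ DD Y R) :
    ∏ p ∈ A ∪ B, p ≤ R ^ 2 := by
  obtain ⟨h1, h2⟩ := mem_DD.1 hA
  obtain ⟨h3, h4⟩ := mem_DD.1 hB
  have h5 : (∏ p ∈ A ∪ B, p) * ∏ p ∈ A ∩ B, p = (∏ p ∈ A, p) * ∏ p ∈ B, p :=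
    Finset.prod_union_inter
  have h6 : 1 ≤ ∏ p ∈ A ∩ B, p := prod_pos' (Finset.inter_subset_left.trans h1)
  calc ∏ p ∈ A ∪ B, p ≤ (∏ p ∈ A ∪ B, p) * ∏ p ∈ A ∩ B, p := Nat.le_mul_of_pos_right _ h6
    _ = (∏ p ∈ A, p) * ∏ p ∈ B, p := h5
    _ ≤ R * R := Nat.mul_le_mul h2 h4
    _ = R ^ 2 := (sq R).symm

theorem pow_card_le {n Y R : ℕ} (hY : 2 * n ≤ Y) {A : Finset ℕ} (hA : A ⊆ P Y R) :
    n ^ A.card ≤ ∏ p ∈ A, p := by
  refine Finset.pow_card_le_prod A (fun p => p) n (fun p hp => ?_)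
  have := (mem_P.1 (hA hp)).1.1
  omega

theorem G_le {n Y R : ℕ} (hn : 1 ≤ n) : G (f n) (DD Y R) ≤ R := by
  have h1 : ∀ E ∈ DD Y R, K (f n) E ≤ 1 := by
    intro E _
    unfold K
    refine Finset.prod_le_one (fun p _ => (inv_pos.2 (h_pos (f_pos hn) f_lt p)).le)
      (fun p _ => ?_)
    apply inv_le_one_of_one_le₀
    have h2 : f n p ≤ 1 / 2 := by
      unfold f
      split_ifs with h
      · have h3 : (0 : ℝ) < p := by
          have : 0 < p := by omega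
          exact_mod_cast this
        rw [div_le_div_iff₀ h3 (by norm_num)]
        have h4 : ((2 * n : ℕ) : ℝ) < p := by exact_mod_cast h
        push_cast at h4
        linarith
      · exact le_refl _
    have h3 : 2 ≤ 1 / f n p := by
      rw [le_div_iff₀ (f_pos hn p)]
      linarith
    linarith
  unfold G
  calc ∑ E ∈ DD Y R, K (f n) E ≤ ∑ _E ∈ DD Y R, (1 : ℝ) := Finset.sum_le_sum h1
    _ = ((DD Y R).card : ℝ) := by rw [Finset.sum_const, nsmul_eq_mul, mul_one]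
    _ ≤ R := by exact_mod_cast card_DD_le Y R

/-- the primes in `(Y, R]` which divide one of the `a + M s` -/
def B (n Y M R s : ℕ) : Finset ℕ := (P Y R).filter (fun p => ∃ a ∈ Icc 1 n, p ∣ a + M * s)

theorem subset_B {n Y M R s : ℕ} {A : Finset ℕ} (hA : A ⊆ P Y R) :
    A ⊆ B n Y M R s ↔ ∀ p ∈ A, ∃ a ∈ Icc 1 n, p ∣ a + M * s :=
  ⟨fun h p hp => (Finset.mem_filter.1 (h hp)).2,
    fun h p hp => Finset.mem_filter.2 ⟨hA hp, h p hp⟩⟩

theorem count_B {n Y M R : ℕ} (S : ℕ) (hY : 2 * n ≤ Y)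
    (hM : ∀ p, p.Prime → Y < p → ¬ p ∣ M) {A : Finset ℕ} (hA : A ⊆ P Y R) :
    |(((Icc 1 S).filter (fun s => A ⊆ B n Y M R s)).card : ℝ) - (S : ℝ) * F (f n) A| ≤
      (n : ℝ) ^ A.card := by
  have h1 := count_prod n M S A (fun p hp => by
    obtain ⟨⟨h2, h3⟩, h4⟩ := mem_P.1 (hA hp)
    exact ⟨h4, by omega, hM p h4 h2⟩)
  rw [← F_eq hY hA] at h1
  have e : (Icc 1 S).filter (fun s => A ⊆ B n Y M R s) =
      (Icc 1 S).filter (fun s => ∀ p ∈ A, ∃ a ∈ Icc 1 n, p ∣ a + M * s) :=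
    Finset.filter_congr (fun s _ => subset_B hA)
  rw [e]
  exact h1

theorem lower {n Y M R : ℕ} (S : ℕ) (hn : 1 ≤ n) (hY : 2 * n ≤ Y) (hR : 1 ≤ R)
    (hM : ∀ p, p.Prime → Y < p → ¬ p ∣ M) :
    (S : ℝ) / G (f n) (DD Y R) - (R : ℝ) ^ 6 ≤
      ∑ s ∈ Icc 1 S, (∑ A ∈ DD Y R with A ⊆ B n Y M R s, lam (f n) (DD Y R) A) ^ 2 := by
  rw [sum_sq]
  have h1 := approx (DD Y R) (lam (f n) (DD Y R))
    (fun A => (((Icc 1 S).filter (fun s => A ⊆ B n Y M R s)).card : ℝ)) (F (f n))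
    (R : ℝ) ((R : ℝ) ^ 2) (S : ℝ) (Nat.cast_nonneg R)
    (fun A hA => (lam_abs (f_pos hn) f_lt _ ⟨∅, empty_mem_DD hR⟩ A).trans
      (one_div_F_le hn hY hA))
    (fun A hA A' hA' => by
      have hAA : A ∪ A' ⊆ P Y R := Finset.union_subset (mem_DD.1 hA).1 (mem_DD.1 hA').1
      refine (count_B S hY hM hAA).trans ?_
      have h2 := (pow_card_le hY hAA).trans (prod_union_le hA hA')
      exact_mod_cast h2)
  rw [main1 (f_pos hn) f_lt (DD Y R) (DD_down Y R) ⟨∅, empty_mem_DD hR⟩] at h1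
  have h2 : ((DD Y R).card : ℝ) ^ 2 * ((R : ℝ) ^ 2 * (R : ℝ) ^ 2) ≤ (R : ℝ) ^ 6 := by
    have h3 : ((DD Y R).card : ℝ) ≤ R := by exact_mod_cast card_DD_le Y R
    have h4 : ((DD Y R).card : ℝ) ^ 2 ≤ (R : ℝ) ^ 2 :=
      pow_le_pow_left₀ (Nat.cast_nonneg _) h3 2
    calc ((DD Y R).card : ℝ) ^ 2 * ((R : ℝ) ^ 2 * (R : ℝ) ^ 2)
        ≤ (R : ℝ) ^ 2 * ((R : ℝ) ^ 2 * (R : ℝ) ^ 2) :=
          mul_le_mul_of_nonneg_right h4 (by positivity)
      _ = (R : ℝ) ^ 6 := by ring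
  have h5 := (abs_le.1 (h1.trans h2)).1
  rw [mul_one_div] at h5
  linarith

theorem split_sum (Y R : ℕ) (g : ℕ → ℝ) (p : ℕ) (Bs : Finset ℕ) (hp : p ∈ Bs) :
    ∑ A ∈ DD Y R with A ⊆ Bs, lam g (DD Y R) A =
      ∑ A ∈ (DD Y R).filter (fun A => p ∉ A) with A ⊆ Bs, lamp g (DD Y R) p A := by
  unfold lamp
  rw [Finset.sum_add_distrib]
  rw [← Finset.sum_filter_add_sum_filter_not ((DD Y R).filter (fun A => A ⊆ Bs))
    (fun A => p ∉ A)]
  congr 1
  · rw [Finset.filter_filter, Finset.filter_filter]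
    refine Finset.sum_congr (Finset.filter_congr (fun A _ => and_comm)) (fun _ _ => rfl)
  · have h1 : ∑ A ∈ (DD Y R).filter (fun A => p ∉ A) with A ⊆ Bs,
        lam g (DD Y R) (insert p A) =
        ∑ A ∈ ((DD Y R).filter (fun A => p ∉ A)).filter (fun A => A ⊆ Bs)
          with insert p A ∈ DD Y R, lam g (DD Y R) (insert p A) := by
      symm
      refine Finset.sum_filter_of_ne (fun A _ hne => ?_)
      by_contra hcon
      exact hne (lam_zero g (DD Y R) (DD_down Y R) _ hcon)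
    rw [h1]
    symm
    refine Finset.sum_nbij (fun A => insert p A) ?_ ?_ ?_ (fun _ _ => rfl)
    · intro A hA
      simp only [Finset.mem_filter] at hA ⊢
      exact ⟨⟨hA.2, Finset.insert_subset hp hA.1.2⟩, not_not.2 (Finset.mem_insert_self p A)⟩
    · intro A hA A' hA' h
      have hA1 := (Finset.mem_coe.1 hA)
      have hA2 := (Finset.mem_coe.1 hA')
      simp only [Finset.mem_filter] at hA1 hA2
      have h' : insert p A = insert p A' := h
      rw [← Finset.erase_insert hA1.1.1.2, h', Finset.erase_insert hA2.1.1.2]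
    · intro A hA
      have hA1 := (Finset.mem_coe.1 hA)
      simp only [Finset.mem_filter, not_not] at hA1
      refine ⟨A.erase p, ?_, Finset.insert_erase hA1.2⟩
      rw [Finset.mem_coe]
      simp only [Finset.mem_filter]
      refine ⟨⟨⟨DD_down Y R A hA1.1.1 _ (Finset.erase_subset p A), Finset.notMem_erase p A⟩,
        (Finset.erase_subset p A).trans hA1.1.2⟩, ?_⟩
      rw [Finset.insert_erase hA1.2]
      exact hA1.1.1

theorem upper {n Y M R : ℕ} (S : ℕ) (hn : 1 ≤ n) (hY : 2 * n ≤ Y) (hYR : Y ≤ R) (hR : 1 ≤ R)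
    (hM : ∀ p, p.Prime → Y < p → ¬ p ∣ M) (p : ℕ) (hp : p ∈ P Y R) :
    ∑ s ∈ Icc 1 S with p ∈ B n Y M R s,
      (∑ A ∈ DD Y R with A ⊆ B n Y M R s, lam (f n) (DD Y R) A) ^ 2 ≤
      (S : ℝ) * (f n p * ((∑ C ∈ DD Y R with p ∉ C ∧ insert p C ∉ DD Y R, K (f n) C) /
        G (f n) (DD Y R) ^ 2)) + 4 * (R : ℝ) ^ 7 := by
  have h0 : ∑ s ∈ Icc 1 S with p ∈ B n Y M R s,
      (∑ A ∈ DD Y R with A ⊆ B n Y M R s, lam (f n) (DD Y R) A) ^ 2 =
      ∑ s ∈ Icc 1 S with p ∈ B n Y M R s,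
      (∑ A ∈ (DD Y R).filter (fun A => p ∉ A) with A ⊆ B n Y M R s,
        lamp (f n) (DD Y R) p A) ^ 2 := by
    refine Finset.sum_congr rfl (fun s hs => ?_)
    rw [split_sum Y R (f n) p (B n Y M R s) (Finset.mem_filter.1 hs).2]
  rw [h0, sum_sq]
  have hpY : Y < p := (mem_P.1 hp).1.1
  have hpR : p ≤ R := (mem_P.1 hp).1.2
  have h1 := approx ((DD Y R).filter (fun A => p ∉ A)) (lamp (f n) (DD Y R) p)
    (fun A => ((((Icc 1 S).filter (fun s => p ∈ B n Y M R s)).filter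
      (fun s => A ⊆ B n Y M R s)).card : ℝ)) (F (f n))
    (2 * (R : ℝ)) ((R : ℝ) ^ 3) ((S : ℝ) * f n p) (by positivity)
    (fun A hA => by
      obtain ⟨hA1, hA2⟩ := Finset.mem_filter.1 hA
      unfold lamp
      have e1 : |lam (f n) (DD Y R) A| ≤ R :=
        (lam_abs (f_pos hn) f_lt _ ⟨∅, empty_mem_DD hR⟩ A).trans (one_div_F_le hn hY hA1)
      have e2 : |lam (f n) (DD Y R) (insert p A)| ≤ R := by
        by_cases h : insert p A ∈ DD Y R
        · exact (lam_abs (f_pos hn) f_lt _ ⟨∅, empty_mem_DD hR⟩ _).trans (one_div_F_le hn hY h)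
        · rw [lam_zero (f n) (DD Y R) (DD_down Y R) _ h, abs_zero]
          exact Nat.cast_nonneg R
      calc |lam (f n) (DD Y R) A + lam (f n) (DD Y R) (insert p A)|
          ≤ |lam (f n) (DD Y R) A| + |lam (f n) (DD Y R) (insert p A)| := abs_add_le _ _
        _ ≤ 2 * (R : ℝ) := by linarith)
    (fun A hA A' hA' => by
      obtain ⟨hA1, hA2⟩ := Finset.mem_filter.1 hA
      obtain ⟨hA3, hA4⟩ := Finset.mem_filter.1 hA'
      have hAA : A ∪ A' ⊆ P Y R := Finset.union_subset (mem_DD.1 hA1).1 (mem_DD.1 hA3).1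
      have hpAA : p ∉ A ∪ A' := by
        rw [Finset.mem_union, not_or]
        exact ⟨hA2, hA4⟩
      have e1 : ((Icc 1 S).filter (fun s => p ∈ B n Y M R s)).filter
          (fun s => A ∪ A' ⊆ B n Y M R s) =
          (Icc 1 S).filter (fun s => insert p (A ∪ A') ⊆ B n Y M R s) := by
        rw [Finset.filter_filter]
        refine Finset.filter_congr (fun s _ => ?_)
        rw [Finset.insert_subset_iff]
      have e2 : F (f n) (insert p (A ∪ A')) = f n p * F (f n) (A ∪ A') :=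
        Finset.prod_insert hpAA
      have e3 := count_B (n := n) (M := M) S hY hM (Finset.insert_subset hp hAA)
      rw [e2, ← mul_assoc] at e3
      rw [e1]
      refine e3.trans ?_
      rw [Finset.card_insert_of_notMem hpAA, pow_succ]
      have e4 := (pow_card_le hY hAA).trans (prod_union_le hA1 hA3)
      have e5 : n ^ (A ∪ A').card * n ≤ R ^ 2 * R := Nat.mul_le_mul e4 (by omega)
      have e6 : n ^ (A ∪ A').card * n ≤ R ^ 3 := by
        calc n ^ (A ∪ A').card * n ≤ R ^ 2 * R := e5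
          _ = R ^ 3 := by ring
      exact_mod_cast e6)
  rw [main2 (f_pos hn) f_lt (DD Y R) (DD_down Y R) p] at h1
  have h2 : (((DD Y R).filter (fun A => p ∉ A)).card : ℝ) ^ 2 *
      ((2 * (R : ℝ)) ^ 2 * (R : ℝ) ^ 3) ≤ 4 * (R : ℝ) ^ 7 := by
    have h3 : (((DD Y R).filter (fun A => p ∉ A)).card : ℝ) ≤ R := by
      exact_mod_cast (Finset.card_filter_le _ _).trans (card_DD_le Y R)
    have h4 : (((DD Y R).filter (fun A => p ∉ A)).card : ℝ) ^ 2 ≤ (R : ℝ) ^ 2 :=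
      pow_le_pow_left₀ (Nat.cast_nonneg _) h3 2
    calc (((DD Y R).filter (fun A => p ∉ A)).card : ℝ) ^ 2 * ((2 * (R : ℝ)) ^ 2 * (R : ℝ) ^ 3)
        ≤ (R : ℝ) ^ 2 * ((2 * (R : ℝ)) ^ 2 * (R : ℝ) ^ 3) :=
          mul_le_mul_of_nonneg_right h4 (by positivity)
      _ = 4 * (R : ℝ) ^ 7 := by ring
  have h5 := (abs_le.1 (h1.trans h2)).2
  rw [mul_assoc (S : ℝ)] at h5
  linarith

/-- the sieve: some `s ≤ R ^ 12` with few primes up to `z` -/
theorem exists_s {n Y M R z : ℕ} (hn : 1 ≤ n) (hY : 2 * n ≤ Y) (hYR : Y ≤ R) (hR : 2 ≤ R)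
    (hM : ∀ p, p.Prime → Y < p → ¬ p ∣ M) (u : ℕ → ℝ) (ε c : ℝ) (hε : 0 < ε) (hc : 0 ≤ c)
    (hu : ∀ p, Y < p → u p ≤ ε)
    (hT : ∑ p ∈ P Y R with p ≤ z,
      f n p * ∑ C ∈ DD Y R with p ∉ C ∧ insert p C ∉ DD Y R, K (f n) C ≤
        c * G (f n) (DD Y R)) :
    ∃ s ∈ Icc 1 (R ^ 12), ∑ p ∈ (P Y R).filter (fun p => p ≤ z) with p ∈ B n Y M R s, u p ≤
      2 * ε * (c + 1) := by
  by_contra hcon
  push Not at hcon
  set G0 := G (f n) (DD Y R) with hG0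
  have hGpos : 0 < G0 := G_pos (f_pos hn) f_lt _ ⟨∅, empty_mem_DD (by omega)⟩
  have hGle : G0 ≤ R := G_le hn
  set L : ℕ → ℝ := fun s => (∑ A ∈ DD Y R with A ⊆ B n Y M R s, lam (f n) (DD Y R) A) ^ 2
    with hL
  have hL0 : ∀ s, 0 ≤ L s := fun s => sq_nonneg _
  set S := R ^ 12 with hS
  have hlow : (S : ℝ) / G0 - (R : ℝ) ^ 6 ≤ ∑ s ∈ Icc 1 S, L s :=
    lower S hn hY (by omega) hM
  -- the upper bound
  have hup : ∑ s ∈ Icc 1 S, L s *
      ∑ p ∈ (P Y R).filter (fun p => p ≤ z) with p ∈ B n Y M R s, u p ≤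
      ε * ((S : ℝ) * (c / G0) + 4 * (R : ℝ) ^ 8) := by
    have e1 : ∑ s ∈ Icc 1 S, L s *
        ∑ p ∈ (P Y R).filter (fun p => p ≤ z) with p ∈ B n Y M R s, u p =
        ∑ p ∈ (P Y R).filter (fun p => p ≤ z), u p *
          ∑ s ∈ Icc 1 S with p ∈ B n Y M R s, L s := by
      have e2 : ∀ s ∈ Icc 1 S, L s *
          ∑ p ∈ (P Y R).filter (fun p => p ≤ z) with p ∈ B n Y M R s, u p =
          ∑ p ∈ (P Y R).filter (fun p => p ≤ z),
            (if p ∈ B n Y M R s then u p * L s else 0) := by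
        intro s _
        rw [Finset.sum_filter, Finset.mul_sum]
        refine Finset.sum_congr rfl (fun p _ => ?_)
        split_ifs
        · ring
        · ring
      rw [Finset.sum_congr rfl e2, Finset.sum_comm]
      refine Finset.sum_congr rfl (fun p _ => ?_)
      rw [Finset.sum_filter, Finset.mul_sum]
      refine Finset.sum_congr rfl (fun s _ => ?_)
      split_ifs
      · ring
      · ring
    rw [e1]
    have e3 : ∀ p ∈ (P Y R).filter (fun p => p ≤ z),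
        u p * ∑ s ∈ Icc 1 S with p ∈ B n Y M R s, L s ≤
        ε * ((S : ℝ) * (f n p *
          ((∑ C ∈ DD Y R with p ∉ C ∧ insert p C ∉ DD Y R, K (f n) C) / G0 ^ 2)) +
            4 * (R : ℝ) ^ 7) := by
      intro p hp
      have hpP := (Finset.mem_filter.1 hp).1
      have hpY := (mem_P.1 hpP).1.1
      have e4 := upper S hn hY hYR (by omega) hM p hpP
      have e5 : 0 ≤ ∑ s ∈ Icc 1 S with p ∈ B n Y M R s, L s :=
        Finset.sum_nonneg (fun s _ => hL0 s)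
      exact mul_le_mul (hu p hpY) e4 e5 hε.le
    refine (Finset.sum_le_sum e3).trans ?_
    rw [← Finset.mul_sum]
    refine mul_le_mul_of_nonneg_left ?_ hε.le
    rw [Finset.sum_add_distrib, ← Finset.mul_sum]
    refine add_le_add ?_ ?_
    · refine mul_le_mul_of_nonneg_left ?_ (Nat.cast_nonneg S)
      have e6 : ∑ p ∈ P Y R with p ≤ z, f n p *
          ((∑ C ∈ DD Y R with p ∉ C ∧ insert p C ∉ DD Y R, K (f n) C) / G0 ^ 2) =
          (∑ p ∈ P Y R with p ≤ z, f n p *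
          ∑ C ∈ DD Y R with p ∉ C ∧ insert p C ∉ DD Y R, K (f n) C) / G0 ^ 2 := by
        rw [Finset.sum_div]
        exact Finset.sum_congr rfl (fun p _ => by rw [mul_div_assoc])
      rw [e6, div_le_div_iff₀ (by positivity) hGpos]
      have e7 := mul_le_mul_of_nonneg_right hT hGpos.le
      calc _ ≤ c * G0 * G0 := e7
        _ = c * G0 ^ 2 := by ring
    · rw [Finset.sum_const, nsmul_eq_mul]
      have e8 : (((P Y R).filter (fun p => p ≤ z)).card : ℝ) ≤ R := by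
        have e9 : ((P Y R).filter (fun p => p ≤ z)).card ≤ R := by
          refine (Finset.card_filter_le _ _).trans ?_
          unfold P
          refine (Finset.card_filter_le _ _).trans ?_
          rw [Nat.card_Ioc]
          omega
        exact_mod_cast e9
      calc _ ≤ (R : ℝ) * (4 * (R : ℝ) ^ 7) := mul_le_mul_of_nonneg_right e8 (by positivity)
        _ = 4 * (R : ℝ) ^ 8 := by ring
  -- the lower bound from the assumption
  have hcon' : 2 * ε * (c + 1) * ∑ s ∈ Icc 1 S, L s ≤ ∑ s ∈ Icc 1 S, L s *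
      ∑ p ∈ (P Y R).filter (fun p => p ≤ z) with p ∈ B n Y M R s, u p := by
    rw [Finset.mul_sum]
    refine Finset.sum_le_sum (fun s hs => ?_)
    rw [mul_comm]
    exact mul_le_mul_of_nonneg_left (hcon s hs).le (hL0 s)
  have hR1 : (2 : ℝ) ≤ R := by exact_mod_cast hR
  have hSG : 8 * (R : ℝ) ^ 8 ≤ (S : ℝ) / G0 := by
    rw [le_div_iff₀ hGpos, hS]
    push_cast
    calc 8 * (R : ℝ) ^ 8 * G0 ≤ 8 * (R : ℝ) ^ 8 * R :=
          mul_le_mul_of_nonneg_left hGle (by positivity)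
      _ = 2 ^ 3 * (R : ℝ) ^ 9 := by ring
      _ ≤ (R : ℝ) ^ 3 * (R : ℝ) ^ 9 :=
          mul_le_mul_of_nonneg_right (pow_le_pow_left₀ (by norm_num) hR1 3) (by positivity)
      _ = (R : ℝ) ^ 12 := by ring
  have hR68 : (R : ℝ) ^ 6 ≤ (R : ℝ) ^ 8 := pow_le_pow_right₀ (by linarith) (by norm_num)
  have hR8 : (0 : ℝ) < (R : ℝ) ^ 8 := by positivity
  set Q := (S : ℝ) / G0 with hQ
  have hQc : (S : ℝ) * (c / G0) = c * Q := by
    rw [hQ]
    ring
  rw [hQc] at hup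
  have h1 : 2 * ε * (c + 1) * (Q - (R : ℝ) ^ 6) ≤ ε * (c * Q + 4 * (R : ℝ) ^ 8) := by
    refine le_trans ?_ (hcon'.trans hup)
    exact mul_le_mul_of_nonneg_left hlow (by positivity)
  have h2 : 2 * (c + 1) * (Q - (R : ℝ) ^ 6) ≤ c * Q + 4 * (R : ℝ) ^ 8 := by
    have h3 : ε * (2 * (c + 1) * (Q - (R : ℝ) ^ 6)) ≤ ε * (c * Q + 4 * (R : ℝ) ^ 8) := by
      calc _ = 2 * ε * (c + 1) * (Q - (R : ℝ) ^ 6) := by ring
        _ ≤ _ := h1
    exact le_of_mul_le_mul_left h3 hε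
  have h4 : 7 * Q / 8 ≤ Q - (R : ℝ) ^ 6 := by linarith
  have h5 : 2 * (c + 1) * (7 * Q / 8) ≤ 2 * (c + 1) * (Q - (R : ℝ) ^ 6) :=
    mul_le_mul_of_nonneg_left h4 (by positivity)
  have h6 : c * Q ≥ 0 := mul_nonneg hc (by linarith)
  nlinarith

end Pool.Agent.helper59.Sel
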